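import Pool.Agent.W_448cl_h67.ClJ

/-!
Local data of the strips `E6` and `E7`.
-/

namespace Pool.Agent.GaussPoset.Cl

set_option linter.unusedSectionVars false

open Polynomial Finset Wd

universe u

variable {P : Type u} [Fintype P] [PartialOrder P] [DecidableEq P]

/-- order `b` at window `i` of all up-sets of `N` which contain the levels `≤ i` and `x0` -/
def CleanAt (i b : ℕ) (N : Finset P) (x0 : P) : Prop :=
  ∀ U ⊆ N, (∀ x ∈ U, ∀ y, x ≤ y → y ∈ U) → (∀ x ∈ N, lev x ≤ i → x ∈ U) → x0 ∈ U →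
    (1 + X : Polynomial (PowerSeries ℤ)) ^ b ∣ W {x : P // x ∈ U} i

/-- local data from exact divisibility -/
theorem CleanAt.loc {i b : ℕ} {N : Finset P} {x0 : P} (h : CleanAt i b N x0) (h0 : x0 ∈ N)
    {θ : P → ℕ} (hlev : ∀ x ∈ N, 1 ≤ θ x → i < lev x) (hb : ∀ x ∈ N, 1 ≤ θ x → ¬ x0 ≤ x)
    (hst : ∀ x ∈ N, 1 ≤ θ x → ∀ y ∈ N, y ≤ x → ∀ x' ∈ N, y ⋖ x' → ¬ x' ≤ x → θ x ≤ θ x' + 1)
    (hle : ∀ x ∈ N, θ x ≤ lev x - i) : LocData i b N θ (fun x => x = x0) where
  clean := fun U hUN hup hlow hB => h U hUN hup hlow (hB x0 h0 rfl)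
  lev := hlev
  base := fun x hx h1 y _ hyx hy => hb x hx h1 (by rw [← hy]; exact hyx)
  step := hst
  le := hle

/-- local data from exact divisibility, simple thresholds -/
theorem CleanAt.loc_lev (hgr : GradedBelow P) {i b : ℕ} {N : Finset P} {x0 : P}
    (h : CleanAt i b N x0) (h0 : x0 ∈ N) (hi : i ≤ lev x0) :
    LocData i b N (fun x => lev x - lev x0) (fun x => x = x0) := by
  refine h.loc h0 (fun x _ h1 => by omega) ?_ ?_ ?_
  · intro x _ h1 h2
    rcases eq_or_lt_of_le h2 with h3 | h3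
    · rw [h3] at h1; omega
    · have := lev_strictAnti h3; omega
  · intro x _ h1 y _ hyx x' _ hyx' _
    have h2 := hgr.lev_covBy hyx'
    have h3 : lev x ≤ lev y := by
      rcases eq_or_lt_of_le hyx with h | h
      · rw [h]
      · exact (lev_strictAnti h).le
    omega
  · intro x _
    omega

section

variable {r j : ℕ} {t : P} {lo hi : ℕ → ℕ} {e : ℕ → ℕ → P}

/-- the word of the component: trunk of length `a`, then the beginning of `w` -/
structure WordD (j a : ℕ) (w : List Ltr) (lo hi : ℕ → ℕ) : Prop where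
  trunk : ∀ k, k < a → lo k = 0 ∧ hi k = 0
  row : lo a = 0 ∧ hi a = 1
  word : Wd.word lo hi a (j - a) = w.take (j - a)

lemma WordD.rows {a : ℕ} {w : List Ltr} (D : WordD j a w lo hi) (C : Cp.Comp j t lo hi e) :
    (∀ k, k ≤ j → lo k = losW a w k) ∧ (∀ k, k ≤ j → hi k = hisW a w k) :=
  rows_of_word C.lo_step C.hi_step D.trunk D.row D.word

/-- `E6`: order two at the windows `3 ≤ i ≤ 7` -/
theorem E6_clean (D : WordD j 3 w6 lo hi) (C : Cp.Comp j t lo hi e) (H : Gr P r)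
    (hg : ∀ l, l < j → Win.Good P l) (ht : lev t = 0) {i : ℕ} (h3 : 3 ≤ i) (hij : i + 3 ≤ j)
    (hj : j ≤ 10) : CleanAt i 2 (lowPart j t) (e (i + 3) 3) := by
  obtain ⟨h1, h2⟩ := D.rows C
  intro U hUN hup hlow hbase
  obtain rfl | rfl | rfl | rfl | rfl : i = 3 ∨ i = 4 ∨ i = 5 ∨ i = 6 ∨ i = 7 := by omega
  · exact E6_strip.clean C H hg ht hj h1 h2 E6_us E6_win3 E6_b3 (by show 6 ≤ j; omega) hUN hup
      hlow hbase
  · exact E6_strip.clean C H hg ht hj h1 h2 E6_us E6_win4 E6_b4 (by show 7 ≤ j; omega) hUN hup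
      hlow hbase
  · exact E6_strip.clean C H hg ht hj h1 h2 E6_us E6_win5 E6_b5 (by show 8 ≤ j; omega) hUN hup
      hlow hbase
  · exact E6_strip.clean C H hg ht hj h1 h2 E6_us E6_win6 E6_b6 (by show 9 ≤ j; omega) hUN hup
      hlow hbase
  · exact E6_strip.clean C H hg ht hj h1 h2 E6_us E6_win7 E6_b7 (by show 10 ≤ j; omega) hUN hup
      hlow hbase

/-- `E7`: order two at the windows `4 ≤ i ≤ 7` -/
theorem E7_clean (D : WordD j 4 w7 lo hi) (C : Cp.Comp j t lo hi e) (H : Gr P r)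
    (hg : ∀ l, l < j → Win.Good P l) (ht : lev t = 0) {i : ℕ} (h4 : 4 ≤ i) (h7 : i ≤ 7)
    (hij : i + 4 ≤ j) (hj : j ≤ 16) : CleanAt i 2 (lowPart j t) (e (i + 4) 4) := by
  obtain ⟨h1, h2⟩ := D.rows C
  intro U hUN hup hlow hbase
  obtain rfl | rfl | rfl | rfl : i = 4 ∨ i = 5 ∨ i = 6 ∨ i = 7 := by omega
  · exact E7_strip.clean C H hg ht hj h1 h2 E7_us E7_win4 E7_b4 (by show 8 ≤ j; omega) hUN hup
      hlow hbase
  · exact E7_strip.clean C H hg ht hj h1 h2 E7_us E7_win5 E7_b5 (by show 9 ≤ j; omega) hUN hup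
      hlow hbase
  · exact E7_strip.clean C H hg ht hj h1 h2 E7_us E7_win6 E7_b6 (by show 10 ≤ j; omega) hUN hup
      hlow hbase
  · exact E7_strip.clean C H hg ht hj h1 h2 E7_us E7_win7 E7_b7 (by show 11 ≤ j; omega) hUN hup
      hlow hbase

/-- `E7`: order two at the windows `9 ≤ i ≤ 12` -/
theorem E7_clean' (D : WordD j 4 w7 lo hi) (C : Cp.Comp j t lo hi e) (H : Gr P r)
    (hg : ∀ l, l < j → Win.Good P l) (ht : lev t = 0) {i : ℕ} (h9 : 9 ≤ i)
    (hij : i + 4 ≤ j) (hj : j ≤ 16) : CleanAt i 2 (lowPart j t) (e (i + 4) 5) := by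
  obtain ⟨h1, h2⟩ := D.rows C
  intro U hUN hup hlow hbase
  obtain rfl | rfl | rfl | rfl : i = 9 ∨ i = 10 ∨ i = 11 ∨ i = 12 := by omega
  · exact E7_strip.clean C H hg ht hj h1 h2 E7_us E7_win9 E7_b9 (by show 13 ≤ j; omega) hUN hup
      hlow hbase
  · exact E7_strip.clean C H hg ht hj h1 h2 E7_us E7_win10 E7_b10 (by show 14 ≤ j; omega) hUN hup
      hlow hbase
  · exact E7_strip.clean C H hg ht hj h1 h2 E7_us E7_win11 E7_b11 (by show 15 ≤ j; omega) hUN hup
      hlow hbase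
  · exact E7_strip.clean C H hg ht hj h1 h2 E7_us E7_win12 E7_b12 (by show 16 ≤ j; omega) hUN hup
      hlow hbase

/-- the complete `E7`: order three at the window `8` -/
theorem E7_clean8 (D : WordD 16 4 w7 lo hi) (C : Cp.Comp 16 t lo hi e) (H : Gr P r)
    (hg : ∀ l, l < 16 → Win.Good P l) (ht : lev t = 0) :
    CleanAt 8 3 (lowPart 16 t) (e 16 5) := by
  obtain ⟨h1, h2⟩ := D.rows C
  intro U hUN hup hlow hbase
  exact E7_strip.clean3 C H hg ht le_rfl h1 h2 E7_us E7_win8 E7_b8 (by show 16 ≤ 16; omega) hUN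
    hup hlow hbase

end

/-! ### natural sets of the tops -/

section

variable {r j : ℕ} {t : Tops P} {lo hi : ℕ → ℕ} {e : ℕ → ℕ → P}

/-- natural set from the order at the base -/
theorem CleanAt.natTop (H : Gr P r) (hg : ∀ l, l < j → Win.Good P l) (hgr : GradedBelow P)
    {i b : ℕ} {x0 : P} (h : CleanAt i b (lowPart j (t : P)) x0) (h0 : x0 ∈ lowPart j (t : P))
    (hi : i ≤ lev x0) :
    NatTop i t b (lowPart j (t : P)) (fun x => lev x - lev x0) (fun x => x = x0) := by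
  have h0' := mem_lowPart.mp h0
  refine (h.loc_lev hgr h0 hi).natTop ?_ ?_ ?_
  · intro x hx y hxy
    rw [mem_lowPart] at hx ⊢
    refine ⟨Cp.up_le H hg t.2 hx.1 hx.2 hxy, ?_⟩
    rcases eq_or_lt_of_le hxy with h1 | h1
    · rw [← h1]; exact hx.2
    · have := lev_strictAnti h1
      omega
  · exact fun x hx => (mem_lowPart.mp hx).1
  · intro x hx hxi
    exact mem_lowPart.mpr ⟨hx, by omega⟩

end

end Pool.Agent.GaussPoset.Cl
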