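import Pool.Agent.W_448cl_h67.ClM

/-!
The strip La5.
-/

namespace Pool.Agent.GaussPoset.Cl

open Wd

/-- the word -/
def wa5 : List Ltr := [OC, CO, CO, OO, CO, OC, OC]

/-- the up-sets -/
def La5us : List ℕ := [33554431, 29360127, 25165823, 20971519, 20447231, 16777215, 14680063, 14417919, 12582911, 10485759, 10223615, 8388607, 7340031, 6291455, 6029311, 5242879, 5111807, 4980735, 4849663, 4816895, 4194303, 3670015, 3145727, 2621439, 2555903, 2547711, 2097151, 1835007, 1572863, 1310719, 1048575, 917503, 786431, 655359, 622591, 524287, 458751, 450559, 393215, 327679, 319487, 311295, 303103, 301055, 300543, 300415, 262143, 196607, 188415, 131071, 98303, 65535, 57343, 49151, 40959, 38911, 38399, 38271, 32767, 24575, 16383, 12287, 8191, 6143, 5631, 5503, 4095, 2047, 1535, 1407, 1023, 511, 383, 255, 191, 127, 95, 63, 31, 15, 7, 3, 1, 0]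

/-- the covers -/
def La5cv : List ℕ := [0, 1, 2, 4, 8, 16, 16, 32, 96, 384, 256, 1536, 1024, 2048, 6144, 4096, 24576, 49152, 32768, 65536, 196608, 393216, 524288, 1572864, 3145728]

/-- the levels -/
def La5lv : List ℕ := [0, 1, 2, 3, 4, 5, 5, 6, 6, 7, 7, 8, 8, 9, 9, 9, 10, 10, 10, 11, 11, 11, 12, 12, 12]

/-- the coordinates -/
def La5sl : List ℕ := [0, 0, 0, 0, 0, 0, 1, 0, 1, 1, 2, 2, 3, 2, 3, 4, 3, 4, 5, 3, 4, 5, 3, 4, 5]

/-- the numbers of cells -/
def La5nn : List ℕ := [1, 2, 3, 4, 5, 7, 9, 11, 13, 16, 19, 22, 25]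

theorem La5_us : UsOK 25 (fun a => La5cv.getD a 0) La5us :=
  usOK_of_chk (by decide +kernel)

theorem La5_strip : StripOK 25 12 (losW 5 wa5) (hisW 5 wa5) (fun a => La5lv.getD a 0)
    (fun a => La5sl.getD a 0) (fun a => La5cv.getD a 0) (fun a => La5nn.getD a 0) :=
  stripOK_of_chk (by decide +kernel)

/-- window 5 -/
def La5L5 : List (ℕ × ℕ × ℕ) := [(300415, 11, 1), (300543, 11, 2), (301055, 11, 3), (303103, 11, 4), (311295, 11, 5), (319487, 11, 5), (327679, 11, 6), (393215, 11, 7), (450559, 11, 6), (458751, 11, 7), (524287, 11, 8), (917503, 12, 7), (1048575, 12, 8), (1572863, 12, 8), (2097151, 12, 9), (2547711, 12, 6), (2555903, 12, 7), (2621439, 12, 8), (3145727, 12, 9), (3670015, 12, 9), (4194303, 12, 10), (5111807, 13, 7), (5242879, 13, 8), (6291455, 13, 9), (7340031, 13, 9), (8388607, 13, 10), (10485759, 13, 9), (12582911, 13, 10), (14680063, 13, 10), (16777215, 13, 11), (20447231, 13, 9), (20971519, 13, 10), (25165823, 13, 11), (29360127, 13, 11), (33554431,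 13, 12)]

theorem La5_win5 : winChk 25 (2 ^ 100) 12 (fun a => La5lv.getD a 0) La5us 5 300415 La5L5 = true := by
  decide +kernel

theorem La5_b5 : baseChk 25 12 5 18 300415 (fun a => La5lv.getD a 0) (fun a => La5cv.getD a 0)
    (fun a => La5nn.getD a 0) = true := by decide +kernel

/-- window 6 -/
def La5L6 : List (ℕ × ℕ × ℕ) := [(2547711, 12, 6), (2555903, 12, 7), (2621439, 12, 8), (3145727, 12, 9), (3670015, 12, 9), (4194303, 12, 10), (7340031, 13, 9), (8388607, 13, 10), (12582911, 13, 10), (16777215, 13, 11), (20447231, 13, 9), (20971519, 13, 10), (25165823, 13, 11), (29360127, 13, 11), (33554431, 13, 12)]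

theorem La5_win6 : winChk 25 (2 ^ 100) 12 (fun a => La5lv.getD a 0) La5us 6 2547711 La5L6 = true := by
  decide +kernel

theorem La5_b6 : baseChk 25 12 6 21 2547711 (fun a => La5lv.getD a 0) (fun a => La5cv.getD a 0)
    (fun a => La5nn.getD a 0) = true := by decide +kernel

/-- window 7 -/
def La5L7 : List (ℕ × ℕ × ℕ) := [(20447231, 13, 9), (20971519, 13, 10), (25165823, 13, 11), (29360127, 13, 11), (33554431, 13, 12)]

theorem La5_win7 : winChk 25 (2 ^ 100) 12 (fun a => La5lv.getD a 0) La5us 7 20447231 La5L7 = true := by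
  decide +kernel

theorem La5_b7 : baseChk 25 12 7 24 20447231 (fun a => La5lv.getD a 0) (fun a => La5cv.getD a 0)
    (fun a => La5nn.getD a 0) = true := by decide +kernel

section

universe u

variable {P : Type u} [Fintype P] [PartialOrder P] [DecidableEq P]
variable {r j : ℕ} {t : Tops P} {lo hi : ℕ → ℕ} {e : ℕ → ℕ → P}

/-- window 5 -/
theorem natTop_La5_5 (D : WordD j 5 wa5 lo hi) (C : Cp.Comp j (t : P) lo hi e) (H : Gr P r)
    (hg : ∀ l, l < j → Win.Good P l) (hgr : GradedBelow P) (hj : 10 ≤ j) (hj' : j ≤ 12) :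
    NatTop 5 t 2 (lowPart j (t : P)) (fun x => lev x - 10) (fun x => x = e 10 5) :=
  La5_strip.natTop La5_us La5_win5 La5_b5 D C H hg hgr hj' hj

/-- window 6 -/
theorem natTop_La5_6 (D : WordD j 5 wa5 lo hi) (C : Cp.Comp j (t : P) lo hi e) (H : Gr P r)
    (hg : ∀ l, l < j → Win.Good P l) (hgr : GradedBelow P) (hj : 11 ≤ j) (hj' : j ≤ 12) :
    NatTop 6 t 2 (lowPart j (t : P)) (fun x => lev x - 11) (fun x => x = e 11 5) :=
  La5_strip.natTop La5_us La5_win6 La5_b6 D C H hg hgr hj' hj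

/-- window 7 -/
theorem natTop_La5_7 (D : WordD j 5 wa5 lo hi) (C : Cp.Comp j (t : P) lo hi e) (H : Gr P r)
    (hg : ∀ l, l < j → Win.Good P l) (hgr : GradedBelow P) (hj : 12 ≤ j) (hj' : j ≤ 12) :
    NatTop 7 t 2 (lowPart j (t : P)) (fun x => lev x - 12) (fun x => x = e 12 5) :=
  La5_strip.natTop La5_us La5_win7 La5_b7 D C H hg hgr hj' hj

end

end Pool.Agent.GaussPoset.Cl
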