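import Pool.Agent.W_448cl_h67.ClM

/-!
The strip La6.
-/

namespace Pool.Agent.GaussPoset.Cl

open Wd

/-- the word -/
def wa6 : List Ltr := [OC, CO, CO, OO, CO, OO, OC]

/-- the up-sets -/
def La6us : List ℕ := [268435455, 251658239, 234881023, 218103807, 217055231, 201326591, 184549375, 167772159, 165675007, 150994943, 149946367, 148897791, 147849215, 147718143, 147701759, 134217727, 125829119, 117440511, 109051903, 100663295, 92274687, 83886079, 82837503, 75497471, 74448895, 67108863, 62914559, 58720255, 54525951, 54001663, 50331647, 46137343, 41943039, 37748735, 37224447, 33554431, 31457279, 29360127, 27262975, 27000831, 25165823, 23068671, 20971519, 20447231, 18874367, 18612223, 18350079, 18087935, 18022399, 16777215, 15728639, 14680063, 13631487, 13500415, 13484031, 12582911, 11534335, 10485759, 10223615, 9437183, 9306111, 9289727, 9175039, 9043967, 9027583, 9011199, 8994815, 8990719, 8989695, 8989439, 8388607, 7340031, 6291455, 5242879, 5111807, 5095423, 4194303, 3670015, 3145727, 2621439, 2097151,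 1835007, 1572863, 1310719, 1245183, 1048575, 917503, 901119, 786431, 655359, 638975, 622591, 606207, 602111, 601087, 600831, 524287, 393215, 376831, 262143, 196607, 131071, 114687, 98303, 81919, 77823, 76799, 76543, 65535, 49151, 32767, 24575, 16383, 12287, 11263, 11007, 8191, 4095, 3071, 2815, 2047, 1023, 767, 511, 383, 255, 191, 127, 63, 31, 15, 7, 3, 1, 0]

/-- the covers -/
def La6cv : List ℕ := [0, 1, 2, 4, 8, 16, 32, 32, 64, 192, 768, 512, 3072, 2048, 4096, 12288, 8192, 49152, 98304, 65536, 131072, 393216, 786432, 524288, 1048576, 3145728, 6291456, 12582912]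

/-- the levels -/
def La6lv : List ℕ := [0, 1, 2, 3, 4, 5, 6, 6, 7, 7, 8, 8, 9, 9, 10, 10, 10, 11, 11, 11, 12, 12, 12, 12, 13, 13, 13, 13]

/-- the coordinates -/
def La6sl : List ℕ := [0, 0, 0, 0, 0, 0, 0, 1, 0, 1, 1, 2, 2, 3, 2, 3, 4, 3, 4, 5, 3, 4, 5, 6, 3, 4, 5, 6]

/-- the numbers of cells -/
def La6nn : List ℕ := [1, 2, 3, 4, 5, 6, 8, 10, 12, 14, 17, 20, 24, 28]

theorem La6_us : UsOK 28 (fun a => La6cv.getD a 0) La6us :=
  usOK_of_chk (by decide +kernel)

theorem La6_strip : StripOK 28 13 (losW 6 wa6) (hisW 6 wa6) (fun a => La6lv.getD a 0)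
    (fun a => La6sl.getD a 0) (fun a => La6cv.getD a 0) (fun a => La6nn.getD a 0) :=
  stripOK_of_chk (by decide +kernel)

/-- window 6 -/
def La6L6 : List (ℕ × ℕ × ℕ) := [(8989439, 13, 1), (8989695, 13, 2), (8990719, 13, 3), (8994815, 13, 4), (9011199, 13, 5), (9027583, 13, 5), (9043967, 13, 6), (9175039, 13, 7), (9289727, 13, 6), (9306111, 13, 7), (9437183, 13, 8), (10223615, 13, 8), (10485759, 13, 9), (11534335, 13, 9), (12582911, 13, 10), (13484031, 13, 7), (13500415, 13, 8), (13631487, 13, 9), (14680063, 13, 10), (15728639, 13, 10), (16777215, 13, 11), (27000831, 14, 8), (27262975, 14, 9), (29360127, 14, 10), (31457279, 14, 10), (33554431, 14, 11), (46137343, 14, 10), (50331647, 14, 11), (62914559, 14, 11), (67108863, 14, 12), (82837503, 14, 10), (83886079, 14, 11), (100663295, 14, 12), (117440511, 14, 12), (134217727, 14, 13), (147701759, 14, 7), (147718143, 14, 8), (147849215, 14, 9), (148897791, 14, 10), (149946367, 14, 10), (150994943, 14, 11), (165675007, 14, 11), (167772159, 14, 12), (184549375,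 14, 12), (201326591, 14, 13), (217055231, 14, 11), (218103807, 14, 12), (234881023, 14, 13), (251658239, 14, 13), (268435455, 14, 14)]

theorem La6_win6 : winChk 28 (2 ^ 100) 14 (fun a => La6lv.getD a 0) La6us 6 8989439 La6L6 = true := by
  decide +kernel

theorem La6_b6 : baseChk 28 13 6 23 8989439 (fun a => La6lv.getD a 0) (fun a => La6cv.getD a 0)
    (fun a => La6nn.getD a 0) = true := by decide +kernel

/-- window 7 -/
def La6L7 : List (ℕ × ℕ × ℕ) := [(147701759, 14, 7), (147718143, 14, 8), (147849215, 14, 9), (148897791, 14, 10), (149946367, 14, 10), (150994943, 14, 11), (165675007, 14, 11), (167772159, 14, 12), (184549375, 14, 12), (201326591, 14, 13), (217055231, 14, 11), (218103807, 14, 12), (234881023, 14, 13), (251658239, 14, 13), (268435455, 14, 14)]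

theorem La6_win7 : winChk 28 (2 ^ 100) 14 (fun a => La6lv.getD a 0) La6us 7 147701759 La6L7 = true := by
  decide +kernel

theorem La6_b7 : baseChk 28 13 7 27 147701759 (fun a => La6lv.getD a 0) (fun a => La6cv.getD a 0)
    (fun a => La6nn.getD a 0) = true := by decide +kernel

section

universe u

variable {P : Type u} [Fintype P] [PartialOrder P] [DecidableEq P]
variable {r j : ℕ} {t : Tops P} {lo hi : ℕ → ℕ} {e : ℕ → ℕ → P}

/-- window 6 -/
theorem natTop_La6_6 (D : WordD j 6 wa6 lo hi) (C : Cp.Comp j (t : P) lo hi e) (H : Gr P r)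
    (hg : ∀ l, l < j → Win.Good P l) (hgr : GradedBelow P) (hj : 12 ≤ j) (hj' : j ≤ 13) :
    NatTop 6 t 2 (lowPart j (t : P)) (fun x => lev x - 12) (fun x => x = e 12 6) :=
  La6_strip.natTop La6_us La6_win6 La6_b6 D C H hg hgr hj' hj

/-- window 7 -/
theorem natTop_La6_7 (D : WordD j 6 wa6 lo hi) (C : Cp.Comp j (t : P) lo hi e) (H : Gr P r)
    (hg : ∀ l, l < j → Win.Good P l) (hgr : GradedBelow P) (hj : 13 ≤ j) (hj' : j ≤ 13) :
    NatTop 7 t 2 (lowPart j (t : P)) (fun x => lev x - 13) (fun x => x = e 13 6) :=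
  La6_strip.natTop La6_us La6_win7 La6_b7 D C H hg hgr hj' hj

end

end Pool.Agent.GaussPoset.Cl
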