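import Pool.Agent.W_448cl_h67.ClR
import Pool.Agent.W_448cl_h67.ClN
import Pool.Agent.W_448cl_h67.ClO
import Pool.Agent.W_448cl_h67.ClP

/-!
The largest thresholds of the strips, as tables.
-/

namespace Pool.Agent.GaussPoset.Cl

set_option linter.unusedSectionVars false

open Polynomial Finset Wd

universe u

/-- a table with default value `k - k0` -/
def tab : List (ℕ × ℕ × ℕ) → ℕ → ℕ → ℕ → ℕ
  | [], k0, k, _ => k - k0
  | (k', s', v) :: L, k0, k, s => if k = k' ∧ s = s' then v else tab L k0 k s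

/-- the cells above -/
def E6um : List ℕ := [1, 3, 7, 15, 23, 47, 95, 255, 351, 1023, 1375, 3071, 6143, 16383, 32767, 65535]

/-- thresholds of `E6` at the window `3` -/
def E6t3 : ℕ → ℕ → ℕ := tab [(4, 0, 1), (5, 1, 1), (6, 2, 1), (7, 2, 2)] 6

theorem E6_th3 : thChk 16 3 10 (fun a => E6lv.getD a 0) (fun a => E6cv.getD a 0)
    (fun a => E6um.getD a 0) (fun a => E6t3 (E6lv.getD a 0) (E6sl.getD a 0)) = true := by
  decide +kernel

/-- thresholds of `E6` at the window `4` -/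
def E6t4 : ℕ → ℕ → ℕ := tab [(7, 2, 1)] 7

theorem E6_th4 : thChk 16 4 12 (fun a => E6lv.getD a 0) (fun a => E6cv.getD a 0)
    (fun a => E6um.getD a 0) (fun a => E6t4 (E6lv.getD a 0) (E6sl.getD a 0)) = true := by
  decide +kernel

/-- the cells above -/
def E7um : List ℕ := [1, 3, 7, 15, 31, 47, 95, 191, 511, 703, 2047, 2751, 6143, 12287, 19135, 49151, 94207, 180223, 393215, 704511, 1572863, 4194303, 5767167, 16777215, 33554431, 67108863, 134217727]

/-- thresholds of `E7` at the window `4` -/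
def E7t4 : ℕ → ℕ → ℕ := tab [(5, 0, 1), (6, 1, 1), (7, 2, 1), (8, 2, 2), (8, 3, 1), (9, 3, 2), (10, 3, 3), (11, 3, 4)] 8

theorem E7_th4 : thChk 27 4 14 (fun a => E7lv.getD a 0) (fun a => E7cv.getD a 0)
    (fun a => E7um.getD a 0) (fun a => E7t4 (E7lv.getD a 0) (E7sl.getD a 0)) = true := by
  decide +kernel

/-- thresholds of `E7` at the window `5` -/
def E7t5 : ℕ → ℕ → ℕ := tab [(8, 2, 1), (9, 3, 1), (10, 3, 2), (11, 3, 3)] 9

theorem E7_th5 : thChk 27 5 16 (fun a => E7lv.getD a 0) (fun a => E7cv.getD a 0)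
    (fun a => E7um.getD a 0) (fun a => E7t5 (E7lv.getD a 0) (E7sl.getD a 0)) = true := by
  decide +kernel

/-- thresholds of `E7` at the window `6` -/
def E7t6 : ℕ → ℕ → ℕ := tab [(10, 3, 1), (11, 3, 2)] 10

theorem E7_th6 : thChk 27 6 18 (fun a => E7lv.getD a 0) (fun a => E7cv.getD a 0)
    (fun a => E7um.getD a 0) (fun a => E7t6 (E7lv.getD a 0) (E7sl.getD a 0)) = true := by
  decide +kernel

/-- thresholds of `E7` at the window `7` -/
def E7t7 : ℕ → ℕ → ℕ := tab [(11, 3, 1)] 11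

theorem E7_th7 : thChk 27 7 20 (fun a => E7lv.getD a 0) (fun a => E7cv.getD a 0)
    (fun a => E7um.getD a 0) (fun a => E7t7 (E7lv.getD a 0) (E7sl.getD a 0)) = true := by
  decide +kernel

/-- the cells above -/
def La5um : List ℕ := [1, 3, 7, 15, 31, 63, 95, 191, 383, 1023, 1407, 4095, 5503, 12287, 24575, 38271, 98303, 188415, 300415, 622591, 1310719, 2547711, 4816895, 10223615, 20447231]

/-- thresholds of `La5` at the window `5` -/
def La5t5 : ℕ → ℕ → ℕ := tab [(6, 0, 1), (7, 1, 1), (8, 2, 1), (9, 2, 2), (9, 3, 1), (10, 3, 2), (10, 4, 1), (11, 3, 3), (11, 4, 2), (12, 3, 4), (12, 4, 3)] 10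

theorem La5_th5 : thChk 25 5 18 (fun a => La5lv.getD a 0) (fun a => La5cv.getD a 0)
    (fun a => La5um.getD a 0) (fun a => La5t5 (La5lv.getD a 0) (La5sl.getD a 0)) = true := by
  decide +kernel

/-- thresholds of `La5` at the window `6` -/
def La5t6 : ℕ → ℕ → ℕ := tab [(9, 2, 1), (10, 3, 1), (11, 3, 2), (11, 4, 1), (12, 3, 3), (12, 4, 2)] 11

theorem La5_th6 : thChk 25 6 21 (fun a => La5lv.getD a 0) (fun a => La5cv.getD a 0)
    (fun a => La5um.getD a 0) (fun a => La5t6 (La5lv.getD a 0) (La5sl.getD a 0)) = true := by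
  decide +kernel

/-- thresholds of `La5` at the window `7` -/
def La5t7 : ℕ → ℕ → ℕ := tab [(11, 3, 1), (12, 3, 2), (12, 4, 1)] 12

theorem La5_th7 : thChk 25 7 24 (fun a => La5lv.getD a 0) (fun a => La5cv.getD a 0)
    (fun a => La5um.getD a 0) (fun a => La5t7 (La5lv.getD a 0) (La5sl.getD a 0)) = true := by
  decide +kernel

/-- the cells above -/
def La6um : List ℕ := [1, 3, 7, 15, 31, 63, 127, 191, 383, 767, 2047, 2815, 8191, 11007, 24575, 49151, 76543, 196607, 376831, 600831, 1245183, 2621439, 5095423, 8989439, 18022399, 37224447, 74448895, 147701759]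

/-- thresholds of `La6` at the window `6` -/
def La6t6 : ℕ → ℕ → ℕ := tab [(7, 0, 1), (8, 1, 1), (9, 2, 1), (10, 2, 2), (10, 3, 1), (11, 3, 2), (11, 4, 1), (12, 3, 3), (12, 4, 2), (12, 5, 1), (13, 3, 4), (13, 4, 3), (13, 5, 2)] 12

theorem La6_th6 : thChk 28 6 23 (fun a => La6lv.getD a 0) (fun a => La6cv.getD a 0)
    (fun a => La6um.getD a 0) (fun a => La6t6 (La6lv.getD a 0) (La6sl.getD a 0)) = true := by
  decide +kernel

/-- thresholds of `La6` at the window `7` -/
def La6t7 : ℕ → ℕ → ℕ := tab [(10, 2, 1), (11, 3, 1), (12, 3, 2), (12, 4, 1), (13, 3, 3), (13, 4, 2), (13, 5, 1)] 13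

theorem La6_th7 : thChk 28 7 27 (fun a => La6lv.getD a 0) (fun a => La6cv.getD a 0)
    (fun a => La6um.getD a 0) (fun a => La6t7 (La6lv.getD a 0) (La6sl.getD a 0)) = true := by
  decide +kernel

/-- the cells above -/
def La7um : List ℕ := [1, 3, 7, 15, 31, 63, 127, 255, 383, 767, 1535, 4095, 5631, 16383, 22015, 49151, 98303, 153087, 393215, 753663, 1201663, 2490367, 5242879, 10190847, 17978879, 36044799, 74448895, 148897791, 295403519, 554849791]

/-- thresholds of `La7` at the window `7` -/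
def La7t7 : ℕ → ℕ → ℕ := tab [(8, 0, 1), (9, 1, 1), (10, 2, 1), (11, 2, 2), (11, 3, 1), (12, 3, 2), (12, 4, 1), (13, 3, 3), (13, 4, 2), (13, 5, 1), (14, 3, 4), (14, 4, 3), (14, 5, 2), (14, 6, 1)] 14

theorem La7_th7 : thChk 30 7 29 (fun a => La7lv.getD a 0) (fun a => La7cv.getD a 0)
    (fun a => La7um.getD a 0) (fun a => La7t7 (La7lv.getD a 0) (La7sl.getD a 0)) = true := by
  decide +kernel

section

variable {P : Type u} [Fintype P] [PartialOrder P] [DecidableEq P]
variable {r j : ℕ} {t : Tops P} {lo hi : ℕ → ℕ} {e : ℕ → ℕ → P}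

/-- the value of the threshold on a cell -/
lemma thC_e (C : Cp.Comp j (t : P) lo hi e) (thv : ℕ → ℕ → ℕ) {k s : ℕ} (hk : k ≤ j)
    (h1 : lo k ≤ s) (h2 : s ≤ hi k) : thC lo hi e thv (e k s) = thv k s := by
  unfold thC
  rw [C.lev_e _ _ hk h1 h2, scoord_e C hk h1 h2]

/-- `E6` at the window `3`, largest thresholds -/
theorem natTopC_E6_3 (D : WordD j 3 w6 lo hi) (C : Cp.Comp j (t : P) lo hi e) (H : Gr P r)
    (hg : ∀ l, l < j → Win.Good P l) (hj : 6 ≤ j) (hj' : j ≤ 10) :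
    NatTop 3 t 2 (lowPart j (t : P)) (thC lo hi e E6t3) (fun x => x = e 6 3) :=
  E6_strip.natTopC E6_us D C H hg hj' E6_th3 hj (by decide +kernel)
    (E6_clean D C H hg t.2 (i := 3) (by omega) (by omega) hj')

/-- `E6` at the window `4`, largest thresholds -/
theorem natTopC_E6_4 (D : WordD j 3 w6 lo hi) (C : Cp.Comp j (t : P) lo hi e) (H : Gr P r)
    (hg : ∀ l, l < j → Win.Good P l) (hj : 7 ≤ j) (hj' : j ≤ 10) :
    NatTop 4 t 2 (lowPart j (t : P)) (thC lo hi e E6t4) (fun x => x = e 7 3) :=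
  E6_strip.natTopC E6_us D C H hg hj' E6_th4 hj (by decide +kernel)
    (E6_clean D C H hg t.2 (i := 4) (by omega) (by omega) hj')

/-- `E7` at the window `4`, largest thresholds -/
theorem natTopC_E7_4 (D : WordD j 4 w7 lo hi) (C : Cp.Comp j (t : P) lo hi e) (H : Gr P r)
    (hg : ∀ l, l < j → Win.Good P l) (hj : 8 ≤ j) (hj' : j ≤ 16) :
    NatTop 4 t 2 (lowPart j (t : P)) (thC lo hi e E7t4) (fun x => x = e 8 4) :=
  E7_strip.natTopC E7_us D C H hg hj' E7_th4 hj (by decide +kernel)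
    (E7_clean D C H hg t.2 (i := 4) (by omega) (by omega) (by omega) hj')

/-- `E7` at the window `5`, largest thresholds -/
theorem natTopC_E7_5 (D : WordD j 4 w7 lo hi) (C : Cp.Comp j (t : P) lo hi e) (H : Gr P r)
    (hg : ∀ l, l < j → Win.Good P l) (hj : 9 ≤ j) (hj' : j ≤ 16) :
    NatTop 5 t 2 (lowPart j (t : P)) (thC lo hi e E7t5) (fun x => x = e 9 4) :=
  E7_strip.natTopC E7_us D C H hg hj' E7_th5 hj (by decide +kernel)
    (E7_clean D C H hg t.2 (i := 5) (by omega) (by omega) (by omega) hj')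

/-- `E7` at the window `6`, largest thresholds -/
theorem natTopC_E7_6 (D : WordD j 4 w7 lo hi) (C : Cp.Comp j (t : P) lo hi e) (H : Gr P r)
    (hg : ∀ l, l < j → Win.Good P l) (hj : 10 ≤ j) (hj' : j ≤ 16) :
    NatTop 6 t 2 (lowPart j (t : P)) (thC lo hi e E7t6) (fun x => x = e 10 4) :=
  E7_strip.natTopC E7_us D C H hg hj' E7_th6 hj (by decide +kernel)
    (E7_clean D C H hg t.2 (i := 6) (by omega) (by omega) (by omega) hj')

/-- `E7` at the window `7`, largest thresholds -/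
theorem natTopC_E7_7 (D : WordD j 4 w7 lo hi) (C : Cp.Comp j (t : P) lo hi e) (H : Gr P r)
    (hg : ∀ l, l < j → Win.Good P l) (hj : 11 ≤ j) (hj' : j ≤ 16) :
    NatTop 7 t 2 (lowPart j (t : P)) (thC lo hi e E7t7) (fun x => x = e 11 4) :=
  E7_strip.natTopC E7_us D C H hg hj' E7_th7 hj (by decide +kernel)
    (E7_clean D C H hg t.2 (i := 7) (by omega) (by omega) (by omega) hj')

/-- `La5` at the window `5`, largest thresholds -/
theorem natTopC_La5_5 (D : WordD j 5 wa5 lo hi) (C : Cp.Comp j (t : P) lo hi e) (H : Gr P r)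
    (hg : ∀ l, l < j → Win.Good P l) (hj : 10 ≤ j) (hj' : j ≤ 12) :
    NatTop 5 t 2 (lowPart j (t : P)) (thC lo hi e La5t5) (fun x => x = e 10 5) :=
  La5_strip.natTopC La5_us D C H hg hj' La5_th5 hj (by decide +kernel)
    (La5_strip.cleanAt La5_us La5_win5 La5_b5 D C H hg hj' hj)

/-- `La5` at the window `6`, largest thresholds -/
theorem natTopC_La5_6 (D : WordD j 5 wa5 lo hi) (C : Cp.Comp j (t : P) lo hi e) (H : Gr P r)
    (hg : ∀ l, l < j → Win.Good P l) (hj : 11 ≤ j) (hj' : j ≤ 12) :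
    NatTop 6 t 2 (lowPart j (t : P)) (thC lo hi e La5t6) (fun x => x = e 11 5) :=
  La5_strip.natTopC La5_us D C H hg hj' La5_th6 hj (by decide +kernel)
    (La5_strip.cleanAt La5_us La5_win6 La5_b6 D C H hg hj' hj)

/-- `La5` at the window `7`, largest thresholds -/
theorem natTopC_La5_7 (D : WordD j 5 wa5 lo hi) (C : Cp.Comp j (t : P) lo hi e) (H : Gr P r)
    (hg : ∀ l, l < j → Win.Good P l) (hj : 12 ≤ j) (hj' : j ≤ 12) :
    NatTop 7 t 2 (lowPart j (t : P)) (thC lo hi e La5t7) (fun x => x = e 12 5) :=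
  La5_strip.natTopC La5_us D C H hg hj' La5_th7 hj (by decide +kernel)
    (La5_strip.cleanAt La5_us La5_win7 La5_b7 D C H hg hj' hj)

/-- `La6` at the window `6`, largest thresholds -/
theorem natTopC_La6_6 (D : WordD j 6 wa6 lo hi) (C : Cp.Comp j (t : P) lo hi e) (H : Gr P r)
    (hg : ∀ l, l < j → Win.Good P l) (hj : 12 ≤ j) (hj' : j ≤ 13) :
    NatTop 6 t 2 (lowPart j (t : P)) (thC lo hi e La6t6) (fun x => x = e 12 6) :=
  La6_strip.natTopC La6_us D C H hg hj' La6_th6 hj (by decide +kernel)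
    (La6_strip.cleanAt La6_us La6_win6 La6_b6 D C H hg hj' hj)

/-- `La6` at the window `7`, largest thresholds -/
theorem natTopC_La6_7 (D : WordD j 6 wa6 lo hi) (C : Cp.Comp j (t : P) lo hi e) (H : Gr P r)
    (hg : ∀ l, l < j → Win.Good P l) (hj : 13 ≤ j) (hj' : j ≤ 13) :
    NatTop 7 t 2 (lowPart j (t : P)) (thC lo hi e La6t7) (fun x => x = e 13 6) :=
  La6_strip.natTopC La6_us D C H hg hj' La6_th7 hj (by decide +kernel)
    (La6_strip.cleanAt La6_us La6_win7 La6_b7 D C H hg hj' hj)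

/-- `La7` at the window `7`, largest thresholds -/
theorem natTopC_La7_7 (D : WordD j 7 wa7 lo hi) (C : Cp.Comp j (t : P) lo hi e) (H : Gr P r)
    (hg : ∀ l, l < j → Win.Good P l) (hj : 14 ≤ j) (hj' : j ≤ 14) :
    NatTop 7 t 2 (lowPart j (t : P)) (thC lo hi e La7t7) (fun x => x = e 14 7) :=
  La7_strip.natTopC La7_us D C H hg hj' La7_th7 hj (by decide +kernel)
    (La7_strip.cleanAt La7_us La7_win7 La7_b7 D C H hg hj' hj)

end

end Pool.Agent.GaussPoset.Cl
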