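import Pool.Agent.W_MP_448cb3_h96.Defs

/-!
The bounded order-preserving maps of an up-set: recursion over the bound.
-/

namespace Pool.Agent.GaussPoset.Cl

set_option linter.unusedSectionVars false

open Polynomial Finset

universe u

variable {E : Type u} [Fintype E] [PartialOrder E] [DecidableEq E]

/-- up-sets -/
def Up (J : Finset E) : Prop := ∀ x ∈ J, ∀ y, x ≤ y → y ∈ J

open Classical in
/-- the recursion -/
noncomputable def V : ℕ → Finset E → ℤ[X]
  | 0, _ => 1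
  | m + 1, J => ∑ I ∈ J.powerset.filter Up, X ^ I.card * V m I

lemma V_zero (J : Finset E) : V 0 J = 1 := rfl

open Classical in
lemma V_succ (m : ℕ) (J : Finset E) :
    V (m + 1) J = ∑ I ∈ J.powerset.filter Up, X ^ I.card * V m I := rfl

open Classical in
/-- the support of a map -/
noncomputable def supp {m : ℕ} {J : Finset E} (σ : {x // x ∈ J} → Fin (m + 2)) : Finset E :=
  J.filter (fun x => ∃ h : x ∈ J, σ ⟨x, h⟩ ≠ 0)

lemma mem_supp {m : ℕ} {J : Finset E} {σ : {x // x ∈ J} → Fin (m + 2)} {x : E} :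
    x ∈ supp σ ↔ ∃ h : x ∈ J, σ ⟨x, h⟩ ≠ 0 := by
  classical
  unfold supp
  rw [mem_filter]
  exact ⟨fun h => h.2, fun h => ⟨h.choose, h⟩⟩

lemma supp_sub {m : ℕ} {J : Finset E} (σ : {x // x ∈ J} → Fin (m + 2)) : supp σ ⊆ J := by
  intro x hx
  obtain ⟨h, -⟩ := mem_supp.mp hx
  exact h

lemma supp_up {m : ℕ} {J : Finset E} (hJ : Up J) {σ : {x // x ∈ J} → Fin (m + 2)}
    (hσ : Monotone σ) : Up (supp σ) := by
  intro x hx y hxy
  obtain ⟨h, h1⟩ := mem_supp.mp hx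
  have hy := hJ x h y hxy
  refine mem_supp.mpr ⟨hy, fun h2 => h1 ?_⟩
  have h3 : σ ⟨x, h⟩ ≤ σ ⟨y, hy⟩ := hσ hxy
  rw [h2] at h3
  exact le_antisymm h3 (Fin.zero_le _)

/-- lifting a map from an up-set -/
def lift {m : ℕ} {J I : Finset E} (τ : {x // x ∈ I} → Fin (m + 1)) :
    {x // x ∈ J} → Fin (m + 2) :=
  fun x => if h : (x : E) ∈ I then (τ ⟨x, h⟩).succ else 0

lemma lift_mem {m : ℕ} {J I : Finset E} (τ : {x // x ∈ I} → Fin (m + 1)) {x : {x // x ∈ J}}
    (h : (x : E) ∈ I) : (lift τ x : Fin (m + 2)) = (τ ⟨x, h⟩).succ := dif_pos h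

lemma lift_not_mem {m : ℕ} {J I : Finset E} (τ : {x // x ∈ I} → Fin (m + 1))
    {x : {x // x ∈ J}} (h : (x : E) ∉ I) : (lift τ x : Fin (m + 2)) = 0 := dif_neg h

lemma supp_lift {m : ℕ} {J I : Finset E} (hI : I ⊆ J) (τ : {x // x ∈ I} → Fin (m + 1)) :
    supp (J := J) (lift τ) = I := by
  ext x
  rw [mem_supp]
  constructor
  · rintro ⟨h, h1⟩
    by_contra hx
    exact h1 (lift_not_mem τ (x := ⟨x, h⟩) hx)
  · intro hx
    refine ⟨hI hx, ?_⟩
    rw [lift_mem τ (x := ⟨x, hI hx⟩) hx]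
    exact Fin.succ_ne_zero _

lemma lift_mono {m : ℕ} {J I : Finset E} (hI : Up I) {τ : {x // x ∈ I} → Fin (m + 1)}
    (hτ : Monotone τ) : Monotone (lift (J := J) τ) := by
  intro x y hxy
  by_cases hx : (x : E) ∈ I
  · have hy : (y : E) ∈ I := hI x hx y hxy
    rw [lift_mem τ hx, lift_mem τ hy]
    exact Fin.succ_le_succ_iff.mpr (hτ (show (⟨x, hx⟩ : {x // x ∈ I}) ≤ ⟨y, hy⟩ from hxy))
  · rw [lift_not_mem τ hx]
    exact Fin.zero_le _

lemma lift_sum {m : ℕ} {J I : Finset E} (hI : I ⊆ J) (τ : {x // x ∈ I} → Fin (m + 1)) :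
    ∑ x : {x // x ∈ J}, ((lift τ x : Fin (m + 2)) : ℕ) = I.card + ∑ x : {x // x ∈ I}, (τ x : ℕ) := by
  classical
  have h1 : ∑ x : {x // x ∈ J}, ((lift τ x : Fin (m + 2)) : ℕ) =
      ∑ x ∈ J, (if h : x ∈ I then ((τ ⟨x, h⟩ : Fin (m + 1)) : ℕ) + 1 else 0) := by
    rw [← Finset.sum_coe_sort J]
    refine Finset.sum_congr rfl fun x _ => ?_
    by_cases hx : (x : E) ∈ I
    · rw [lift_mem τ hx, dif_pos hx]
      rfl
    · rw [lift_not_mem τ hx, dif_neg hx]
      rfl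
  have h2 : ∑ x ∈ J, (if h : x ∈ I then ((τ ⟨x, h⟩ : Fin (m + 1)) : ℕ) + 1 else 0) =
      ∑ x ∈ I, (if h : x ∈ I then ((τ ⟨x, h⟩ : Fin (m + 1)) : ℕ) + 1 else 0) := by
    refine (Finset.sum_subset hI fun x _ hx => ?_).symm
    rw [dif_neg hx]
  rw [h1, h2, ← Finset.sum_coe_sort I]
  have h3 : ∀ x : {x // x ∈ I}, (if h : (x : E) ∈ I then ((τ ⟨x, h⟩ : Fin (m + 1)) : ℕ) + 1
      else 0) = (τ x : ℕ) + 1 := by
    intro x
    rw [dif_pos x.2]
  rw [Finset.sum_congr rfl fun x _ => h3 x, Finset.sum_add_distrib, add_comm]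
  congr 1
  rw [Finset.sum_const, smul_eq_mul, mul_one, Finset.card_univ, Fintype.card_coe]

open Classical in
theorem U_succ {J : Finset E} (hJ : Up J) (m : ℕ) : U {x // x ∈ J} (m + 1) =
    ∑ I ∈ J.powerset.filter Up, X ^ I.card * U {x // x ∈ I} m := by
  unfold U
  rw [← Finset.sum_fiberwise_of_maps_to (g := fun σ => supp σ) (t := J.powerset.filter Up)]
  · refine Finset.sum_congr rfl fun I hI => ?_
    rw [mem_filter, mem_powerset] at hI
    obtain ⟨hIJ, hIu⟩ := hI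
    rw [Finset.mul_sum]
    symm
    refine Finset.sum_bij (fun τ _ => lift (J := J) τ) ?_ ?_ ?_ ?_
    · intro τ hτ
      rw [mem_filter] at hτ
      rw [mem_filter, mem_filter]
      exact ⟨⟨@Finset.mem_univ _ (_) _, lift_mono hIu hτ.2⟩,
        supp_lift hIJ τ⟩
    · intro τ _ τ' _ h
      funext x
      have h1 := congrFun h ⟨x, hIJ x.2⟩
      rw [lift_mem τ (x := ⟨x, hIJ x.2⟩) x.2, lift_mem τ' (x := ⟨x, hIJ x.2⟩) x.2] at h1
      exact Fin.succ_injective _ h1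
    · intro σ hσ
      rw [mem_filter, mem_filter] at hσ
      obtain ⟨⟨-, hm⟩, hs⟩ := hσ
      have hne : ∀ x : {x // x ∈ I}, σ ⟨x, hIJ x.2⟩ ≠ 0 := by
        intro x
        have h1 : (x : E) ∈ supp σ := by rw [hs]; exact x.2
        obtain ⟨h, h2⟩ := mem_supp.mp h1
        exact h2
      refine ⟨fun x => (σ ⟨x, hIJ x.2⟩).pred (hne x), ?_, ?_⟩
      · rw [mem_filter]
        refine ⟨@Finset.mem_univ _ (_) _, ?_⟩
        intro x y hxy
        exact Fin.pred_le_pred_iff.mpr (hm (show (⟨(x : E), hIJ x.2⟩ : {x // x ∈ J}) ≤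
          ⟨(y : E), hIJ y.2⟩ from hxy))
      · funext x
        by_cases hx : (x : E) ∈ I
        · rw [lift_mem _ hx]
          exact Fin.succ_pred _ _
        · rw [lift_not_mem _ hx]
          by_contra h0
          refine hx ?_
          rw [← hs]
          exact mem_supp.mpr ⟨x.2, fun h => h0 h.symm⟩
    · intro τ _
      rw [lift_sum hIJ, pow_add]
  · intro σ hσ
    rw [mem_filter] at hσ
    rw [mem_filter, mem_powerset]
    exact ⟨supp_sub σ, supp_up hJ hσ.2⟩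

lemma U_zero_eq (P : Type u) [Fintype P] [PartialOrder P] : U P 0 = 1 := by
  classical
  unfold U
  rw [Finset.sum_eq_single (fun _ => 0)]
  · have : (∑ x : P, (((fun _ => 0 : P → Fin (0 + 1)) x : Fin (0 + 1)) : ℕ)) = 0 :=
      Finset.sum_eq_zero fun x _ => rfl
    rw [this, pow_zero]
  · intro σ _ h
    refine absurd ?_ h
    funext x
    have := (σ x).2
    exact Fin.ext (by rw [Fin.val_zero]; omega)
  · intro h
    refine absurd ?_ h
    rw [mem_filter]
    exact ⟨@Finset.mem_univ _ (_) _, fun _ _ _ => le_rfl⟩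

/-- the values of an up-set -/
theorem U_eq_V {J : Finset E} (hJ : Up J) (m : ℕ) : U {x // x ∈ J} m = V m J := by
  classical
  induction m generalizing J with
  | zero => rw [U_zero_eq, V_zero]
  | succ m ih =>
    rw [U_succ hJ, V_succ]
    refine Finset.sum_congr rfl fun I hI => ?_
    rw [mem_filter] at hI
    rw [ih hI.2]

end Pool.Agent.GaussPoset.Cl
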