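import Pool.Agent.W_448fs_h5.FsD
import Pool.Agent.W_448fw_h5.FwD

/-!
The order of the window polynomial from finitely many values.
-/

namespace Pool.Agent.GaussPoset.Cl

set_option linter.unusedSectionVars false

open Polynomial Finset

universe u

variable {Q : Type u} [Fintype Q] [PartialOrder Q] [DecidableEq Q]
variable {K : Type*} [Field K] {ψ : PowerSeries ℤ →+* K}

/-- the polynomial with the values `U_m` at `q ^ (m + 1)` -/
noncomputable def ff (Q : Type u) [Fintype Q] [PartialOrder Q] [DecidableEq Q]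
    (ψ : PowerSeries ℤ →+* K) : K[X] := ((W Q 0).map ψ).comp (-X)

lemma ff_eval_neg (y : K) : (ff Q ψ).eval y = ((W Q 0).map ψ).eval (-y) := by
  unfold ff
  rw [eval_comp, eval_neg, eval_X]

lemma ff_eval (m : ℕ) : (ff Q ψ).eval ((ψ PowerSeries.X) ^ (m + 1)) =
    ψ ((U Q m : ℤ[X]) : PowerSeries ℤ) := by
  rw [ff_eval_neg]
  have h1 := W_eval (P := Q) 0 m
  rw [Nat.zero_add, Nat.zero_mul, pow_zero, one_mul] at h1
  rw [← h1, ← map_pow, ← map_neg, eval_map, eval₂_hom]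

lemma ff_natDegree : (ff Q ψ).natDegree ≤ Fintype.card Q := by
  have h1 : (W Q 0).natDegree ≤ Fintype.card Q := by
    unfold W
    refine natDegree_sum_le_of_forall_le _ _ fun F _ => ?_
    exact (natDegree_C_mul_X_pow_le _ _).trans (Finset.card_le_univ F)
  unfold ff
  refine (natDegree_comp_le).trans ?_
  rw [natDegree_neg, natDegree_X, Nat.mul_one]
  exact (natDegree_map_le).trans h1

lemma W_rel (i : ℕ) (y : K) : ((W Q i).map ψ).eval (-((ψ PowerSeries.X) ^ i * y)) =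
    (ψ PowerSeries.X) ^ (i * Fintype.card Q) * (ff Q ψ).eval y := by
  rw [ff_eval_neg]
  unfold W
  rw [Polynomial.map_sum, Polynomial.map_sum, eval_finsetSum, eval_finsetSum, Finset.mul_sum]
  refine Finset.sum_congr rfl fun F _ => ?_
  rw [Polynomial.map_mul, Polynomial.map_mul, Polynomial.map_pow, Polynomial.map_C,
    Polynomial.map_C, Polynomial.map_X, eval_mul, eval_mul, eval_C, eval_C, eval_pow, eval_pow,
    eval_X, eval_X, map_mul, map_mul, map_pow, map_pow, Nat.zero_mul, pow_zero, one_mul]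
  have hF : F.card ≤ Fintype.card Q := Finset.card_le_univ F
  have h1 : i * Fintype.card Q = i * (Fintype.card Q - F.card) + i * F.card := by
    rw [← Nat.mul_add, Nat.sub_add_cancel hF]
  rw [h1, pow_add, neg_pow, neg_pow y, mul_pow, ← pow_mul]
  ring

lemma ff_zero (hq : ψ PowerSeries.X ≠ 0) {i : ℕ} (hx : ∃ x : Q, i ≤ lev x) :
    (ff Q ψ).eval ((ψ PowerSeries.X) ^ i)⁻¹ = 0 := by
  have h1 := W_rel (Q := Q) (ψ := ψ) i ((ψ PowerSeries.X) ^ i)⁻¹
  rw [mul_inv_cancel₀ (pow_ne_zero _ hq)] at h1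
  obtain ⟨g, hg⟩ := dvd_W_one hx
  rw [hg, Polynomial.map_mul, eval_mul, Polynomial.map_add, Polynomial.map_one,
    Polynomial.map_X, eval_add, eval_one, eval_X, add_neg_cancel, zero_mul] at h1
  exact (mul_eq_zero.mp h1.symm).resolve_left (pow_ne_zero _ hq)

/-- from the order of `ff` to the order of `W` -/
theorem dvd_W_of_ff (hψ : Function.Injective ψ) {i k : ℕ}
    (h : (X - C ((ψ PowerSeries.X) ^ i)⁻¹) ^ k ∣ ff Q ψ) :
    (1 + X : Polynomial (PowerSeries ℤ)) ^ k ∣ W Q i := by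
  have hq : ψ PowerSeries.X ≠ 0 := by
    intro h0
    rw [← map_zero ψ] at h0
    exact PowerSeries.X_ne_zero (hψ h0)
  refine Fs.dvd_W_of_eval ψ hψ ((ff Q ψ).comp (C ((ψ PowerSeries.X) ^ i)⁻¹ * X)) ?_ one_ne_zero
    (fun m => ?_)
  · obtain ⟨g, hg⟩ := h
    rw [hg, mul_comp, pow_comp, sub_comp, X_comp, C_comp]
    have h1 : C ((ψ PowerSeries.X) ^ i)⁻¹ * X - C ((ψ PowerSeries.X) ^ i)⁻¹ =
        (1 - X) * -C ((ψ PowerSeries.X) ^ i)⁻¹ := by ring
    rw [h1, mul_pow]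
    exact (Dvd.intro _ rfl).mul_right _
  · rw [one_mul, eval_comp, eval_mul, eval_C, eval_X, ← ff_eval]
    congr 1
    rw [Nat.add_assoc, pow_add _ i (m + 1), ← mul_assoc, inv_mul_cancel₀ (pow_ne_zero _ hq),
      one_mul]

section Crit

variable {ℓ M i0 : ℕ}

/-- the factor of `f` from the levels -/
noncomputable def lf (ψ : PowerSeries ℤ →+* K) (ℓ : ℕ) : K[X] :=
  ∏ i ∈ range ℓ, (X - C ((ψ PowerSeries.X) ^ i)⁻¹)

lemma qpow_inj (hψ : Function.Injective ψ) : Function.Injective (fun m : ℕ =>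
    (ψ PowerSeries.X) ^ m) := by
  intro a b hab
  simp only [← map_pow] at hab
  have := congrArg PowerSeries.order (hψ hab)
  rw [PowerSeries.order_X_pow, PowerSeries.order_X_pow] at this
  exact_mod_cast this

lemma lf_dvd (hψ : Function.Injective ψ) (hq : ψ PowerSeries.X ≠ 0)
    (hx : ∀ i < ℓ, ∃ x : Q, i ≤ lev x) : lf ψ ℓ ∣ ff Q ψ := by
  unfold lf
  refine Finset.prod_dvd_of_coprime ?_ ?_
  · intro i _ k _ hik
    refine (Polynomial.pairwise_coprime_X_sub_C (K := K)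
      (s := fun i : ℕ => ((ψ PowerSeries.X) ^ i)⁻¹) ?_) hik
    intro a b hab
    exact qpow_inj hψ (inv_injective hab)
  · intro i hi
    rw [mem_range] at hi
    rw [dvd_iff_isRoot]
    exact ff_zero hq (hx i hi)

lemma lf_natDegree : (lf ψ ℓ).natDegree = ℓ := by
  unfold lf
  rw [natDegree_prod_of_monic _ _ fun i _ => monic_X_sub_C _]
  simp

lemma lf_monic : (lf ψ ℓ).Monic := by
  unfold lf
  exact monic_prod_of_monic _ _ fun i _ => monic_X_sub_C _

/-- from integer polynomials to the field -/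
noncomputable def φ (ψ : PowerSeries ℤ →+* K) : ℤ[X] →+* K :=
  ψ.comp (Polynomial.coeToPowerSeries.ringHom (R := ℤ))

lemma φ_apply (p : ℤ[X]) : φ ψ p = ψ ((p : ℤ[X]) : PowerSeries ℤ) := rfl

lemma φ_X : φ ψ X = ψ PowerSeries.X := by
  rw [φ_apply, Polynomial.coe_X]

lemma pow_ne_one' (hψ : Function.Injective ψ) {a : ℕ} (ha : 1 ≤ a) :
    (ψ PowerSeries.X) ^ a ≠ 1 := by
  intro h
  rw [← pow_zero (ψ PowerSeries.X)] at h
  have := qpow_inj hψ h
  omega

lemma φ_fac_ne (hψ : Function.Injective ψ) {a : ℕ} (ha : 1 ≤ a) :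
    φ ψ (X ^ a - 1) ≠ 0 := by
  rw [map_sub, map_pow, map_one, φ_X, sub_ne_zero]
  exact pow_ne_one' hψ ha

/-- a root from an interpolation sum with a common multiple `Z` of the denominators -/
lemma root_of_sum (hψ : Function.Injective ψ) {S : K[X]} (hS : S.natDegree ≤ M) {c : K}
    {u en E : ℕ → ℤ[X]} {Z : ℤ[X]} (hZ : φ ψ Z ≠ 0) (hev : ∀ m, S.eval ((ψ PowerSeries.X) ^ (m + 1)) =
      c * (φ ψ (u m) / φ ψ (en m)))
    (hE : ∀ m ≤ M, en m * (1 - X ^ (m + 1 + i0)) *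
      (∏ m' ∈ (range (M + 1)).erase m, (X ^ (m + 1) - X ^ (m' + 1))) * E m = Z)
    (hsum : ∑ m ∈ range (M + 1), u m * E m = 0) :
    S.eval ((ψ PowerSeries.X) ^ i0)⁻¹ = 0 := by
  classical
  set q : K := ψ PowerSeries.X with hqdef
  have hq : q ≠ 0 := by
    intro h0
    rw [hqdef, ← map_zero ψ] at h0
    exact PowerSeries.X_ne_zero (hψ h0)
  set a : K := (q ^ i0)⁻¹ with hadef
  have hnode : ∀ m : ℕ, a ≠ q ^ (m + 1) := by
    intro m h
    have h1 : q ^ (i0 + (m + 1)) = 1 := by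
      rw [pow_add, ← h, hadef, mul_inv_cancel₀ (pow_ne_zero _ hq)]
    exact pow_ne_one' hψ (by omega) h1
  have hinj : Set.InjOn (fun m : ℕ => q ^ (m + 1)) (range (M + 1) : Finset ℕ) := by
    intro x _ y _ h
    have := qpow_inj hψ h
    omega
  have hlt : S.degree < (range (M + 1)).card := by
    rw [card_range]
    exact lt_of_le_of_lt degree_le_natDegree (by exact_mod_cast Nat.lt_succ_of_le hS)
  rw [Lagrange.eq_interpolate hinj hlt, Lagrange.eval_interpolate_not_at_node _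
    (fun m _ => hnode m)]
  have hterm : ∀ m ∈ range (M + 1), Lagrange.nodalWeight (range (M + 1))
      (fun m : ℕ => q ^ (m + 1)) m * (a - q ^ (m + 1))⁻¹ * S.eval (q ^ (m + 1)) =
      (q ^ i0 * c * (φ ψ Z)⁻¹) * φ ψ (u m * E m) := by
    intro m hm
    have hm' := mem_range.mp hm
    have h6 : (a - q ^ (m + 1))⁻¹ = q ^ i0 * (φ ψ (1 - X ^ (m + 1 + i0)))⁻¹ := by
      rw [map_sub, map_pow, map_one, φ_X, ← hqdef]
      have h7 : a - q ^ (m + 1) = (q ^ i0)⁻¹ * (1 - q ^ (m + 1 + i0)) := by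
        rw [mul_sub, mul_one, Nat.add_comm (m + 1) i0, pow_add q i0 (m + 1), ← mul_assoc,
          inv_mul_cancel₀ (pow_ne_zero _ hq), one_mul]
      rw [h7, mul_inv, inv_inv]
    have h8 : Lagrange.nodalWeight (range (M + 1)) (fun m : ℕ => q ^ (m + 1)) m =
        (φ ψ (∏ m' ∈ (range (M + 1)).erase m, (X ^ (m + 1) - X ^ (m' + 1))))⁻¹ := by
      unfold Lagrange.nodalWeight
      rw [map_prod, ← Finset.prod_inv_distrib]
      refine Finset.prod_congr rfl fun k _ => ?_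
      rw [map_sub, map_pow, map_pow, φ_X]
    have h9 := hE m (by omega)
    rw [← h9] at hZ
    rw [hev m, h6, h8, ← h9]
    rw [map_mul, map_mul, map_mul] at hZ
    obtain ⟨⟨⟨g1, g2⟩, g3⟩, g4⟩ : ((φ ψ (en m) ≠ 0 ∧ φ ψ (1 - X ^ (m + 1 + i0)) ≠ 0) ∧
        φ ψ (∏ m' ∈ (range (M + 1)).erase m, (X ^ (m + 1) - X ^ (m' + 1))) ≠ 0) ∧
        φ ψ (E m) ≠ 0 := by
      obtain ⟨k1, k2⟩ := mul_ne_zero_iff.mp hZ
      obtain ⟨k3, k4⟩ := mul_ne_zero_iff.mp k1
      obtain ⟨k5, k6⟩ := mul_ne_zero_iff.mp k3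
      exact ⟨⟨⟨k5, k6⟩, k4⟩, k2⟩
    rw [map_mul (φ ψ) (en m * (1 - X ^ (m + 1 + i0)) *
      ∏ m' ∈ (range (M + 1)).erase m, (X ^ (m + 1) - X ^ (m' + 1))) (E m),
      map_mul (φ ψ) (en m * (1 - X ^ (m + 1 + i0))), map_mul (φ ψ) (en m), map_mul (φ ψ) (u m)]
    field_simp
  rw [Finset.sum_congr rfl hterm, ← Finset.mul_sum, ← map_sum, hsum, map_zero, mul_zero,
    mul_zero]

lemma lf_eval (hψ : Function.Injective ψ) (m : ℕ) :
    (lf ψ ℓ).eval ((ψ PowerSeries.X) ^ (m + 1)) * ∏ i ∈ range ℓ, (ψ PowerSeries.X) ^ i =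
      φ ψ (∏ i ∈ range ℓ, (X ^ (m + 1 + i) - 1)) := by
  have hq : ψ PowerSeries.X ≠ 0 := by
    intro h0
    rw [← map_zero ψ] at h0
    exact PowerSeries.X_ne_zero (hψ h0)
  unfold lf
  rw [eval_prod, ← Finset.prod_mul_distrib, map_prod]
  refine Finset.prod_congr rfl fun i _ => ?_
  rw [eval_sub, eval_X, eval_C, map_sub, map_pow, map_one, φ_X, sub_mul,
    ← pow_add, inv_mul_cancel₀ (pow_ne_zero _ hq)]

lemma R_eval (hψ : Function.Injective ψ) {R : K[X]} (hR : ff Q ψ = lf ψ ℓ * R) (m : ℕ) :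
    R.eval ((ψ PowerSeries.X) ^ (m + 1)) = (∏ i ∈ range ℓ, (ψ PowerSeries.X) ^ i) *
      (φ ψ (U Q m) / φ ψ (∏ i ∈ range ℓ, (X ^ (m + 1 + i) - 1))) := by
  have h1 := ff_eval (Q := Q) (ψ := ψ) m
  rw [hR, eval_mul] at h1
  have h2 := lf_eval (ℓ := ℓ) hψ m
  have h3 : φ ψ (∏ i ∈ range ℓ, (X ^ (m + 1 + i) - 1)) ≠ 0 := by
    rw [map_prod]
    exact Finset.prod_ne_zero_iff.mpr fun i _ => φ_fac_ne hψ (by omega)
  rw [← mul_div_assoc, eq_div_iff h3, ← h2, φ_apply, ← h1]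
  ring

lemma lf_deg {R : K[X]} (hR : ff Q ψ = lf ψ ℓ * R) (hc : Fintype.card Q ≤ ℓ + M) :
    R.natDegree ≤ M := by
  by_cases hR0 : R = 0
  · rw [hR0, natDegree_zero]; exact Nat.zero_le _
  have h1 := ff_natDegree (Q := Q) (ψ := ψ)
  rw [hR, lf_monic.natDegree_mul' hR0, lf_natDegree] at h1
  omega

/-! ### the cofactors -/

/-- `0 + 1 + ... + (n - 1)` -/
def tri : ℕ → ℕ
  | 0 => 0
  | n + 1 => tri n + n

lemma tri_add (a b : ℕ) : tri (a + b) = tri a + tri b + a * b := by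
  induction b with
  | zero => simp [tri]
  | succ b ih =>
    rw [← Nat.add_assoc, tri, ih, tri]
    ring

/-- the cofactor of the denominator, up to sign -/
noncomputable def Eo (ℓ M i0 e m : ℕ) : ℤ[X] :=
  X ^ tri (M - m) * (∏ k ∈ range (M - m), (X ^ (m + ℓ + 1 + k) - 1)) *
    (∏ k ∈ range m, (X ^ (M - m + 1 + k) - 1)) *
    ((∏ k ∈ range m, (X ^ (k + 1 + i0) - 1)) *
      ∏ k ∈ range (M - m), (X ^ (m + 1 + (k + 1) + i0) - 1)) ^ e

/-- the common multiple of the denominators, up to sign -/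
noncomputable def Zo (ℓ M i0 e : ℕ) : ℤ[X] :=
  X ^ tri (M + 1) * (∏ k ∈ range (ℓ + M), (X ^ (k + 1) - 1)) *
    (∏ k ∈ range M, (X ^ (k + 1) - 1)) * (∏ k ∈ range (M + 1), (X ^ (k + 1 + i0) - 1)) ^ e

lemma φ_Zo_ne (hψ : Function.Injective ψ) {e : ℕ} : φ ψ (Zo ℓ M i0 e) ≠ 0 := by
  unfold Zo
  rw [map_mul, map_mul, map_mul, map_pow, map_pow, φ_X, map_prod, map_prod, map_prod]
  refine mul_ne_zero (mul_ne_zero (mul_ne_zero (pow_ne_zero _ ?_) ?_) ?_) (pow_ne_zero _ ?_)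
  · intro h0
    rw [← map_zero ψ] at h0
    exact PowerSeries.X_ne_zero (hψ h0)
  · exact Finset.prod_ne_zero_iff.mpr fun i _ => φ_fac_ne hψ (by omega)
  · exact Finset.prod_ne_zero_iff.mpr fun i _ => φ_fac_ne hψ (by omega)
  · exact Finset.prod_ne_zero_iff.mpr fun i _ => φ_fac_ne hψ (by omega)

lemma prod_erase_split (m M : ℕ) (hm : m ≤ M) (g : ℕ → ℤ[X]) :
    ∏ k ∈ (range (M + 1)).erase m, g k = (∏ k ∈ range m, g k) *
      ∏ k ∈ range (M - m), g (m + (k + 1)) := by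
  have h1 : ∏ k ∈ (range (M + 1)).erase m, g k =
      ∏ k ∈ range (M + 1), (if k = m then 1 else g k) := by
    rw [← Finset.prod_erase (range (M + 1)) (a := m) (f := fun k => if k = m then 1 else g k)
      (by simp)]
    refine Finset.prod_congr rfl fun k hk => ?_
    rw [if_neg (mem_erase.mp hk).1]
  rw [h1]
  obtain ⟨d, rfl⟩ := Nat.exists_eq_add_of_le hm
  rw [Nat.add_assoc, Finset.prod_range_add, Nat.add_sub_cancel_left, Finset.prod_range_succ',
    Nat.add_zero, if_pos rfl, mul_one]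
  congr 1
  · refine Finset.prod_congr rfl fun k hk => ?_
    rw [mem_range] at hk
    rw [if_neg (by omega)]
  · refine Finset.prod_congr rfl fun k _ => ?_
    rw [if_neg (by omega)]

lemma prod_low (m : ℕ) : ∏ k ∈ range m, ((X : ℤ[X]) ^ (m + 1) - X ^ (k + 1)) =
    X ^ tri (m + 1) * ∏ k ∈ range m, (X ^ (k + 1) - 1) := by
  have h1 : ∀ n, n ≤ m → ∏ k ∈ range n, ((X : ℤ[X]) ^ (m + 1) - X ^ (k + 1)) =
      X ^ tri (n + 1) * ∏ k ∈ range n, (X ^ (m - k) - 1) := by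
    intro n hn
    induction n with
    | zero => simp [tri]
    | succ n ih =>
      have h2 : (X : ℤ[X]) ^ (m + 1) = X ^ (n + 1) * X ^ (m - n) := by
        rw [← pow_add]
        congr 1
        omega
      have h3 : (X : ℤ[X]) ^ tri (n + 1 + 1) = X ^ tri (n + 1) * X ^ (n + 1) := by
        rw [← pow_add]
        rfl
      rw [Finset.prod_range_succ, Finset.prod_range_succ, ih (by omega), h2, h3]
      ring
  rw [h1 m le_rfl]
  congr 1
  rw [← Finset.prod_range_reflect]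
  refine Finset.prod_congr rfl fun k hk => ?_
  rw [mem_range] at hk
  rw [show m - (m - 1 - k) = k + 1 by omega]

lemma prod_high (m d : ℕ) : ∏ k ∈ range d, ((X : ℤ[X]) ^ (m + 1) - X ^ (m + (k + 1) + 1)) =
    (-1) ^ d * X ^ ((m + 1) * d) * ∏ k ∈ range d, (X ^ (k + 1) - 1) := by
  induction d with
  | zero => simp
  | succ d ih =>
    have h2 : (X : ℤ[X]) ^ (m + (d + 1) + 1) = X ^ (m + 1) * X ^ (d + 1) := by
      rw [← pow_add]
      congr 1
      omega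
    have h3 : (X : ℤ[X]) ^ ((m + 1) * (d + 1)) = X ^ ((m + 1) * d) * X ^ (m + 1) := by
      rw [← pow_add, Nat.mul_succ]
    rw [Finset.prod_range_succ, Finset.prod_range_succ, ih, h2, h3, pow_succ (-1 : ℤ[X]) d]
    ring

lemma fac_merge (a b : ℕ) (s : ℕ) : (∏ k ∈ range a, ((X : ℤ[X]) ^ (s + k) - 1)) *
    ∏ k ∈ range b, (X ^ (s + a + k) - 1) = ∏ k ∈ range (a + b), (X ^ (s + k) - 1) := by
  rw [Finset.prod_range_add]
  congr 1
  refine Finset.prod_congr rfl fun k _ => ?_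
  rw [Nat.add_assoc]

/-- the denominator divides the common multiple -/
theorem den_mul_Eo {m : ℕ} (hm : m ≤ M) (e : ℕ) :
    (∏ i ∈ range ℓ, ((X : ℤ[X]) ^ (m + 1 + i) - 1)) * (X ^ (m + 1 + i0) - 1) ^ e *
      (∏ m' ∈ (range (M + 1)).erase m, (X ^ (m + 1) - X ^ (m' + 1))) *
      ((-1) ^ m * Eo ℓ M i0 e m) = (-1) ^ M * Zo ℓ M i0 e := by
  rw [prod_erase_split m M hm]
  have h1 : ∏ k ∈ range (M - m), ((X : ℤ[X]) ^ (m + 1) - X ^ (m + (k + 1) + 1)) = _ :=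
    prod_high m (M - m)
  rw [prod_low, h1]
  unfold Eo Zo
  have e1 : tri (M + 1) = tri (m + 1) + tri (M - m) + (m + 1) * (M - m) := by
    rw [← tri_add]
    congr 1
    omega
  have e2 : (∏ k ∈ range m, ((X : ℤ[X]) ^ (k + 1) - 1)) *
      ((∏ i ∈ range ℓ, ((X : ℤ[X]) ^ (m + 1 + i) - 1)) *
        ∏ k ∈ range (M - m), (X ^ (m + ℓ + 1 + k) - 1)) =
      ∏ k ∈ range (ℓ + M), (X ^ (k + 1) - 1) := by
    have g1 := fac_merge ℓ (M - m) (m + 1)
    rw [show m + ℓ + 1 = m + 1 + ℓ by omega, g1]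
    have g2 := fac_merge m (ℓ + (M - m)) 1
    rw [show m + (ℓ + (M - m)) = ℓ + M by omega, show 1 + m = m + 1 by omega] at g2
    have g3 : ∀ n, ∏ k ∈ range n, ((X : ℤ[X]) ^ (1 + k) - 1) =
        ∏ k ∈ range n, (X ^ (k + 1) - 1) := fun n => by
      refine Finset.prod_congr rfl fun k _ => ?_
      rw [Nat.add_comm 1 k]
    rw [g3, g3] at g2
    exact g2
  have e3 : (∏ k ∈ range (M - m), ((X : ℤ[X]) ^ (k + 1) - 1)) *
      ∏ k ∈ range m, (X ^ (M - m + 1 + k) - 1) = ∏ k ∈ range M, (X ^ (k + 1) - 1) := by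
    have g2 := fac_merge (M - m) m 1
    have g3 : ∀ n, ∏ k ∈ range n, ((X : ℤ[X]) ^ (1 + k) - 1) =
        ∏ k ∈ range n, (X ^ (k + 1) - 1) := fun n => by
      refine Finset.prod_congr rfl fun k _ => ?_
      rw [Nat.add_comm 1 k]
    rw [g3, g3, show M - m + m = M by omega, show 1 + (M - m) = M - m + 1 by omega] at g2
    exact g2
  have e4 : (X ^ (m + 1 + i0) - 1 : ℤ[X]) * ((∏ k ∈ range m, (X ^ (k + 1 + i0) - 1)) *
      ∏ k ∈ range (M - m), (X ^ (m + 1 + (k + 1) + i0) - 1)) =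
      ∏ k ∈ range (M + 1), (X ^ (k + 1 + i0) - 1) := by
    obtain ⟨d, rfl⟩ := Nat.exists_eq_add_of_le hm
    rw [show m + d + 1 = m + (d + 1) by omega, Finset.prod_range_add, Nat.add_sub_cancel_left,
      Finset.prod_range_succ' _ d, Nat.add_zero]
    have g1 : ∏ k ∈ range d, ((X : ℤ[X]) ^ (m + 1 + (k + 1) + i0) - 1) =
        ∏ k ∈ range d, (X ^ (m + (k + 1) + 1 + i0) - 1) := by
      refine Finset.prod_congr rfl fun k _ => ?_
      rw [show m + 1 + (k + 1) + i0 = m + (k + 1) + 1 + i0 by omega]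
    rw [g1]
    ring
  have e5 : (-1 : ℤ[X]) ^ (M - m) * (-1) ^ m = (-1) ^ M := by
    rw [← pow_add, Nat.sub_add_cancel hm]
  have e6 : (X ^ (m + 1 + i0) - 1 : ℤ[X]) ^ e * ((∏ k ∈ range m, (X ^ (k + 1 + i0) - 1)) *
      ∏ k ∈ range (M - m), (X ^ (m + 1 + (k + 1) + i0) - 1)) ^ e =
      (∏ k ∈ range (M + 1), (X ^ (k + 1 + i0) - 1)) ^ e := by
    rw [← mul_pow, e4]
  rw [e1, ← e2, ← e3, ← e6, ← e5, pow_add, pow_add]
  ring

/-- **Criterion.**  A second zero at the level `i0`. -/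
theorem dvd_of_poly (hx : ∀ i < ℓ, ∃ x : Q, i ≤ lev x)
    (hc : Fintype.card Q ≤ ℓ + M) (hi0 : i0 < ℓ)
    (hsum : ∑ m ∈ range (M + 1), (-1) ^ m * (U Q m * Eo ℓ M i0 1 m) = 0) :
    (1 + X : Polynomial (PowerSeries ℤ)) ^ 2 ∣ W Q i0 := by
  classical
  have hψ : Function.Injective (algebraMap (PowerSeries ℤ) (FractionRing (PowerSeries ℤ))) :=
    IsFractionRing.injective _ _
  set ψ : PowerSeries ℤ →+* FractionRing (PowerSeries ℤ) := algebraMap _ _ with hψdef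
  have hq : ψ PowerSeries.X ≠ 0 := by
    intro h0
    rw [← map_zero ψ] at h0
    exact PowerSeries.X_ne_zero (hψ h0)
  refine dvd_W_of_ff hψ ?_
  obtain ⟨R, hR⟩ := lf_dvd (ψ := ψ) (Q := Q) hψ hq hx
  have hroot : R.eval ((ψ PowerSeries.X) ^ i0)⁻¹ = 0 := by
    refine root_of_sum (M := M) (E := fun m => (-1) ^ m * Eo ℓ M i0 1 m)
      (Z := -((-1) ^ M * Zo ℓ M i0 1)) hψ (lf_deg hR hc) ?_ (R_eval hψ hR) ?_ ?_
    · rw [map_neg, neg_ne_zero, map_mul]
      refine mul_ne_zero ?_ (φ_Zo_ne hψ)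
      rw [map_pow, map_neg, map_one]
      exact pow_ne_zero _ (neg_ne_zero.mpr one_ne_zero)
    · intro m hm
      rw [← den_mul_Eo hm 1, pow_one]
      ring
    · rw [← hsum]
      refine Finset.sum_congr rfl fun m _ => ?_
      ring
  have h1 : (X - C ((ψ PowerSeries.X) ^ i0)⁻¹) ∣ lf ψ ℓ := by
    unfold lf
    exact Finset.dvd_prod_of_mem _ (mem_range.mpr hi0)
  rw [hR, pow_two]
  exact mul_dvd_mul h1 (dvd_iff_isRoot.mpr hroot)

/-- **Criterion.**  A third zero at the level `i0`. -/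
theorem dvd3_of_poly (hx : ∀ i < ℓ, ∃ x : Q, i ≤ lev x)
    (hc : Fintype.card Q ≤ ℓ + (M + 1)) (hi0 : i0 < ℓ)
    (hsum : ∑ m ∈ range (M + 1 + 1), (-1) ^ m * (U Q m * Eo ℓ (M + 1) i0 1 m) = 0)
    (hsum3 : ∑ m ∈ range (M + 1), (-1) ^ m * (U Q m * Eo ℓ M i0 2 m) = 0) :
    (1 + X : Polynomial (PowerSeries ℤ)) ^ 3 ∣ W Q i0 := by
  classical
  have hψ : Function.Injective (algebraMap (PowerSeries ℤ) (FractionRing (PowerSeries ℤ))) :=
    IsFractionRing.injective _ _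
  set ψ : PowerSeries ℤ →+* FractionRing (PowerSeries ℤ) := algebraMap _ _ with hψdef
  have hq : ψ PowerSeries.X ≠ 0 := by
    intro h0
    rw [← map_zero ψ] at h0
    exact PowerSeries.X_ne_zero (hψ h0)
  refine dvd_W_of_ff hψ ?_
  obtain ⟨R, hR⟩ := lf_dvd (ψ := ψ) (Q := Q) hψ hq hx
  have hRdeg := lf_deg hR hc
  have hsig : ∀ N : ℕ, φ ψ ((-1) ^ N) ≠ 0 := by
    intro N
    rw [map_pow, map_neg, map_one]
    exact pow_ne_zero _ (neg_ne_zero.mpr one_ne_zero)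
  set q : FractionRing (PowerSeries ℤ) := ψ PowerSeries.X with hqdef
  set a : FractionRing (PowerSeries ℤ) := (q ^ i0)⁻¹ with hadef
  have hroot : R.eval a = 0 := by
    refine root_of_sum (M := M + 1) (E := fun m => (-1) ^ m * Eo ℓ (M + 1) i0 1 m)
      (Z := -((-1) ^ (M + 1) * Zo ℓ (M + 1) i0 1)) hψ hRdeg ?_ (R_eval hψ hR) ?_ ?_
    · rw [map_neg, neg_ne_zero, map_mul]
      exact mul_ne_zero (hsig _) (φ_Zo_ne hψ)
    · intro m hm
      rw [← den_mul_Eo hm 1, pow_one]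
      ring
    · rw [← hsum]
      refine Finset.sum_congr rfl fun m _ => ?_
      ring
  obtain ⟨R', hR'⟩ := dvd_iff_isRoot.mpr hroot
  have hRdeg' : R'.natDegree ≤ M := by
    by_cases hR0 : R' = 0
    · rw [hR0, natDegree_zero]; exact Nat.zero_le _
    rw [hR', (monic_X_sub_C a).natDegree_mul' hR0, natDegree_X_sub_C] at hRdeg
    omega
  have hRe' : ∀ m, R'.eval (q ^ (m + 1)) = (-q ^ i0 * ∏ i ∈ range ℓ, q ^ i) *
      (φ ψ (U Q m) / φ ψ ((∏ i ∈ range ℓ, (X ^ (m + 1 + i) - 1)) *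
        (1 - X ^ (m + 1 + i0)))) := by
    intro m
    have h1 := R_eval hψ hR m
    rw [hR', eval_mul, eval_sub, eval_X, eval_C, ← hqdef] at h1
    have h7 : q ^ (m + 1) - a = -(q ^ i0)⁻¹ * φ ψ (1 - X ^ (m + 1 + i0)) := by
      rw [map_sub, map_pow, map_one, φ_X, ← hqdef, neg_mul, mul_sub, mul_one,
        Nat.add_comm (m + 1) i0, pow_add q i0 (m + 1), ← mul_assoc,
        inv_mul_cancel₀ (pow_ne_zero _ hq), one_mul, neg_sub]
    have h8 : φ ψ (1 - X ^ (m + 1 + i0)) ≠ 0 := by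
      rw [← neg_ne_zero, ← map_neg, neg_sub]
      exact φ_fac_ne hψ (by omega)
    have h9 : q ^ i0 ≠ 0 := pow_ne_zero _ hq
    have h10 : R'.eval (q ^ (m + 1)) = (-q ^ i0) * (φ ψ (1 - X ^ (m + 1 + i0)))⁻¹ *
        ((q ^ (m + 1) - a) * R'.eval (q ^ (m + 1))) := by
      rw [h7]
      field_simp
    rw [h10, h1, map_mul, div_eq_mul_inv, div_eq_mul_inv, mul_inv]
    ring
  have hroot' : R'.eval a = 0 := by
    refine root_of_sum (M := M) (E := fun m => (-1) ^ m * Eo ℓ M i0 2 m)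
      (Z := (-1) ^ M * Zo ℓ M i0 2) hψ hRdeg' ?_ hRe' ?_ ?_
    · rw [map_mul]
      exact mul_ne_zero (hsig _) (φ_Zo_ne hψ)
    · intro m hm
      rw [← den_mul_Eo hm 2]
      ring
    · rw [← hsum3]
      refine Finset.sum_congr rfl fun m _ => ?_
      ring
  have h1 : (X - C a) ∣ lf ψ ℓ := by
    unfold lf
    exact Finset.dvd_prod_of_mem _ (mem_range.mpr hi0)
  rw [hR, hR', show (X - C a) ^ 3 = (X - C a) * ((X - C a) * (X - C a)) by ring]
  exact mul_dvd_mul h1 (mul_dvd_mul_left _ (dvd_iff_isRoot.mpr hroot'))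

end Crit

end Pool.Agent.GaussPoset.Cl
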