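import Mathlib

/-!
Polynomial identities by substitution of a large number.
-/

namespace Pool.Agent.GaussPoset.Cl

set_option linter.unusedSectionVars false

open Polynomial Finset

/-- the coefficients of `p` are dominated by those of `P` -/
def Dom (p : ℤ[X]) (P : ℕ[X]) : Prop := ∀ k, (p.coeff k).natAbs ≤ P.coeff k

lemma Dom.add {p q : ℤ[X]} {P Q : ℕ[X]} (h : Dom p P) (h' : Dom q Q) : Dom (p + q) (P + Q) := by
  intro k
  rw [coeff_add, coeff_add]
  exact (Int.natAbs_add_le _ _).trans (Nat.add_le_add (h k) (h' k))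

lemma Dom.neg {p : ℤ[X]} {P : ℕ[X]} (h : Dom p P) : Dom (-p) P := by
  intro k
  rw [coeff_neg, Int.natAbs_neg]
  exact h k

lemma Dom.sub {p q : ℤ[X]} {P Q : ℕ[X]} (h : Dom p P) (h' : Dom q Q) : Dom (p - q) (P + Q) := by
  rw [sub_eq_add_neg]
  exact h.add h'.neg

lemma Dom.zero : Dom 0 0 := fun k => by simp

lemma Dom.sum {ι : Type*} (s : Finset ι) {p : ι → ℤ[X]} {P : ι → ℕ[X]}
    (h : ∀ i ∈ s, Dom (p i) (P i)) : Dom (∑ i ∈ s, p i) (∑ i ∈ s, P i) := by
  classical
  induction s using Finset.induction_on with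
  | empty => simpa using Dom.zero
  | insert a s ha ih =>
    rw [Finset.sum_insert ha, Finset.sum_insert ha]
    exact (h a (mem_insert_self a s)).add (ih fun i hi => h i (mem_insert_of_mem hi))

lemma Dom.mul {p q : ℤ[X]} {P Q : ℕ[X]} (h : Dom p P) (h' : Dom q Q) : Dom (p * q) (P * Q) := by
  intro k
  rw [coeff_mul, coeff_mul]
  refine (Int.natAbs_sum_le _ _).trans (Finset.sum_le_sum fun x _ => ?_)
  rw [Int.natAbs_mul]
  exact Nat.mul_le_mul (h _) (h' _)

lemma Dom.X_pow (n : ℕ) : Dom (X ^ n) (X ^ n) := by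
  intro k
  rw [coeff_X_pow, coeff_X_pow]
  split_ifs <;> simp

lemma Dom.one : Dom 1 1 := by
  have := Dom.X_pow 0
  simpa using this

lemma Dom.prod {ι : Type*} (s : Finset ι) {p : ι → ℤ[X]} {P : ι → ℕ[X]}
    (h : ∀ i ∈ s, Dom (p i) (P i)) : Dom (∏ i ∈ s, p i) (∏ i ∈ s, P i) := by
  classical
  induction s using Finset.induction_on with
  | empty => simpa using Dom.one
  | insert a s ha ih =>
    rw [Finset.prod_insert ha, Finset.prod_insert ha]
    exact (h a (mem_insert_self a s)).mul (ih fun i hi => h i (mem_insert_of_mem hi))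

lemma Dom.cast (P : ℕ[X]) : Dom (P.map (Nat.castRingHom ℤ)) P := by
  intro k
  rw [coeff_map]
  simp

lemma coeff_le_eval_one (P : ℕ[X]) (k : ℕ) : P.coeff k ≤ P.eval 1 := by
  rw [eval_eq_sum, Polynomial.sum]
  simp only [one_pow, mul_one]
  by_cases hk : k ∈ P.support
  · exact Finset.single_le_sum (f := fun i => P.coeff i) (fun _ _ => Nat.zero_le _) hk
  · rw [notMem_support_iff.mp hk]
    exact Nat.zero_le _

/-- substitution of a large number -/
theorem eq_zero_of_eval {p : ℤ[X]} {P : ℕ[X]} (h : Dom p P) {B : ℕ} (hB : P.eval 1 < B)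
    (h0 : p.eval (B : ℤ) = 0) : p = 0 := by
  by_contra hne
  -- the lowest coefficient
  set k := p.natTrailingDegree with hk
  have hc : p.coeff k ≠ 0 := by
    have := trailingCoeff_nonzero_iff_nonzero.mpr hne
    rwa [trailingCoeff] at this
  obtain ⟨g, hg⟩ : X ^ k ∣ p := by
    rw [X_pow_dvd_iff]
    intro d hd
    exact coeff_eq_zero_of_lt_natTrailingDegree hd
  have hBpos : (B : ℤ) ≠ 0 := by
    have : 0 < B := by omega
    exact_mod_cast this.ne'
  have h1 : g.eval (B : ℤ) = 0 := by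
    rw [hg, eval_mul, eval_pow, eval_X] at h0
    exact (mul_eq_zero.mp h0).resolve_left (pow_ne_zero _ hBpos)
  have h2 : p.coeff k = g.coeff 0 := by
    rw [hg]
    have := coeff_X_pow_mul g k 0
    rwa [Nat.zero_add] at this
  have h3 : (B : ℤ) ∣ g.coeff 0 := by
    have h4 : (B : ℤ) - 0 ∣ g.eval (B : ℤ) - g.eval 0 := sub_dvd_eval_sub _ _ _
    rw [h1, sub_zero, zero_sub, dvd_neg, ← coeff_zero_eq_eval_zero] at h4
    exact h4
  have h5 : (g.coeff 0).natAbs < B := by
    rw [← h2]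
    exact ((h k).trans (coeff_le_eval_one P k)).trans_lt hB
  rw [h2] at hc
  have h6 := Int.natAbs_dvd_natAbs.mpr h3
  rw [Int.natAbs_natCast] at h6
  have h7 := Nat.le_of_dvd (Int.natAbs_pos.mpr hc) h6
  omega

end Pool.Agent.GaussPoset.Cl
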