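import Pool.Agent.W_448cl_h67.ClB
import Pool.Agent.W_448cl_h67.ClC

/-!
The evaluator.
-/

namespace Pool.Agent.GaussPoset.Cl

set_option linter.unusedSectionVars false

open Polynomial Finset

/-- number of bits below `n` -/
def pc : ℕ → ℕ → ℕ
  | 0, _ => 0
  | n + 1, m => pc n m + (if m.testBit n then 1 else 0)

section Spec

variable {R S : Type*} [CommSemiring R] [CommSemiring S]

/-- sum of the values of the subsets of `J` -/
def row (J : ℕ) : List (ℕ × R) → R
  | [] => 0
  | (I, v) :: l => match Nat.beq (Nat.land I J) I with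
    | true => v + row J l
    | false => row J l

/-- the states -/
def stR (n : ℕ) (b : R) (Us : List ℕ) : ℕ → List (ℕ × R)
  | 0 => Us.map (fun J => (J, if J = 0 then 1 else 0))
  | m + 1 => Us.map (fun J => (J, b ^ pc n J * row J (stR n b Us m)))

lemma row_map (f : R →+* S) (J : ℕ) (l : List (ℕ × R)) :
    f (row J l) = row J (l.map (fun x => (x.1, f x.2))) := by
  induction l with
  | nil => simp [row]
  | cons x l ih =>
    obtain ⟨I, v⟩ := x
    simp only [row, List.map_cons]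
    cases Nat.beq (Nat.land I J) I
    · exact ih
    · simp only [map_add, ih]

lemma stR_map (f : R →+* S) (n : ℕ) (b : R) (Us : List ℕ) (m : ℕ) :
    (stR n b Us m).map (fun x => (x.1, f x.2)) = stR n (f b) Us m := by
  induction m with
  | zero =>
    simp only [stR, List.map_map]
    refine List.map_congr_left fun J _ => ?_
    simp only [Function.comp_apply]
    split_ifs
    · rw [map_one]
    · rw [map_zero]
  | succ m ih =>
    simp only [stR, List.map_map]
    refine List.map_congr_left fun J _ => ?_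
    simp only [Function.comp_apply, map_mul, map_pow, row_map, ih]

/-- values -/
def uR (n : ℕ) (b : R) (Us : List ℕ) (J m : ℕ) : R := row J (stR n b Us m)

lemma uR_map (f : R →+* S) (n : ℕ) (b : R) (Us : List ℕ) (J m : ℕ) :
    f (uR n b Us J m) = uR n (f b) Us J m := by
  unfold uR
  rw [row_map, stR_map]

lemma stR_form (n : ℕ) (b : R) (Us : List ℕ) (m : ℕ) :
    ∃ v : ℕ → R, stR n b Us m = Us.map (fun J => (J, v J)) := by
  cases m with
  | zero => exact ⟨_, rfl⟩
  | succ m => exact ⟨_, rfl⟩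

end Spec

/-! ### the fast version -/

/-- `row` for numbers -/
def rowN (J : ℕ) : List (ℕ × ℕ) → ℕ
  | [] => 0
  | (I, v) :: l => match Nat.beq (Nat.land I J) I with
    | true => Nat.add v (rowN J l)
    | false => rowN J l

lemma rowN_eq (J : ℕ) (l : List (ℕ × ℕ)) : rowN J l = row J l := by
  induction l with
  | nil => rfl
  | cons x l ih =>
    obtain ⟨I, v⟩ := x
    simp only [rowN, row]
    cases Nat.beq (Nat.land I J) I
    · exact ih
    · show v + rowN J l = v + row J l
      rw [ih]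

/-- `B ^ pc` -/
def ws (n B : ℕ) (Us : List ℕ) : List (ℕ × ℕ) := Us.map (fun I => (I, B ^ pc n I))

/-- the initial state -/
def ini (Us : List ℕ) : List (ℕ × ℕ) := Us.map (fun J => (J, if J = 0 then 1 else 0))

/-- the next state; `Us` is decreasing -/
def stp : List (ℕ × ℕ) → List (ℕ × ℕ) → List (ℕ × ℕ)
  | (J, w) :: W, p :: st => (J, Nat.mul w (rowN J (p :: st))) :: stp W st
  | _, _ => []

lemma stp_eq (w v : ℕ → ℕ) (l : List ℕ) (hl : l.Pairwise (fun a b => b < a)) :
    stp (l.map (fun J => (J, w J))) (l.map (fun J => (J, v J))) =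
      l.map (fun J => (J, w J * row J (l.map (fun J => (J, v J))))) := by
  induction l with
  | nil => rfl
  | cons a l ih =>
    rw [List.pairwise_cons] at hl
    rw [List.map_cons, List.map_cons, List.map_cons, stp, ih hl.2, rowN_eq]
    congr 1
    refine List.map_congr_left fun J hJ => ?_
    have h1 : Nat.beq (Nat.land a J) a = false := by
      rw [Bool.eq_false_iff]
      intro h
      have h2 : Nat.land a J = a := Nat.eq_of_beq_eq_true h
      have h3 : a &&& J ≤ J := Nat.and_le_right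
      have h4 := hl.1 J hJ
      rw [show a &&& J = a from h2] at h3
      omega
    simp only [row, h1]

/-- the list of the states -/
def hist (W : List (ℕ × ℕ)) : ℕ → List (ℕ × ℕ) → List (List (ℕ × ℕ))
  | 0, st => [st]
  | m + 1, st => st :: hist W m (stp W st)

lemma stp_stR (n B : ℕ) {Us : List ℕ} (hs : Us.Pairwise (fun a b => b < a)) (m : ℕ) :
    stp (ws n B Us) (stR n B Us m) = stR n B Us (m + 1) := by
  obtain ⟨v, hv⟩ := stR_form n B Us m
  rw [stR, hv]
  exact stp_eq (fun I => B ^ pc n I) v Us hs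

lemma hist_eq (n B : ℕ) {Us : List ℕ} (hs : Us.Pairwise (fun a b => b < a)) (m m0 : ℕ) :
    hist (ws n B Us) m (stR n B Us m0) = (List.range' m0 (m + 1)).map (stR n B Us) := by
  induction m generalizing m0 with
  | zero => simp [hist]
  | succ m ih =>
    rw [hist, stp_stR n B hs, ih, List.range'_succ (n := m + 1)]
    rfl

/-- the value of `J` -/
def lk (J : ℕ) : List (ℕ × ℕ) → ℕ
  | [] => 0
  | (I, v) :: l => match Nat.beq I J with
    | true => v
    | false => lk J l

lemma lk_eq (J : ℕ) (v : ℕ → ℕ) (l : List ℕ) (hJ : J ∈ l) :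
    lk J (l.map (fun J => (J, v J))) = v J := by
  induction l with
  | nil => exact absurd hJ List.not_mem_nil
  | cons a l ih =>
    rw [List.map_cons, lk]
    by_cases h : a = J
    · rw [h, Nat.beq_refl]
    · have h1 : Nat.beq a J = false := by
        rw [Bool.eq_false_iff]
        exact fun h2 => h (Nat.eq_of_beq_eq_true h2)
      rw [h1]
      exact ih ((List.mem_cons.mp hJ).resolve_left (Ne.symm h))

lemma lk_stR (n B : ℕ) {Us : List ℕ} {J : ℕ} (hJ : J ∈ Us) (m : ℕ) :
    lk J (stR n B Us (m + 1)) = B ^ pc n J * uR n B Us J m := by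
  rw [stR]
  exact lk_eq J (fun J => B ^ pc n J * row J (stR n B Us m)) Us hJ

/-- products -/
def prodN : ℕ → (ℕ → ℕ) → ℕ
  | 0, _ => 1
  | n + 1, f => Nat.mul (prodN n f) (f n)

lemma prodN_eq (n : ℕ) (f : ℕ → ℕ) : prodN n f = ∏ i ∈ range n, f i := by
  induction n with
  | zero => rfl
  | succ n ih => rw [Finset.prod_range_succ, ← ih]; rfl

/-- the cofactors -/
def eo (B ℓ M i0 e m : ℕ) : ℕ :=
  B ^ tri (M - m) * prodN (M - m) (fun k => B ^ (m + ℓ + 1 + k) - 1) *
    prodN m (fun k => B ^ (M - m + 1 + k) - 1) *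
    (prodN m (fun k => B ^ (k + 1 + i0) - 1) *
      prodN (M - m) (fun k => B ^ (m + 1 + (k + 1) + i0) - 1)) ^ e

/-- dominating polynomials -/
noncomputable def eQ (ℓ M i0 e m : ℕ) : ℕ[X] :=
  X ^ tri (M - m) * (∏ k ∈ range (M - m), (X ^ (m + ℓ + 1 + k) + 1)) *
    (∏ k ∈ range m, (X ^ (M - m + 1 + k) + 1)) *
    ((∏ k ∈ range m, (X ^ (k + 1 + i0) + 1)) *
      ∏ k ∈ range (M - m), (X ^ (m + 1 + (k + 1) + i0) + 1)) ^ e

lemma eo_eval {B : ℕ} (hB : 1 ≤ B) (ℓ M i0 e m : ℕ) :
    (Eo ℓ M i0 e m).eval (B : ℤ) = (eo B ℓ M i0 e m : ℤ) := by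
  have h1 : ∀ a, 1 ≤ B ^ a := fun a => Nat.one_le_pow _ _ hB
  have h2 : ∀ (n : ℕ) (f : ℕ → ℕ), ((∏ k ∈ range n, (B ^ f k - 1) : ℕ) : ℤ) =
      ∏ k ∈ range n, ((B : ℤ) ^ f k - 1) := by
    intro n f
    rw [Nat.cast_prod]
    refine Finset.prod_congr rfl fun k _ => ?_
    rw [Nat.cast_sub (h1 _)]
    push_cast
    rfl
  unfold Eo eo
  rw [prodN_eq, prodN_eq, prodN_eq, prodN_eq]
  simp only [eval_mul, eval_prod, eval_sub, eval_pow, eval_X, eval_one, Nat.cast_mul,
    Nat.cast_pow, h2]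

lemma eo_dom (ℓ M i0 e m : ℕ) : Dom (Eo ℓ M i0 e m) (eQ ℓ M i0 e m) := by
  have h1 : ∀ (n : ℕ) (f : ℕ → ℕ), Dom (∏ k ∈ range n, ((X : ℤ[X]) ^ f k - 1))
      (∏ k ∈ range n, (X ^ f k + 1)) := fun n f =>
    Dom.prod _ fun k _ => (Dom.X_pow _).sub Dom.one
  have h2 : ∀ (f : ℤ[X]) (g : ℕ[X]), Dom f g → ∀ k, Dom (f ^ k) (g ^ k) := by
    intro f g h k
    induction k with
    | zero => rw [pow_zero, pow_zero]; exact Dom.one
    | succ k ih => rw [pow_succ, pow_succ]; exact ih.mul h
  unfold Eo eQ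
  exact (((Dom.X_pow _).mul (h1 _ _)).mul (h1 _ _)).mul (h2 _ _ ((h1 _ _).mul (h1 _ _)) _)

lemma eQ_eval {m M : ℕ} (hm : m ≤ M) (ℓ i0 e : ℕ) :
    (eQ ℓ M i0 e m).eval 1 = 2 ^ ((1 + e) * M) := by
  unfold eQ
  simp only [eval_mul, eval_prod, eval_add, eval_pow, eval_X, eval_one, one_pow,
    Nat.reduceAdd, Finset.prod_const, Finset.card_range, one_mul]
  rw [← pow_add, ← pow_add, ← pow_mul, ← pow_add, Nat.sub_add_cancel hm,
    show m + (M - m) = M by omega]
  congr 1
  ring

/-! ### alternating sums -/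

/-- the alternating sum vanishes -/
def alt (ee : ℕ → ℕ) (J : ℕ) : ℕ → List (List (ℕ × ℕ)) → ℕ → ℕ → Bool
  | _, [], a, b => Nat.beq a b
  | m, st :: l, a, b => alt ee J (m + 1) l b (Nat.add a (Nat.mul (lk J st) (ee m)))

lemma alt_eq (ee : ℕ → ℕ) (J : ℕ) (st : ℕ → List (ℕ × ℕ)) (len : ℕ) : ∀ m m' a b,
    alt ee J m ((List.range' m' len).map st) a b = true →
    ((a : ℤ) - b) + ∑ k ∈ range len, (-1) ^ k * ((lk J (st (m' + k)) : ℤ) * ee (m + k)) = 0 := by
  induction len with
  | zero =>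
    intro m m' a b h
    have h1 : a = b := Nat.eq_of_beq_eq_true h
    simp [h1]
  | succ len ih =>
    intro m m' a b h
    rw [List.range'_succ, List.map_cons] at h
    have h1 := ih (m + 1) (m' + 1) b (a + lk J (st m') * ee m) h
    rw [Finset.sum_range_succ', pow_zero, one_mul, Nat.add_zero, Nat.add_zero]
    have h2 : ∀ k ∈ range len, (-1 : ℤ) ^ (k + 1) * ((lk J (st (m' + (k + 1))) : ℤ) *
        ee (m + (k + 1))) = -((-1) ^ k * ((lk J (st (m' + 1 + k)) : ℤ) * ee (m + 1 + k))) := by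
      intro k _
      rw [show m' + (k + 1) = m' + 1 + k by omega, show m + (k + 1) = m + 1 + k by omega,
        pow_succ]
      ring
    rw [Finset.sum_congr rfl h2, Finset.sum_neg_distrib]
    push_cast at h1
    linarith

/-- the first `n` entries -/
def take {α : Type} : ℕ → List α → List α
  | 0, _ => []
  | _ + 1, [] => []
  | n + 1, a :: l => a :: take n l

lemma take_range' {α : Type} (f : ℕ → α) (n : ℕ) : ∀ m len, n ≤ len →
    take n ((List.range' m len).map f) = (List.range' m n).map f := by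
  induction n with
  | zero => intro m len _; rfl
  | succ n ih =>
    intro m len h
    obtain ⟨len, rfl⟩ : ∃ l, len = l + 1 := ⟨len - 1, by omega⟩
    rw [List.range'_succ, List.range'_succ, List.map_cons, List.map_cons, take,
      ih (m + 1) len (by omega)]

/-- the check for one set; `x = (J, ℓ, M)`, `h` = the states from `1` on -/
def chk1 (B i0 e : ℕ) (h : List (List (ℕ × ℕ))) (x : ℕ × ℕ × ℕ) : Bool :=
  alt (eo B x.2.1 x.2.2 i0 e) x.1 0 (take (x.2.2 + 1) h) 0 0

/-- the sum of the first values -/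
def sumU (J : ℕ) : List (List (ℕ × ℕ)) → ℕ
  | [] => 0
  | st :: l => Nat.add (lk J st) (sumU J l)

lemma sumU_eq (J : ℕ) (f : ℕ → List (ℕ × ℕ)) (n : ℕ) : ∀ m,
    sumU J ((List.range' m n).map f) = ∑ k ∈ range n, lk J (f (m + k)) := by
  induction n with
  | zero => intro m; rfl
  | succ n ih =>
    intro m
    rw [List.range'_succ, List.map_cons, sumU, ih, Finset.sum_range_succ', Nat.add_zero]
    show lk J (f m) + _ = _
    rw [add_comm]
    congr 1
    refine Finset.sum_congr rfl fun k _ => ?_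
    rw [show m + (k + 1) = m + 1 + k by omega]

/-- the size check; `h` = the states at `1` -/
def chk2 (B e : ℕ) (h : List (List (ℕ × ℕ))) (x : ℕ × ℕ × ℕ) : Bool :=
  Nat.blt (sumU x.1 (take (x.2.2 + 1) h) * 2 ^ ((1 + e) * x.2.2)) B

/-- the identity, polynomials -/
theorem poly_zero {B i0 e n K J ℓ M : ℕ} {Us : List ℕ} (hJ : J ∈ Us) (hM : M ≤ K)
    (h1 : chk1 B i0 e ((List.range' 1 (K + 1)).map (stR n B Us)) (J, ℓ, M) = true)
    (h2 : chk2 B e ((List.range' 1 (K + 1)).map (stR n 1 Us)) (J, ℓ, M) = true) :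
    ∑ m ∈ range (M + 1), (-1) ^ m * ((uR n (X : ℕ[X]) Us J m).map (Nat.castRingHom ℤ) *
      Eo ℓ M i0 e m) = 0 := by
  have h2' : (∑ m ∈ range (M + 1), uR n 1 Us J m) * 2 ^ ((1 + e) * M) < B := by
    unfold chk2 at h2
    simp only at h2
    rw [take_range' _ _ _ _ (by omega), sumU_eq] at h2
    have h3 := Nat.blt_eq.mp h2
    refine lt_of_le_of_lt (le_of_eq ?_) h3
    congr 1
    refine Finset.sum_congr rfl fun k _ => ?_
    rw [Nat.add_comm 1 k, lk_stR _ _ hJ, one_pow, one_mul]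
  have hB : 1 ≤ B := by omega
  have hdom : Dom (∑ m ∈ range (M + 1), (-1) ^ m *
      ((uR n (X : ℕ[X]) Us J m).map (Nat.castRingHom ℤ) * Eo ℓ M i0 e m))
      (∑ m ∈ range (M + 1), (uR n (X : ℕ[X]) Us J m * eQ ℓ M i0 e m)) := by
    refine Dom.sum _ fun m _ => ?_
    have h3 := Dom.mul (Dom.cast (uR n (X : ℕ[X]) Us J m)) (eo_dom ℓ M i0 e m)
    rcases Nat.even_or_odd m with hm | hm
    · rw [hm.neg_one_pow, one_mul]; exact h3
    · rw [hm.neg_one_pow, neg_one_mul]; exact h3.neg
  refine eq_zero_of_eval hdom (B := B) ?_ ?_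
  · rw [eval_finsetSum]
    refine lt_of_le_of_lt (le_of_eq ?_) h2'
    rw [Finset.sum_mul]
    refine Finset.sum_congr rfl fun m hm => ?_
    rw [mem_range] at hm
    rw [eval_mul, eQ_eval (by omega)]
    congr 1
    have := uR_map (evalRingHom 1) n (X : ℕ[X]) Us J m
    rw [coe_evalRingHom, eval_X] at this
    exact this
  · unfold chk1 at h1
    simp only at h1
    rw [take_range' _ _ _ _ (by omega)] at h1
    have h3 := alt_eq _ _ _ _ _ _ _ _ h1
    rw [Nat.cast_zero, sub_zero, zero_add] at h3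
    have hBz : (B : ℤ) ^ pc n J ≠ 0 := pow_ne_zero _ (by positivity)
    refine (mul_eq_zero.mp ?_).resolve_left hBz
    rw [← h3, eval_finsetSum, Finset.mul_sum]
    refine Finset.sum_congr rfl fun m _ => ?_
    have h4 := uR_map (evalRingHom (B : ℕ)) n (X : ℕ[X]) Us J m
    rw [coe_evalRingHom, eval_X] at h4
    have h6 : ((uR n (X : ℕ[X]) Us J m).map (Nat.castRingHom ℤ)).eval (B : ℤ) =
        ((uR n B Us J m : ℕ) : ℤ) := by
      rw [← h4, eval_map]
      have h5 := Polynomial.eval₂_at_natCast (p := uR n (X : ℕ[X]) Us J m) (Nat.castRingHom ℤ) B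
      simpa using h5
    rw [eval_mul, eval_pow, eval_neg, eval_one, eval_mul, h6, eo_eval hB, Nat.add_comm 1 m,
      lk_stR _ _ hJ, Nat.zero_add]
    push_cast
    ring

end Pool.Agent.GaussPoset.Cl
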