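import Pool.Agent.W_448cl_h67.ClA
import Pool.Agent.W_448cl_h67.ClD
import Pool.Agent.W_448hul_h24.Peak

/-!
Coded up-sets.
-/

namespace Pool.Agent.GaussPoset.Cl

set_option linter.unusedSectionVars false

open Polynomial Finset

universe u

/-! ### the code -/

variable {P : Type u} [Fintype P] [PartialOrder P] [DecidableEq P]

/-- a coded part of the poset: `c a`, `a < n`; covers `cv a`, levels `lv a` -/
structure Cod (n : ℕ) (cv lv : ℕ → ℕ) (c : ℕ → P) : Prop where
  inj : ∀ a < n, ∀ b < n, c a = c b → a = b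
  cov : ∀ a < n, ∀ y, c a ⋖ y ↔ ∃ b < n, (cv a).testBit b = true ∧ c b = y
  lev : ∀ a < n, GaussPoset.lev (c a) = lv a

/-- the set with the code `J` -/
def toS (n : ℕ) (c : ℕ → P) (J : ℕ) : Finset P :=
  ((range n).filter (fun a => J.testBit a = true)).image c

lemma mem_toS {n : ℕ} {c : ℕ → P} {J : ℕ} {x : P} :
    x ∈ toS n c J ↔ ∃ a < n, J.testBit a = true ∧ c a = x := by
  unfold toS
  rw [mem_image]
  constructor
  · rintro ⟨a, ha, h⟩
    rw [mem_filter, mem_range] at ha
    exact ⟨a, ha.1, ha.2, h⟩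
  · rintro ⟨a, h1, h2, h3⟩
    exact ⟨a, mem_filter.mpr ⟨mem_range.mpr h1, h2⟩, h3⟩

lemma pc_eq (n J : ℕ) : pc n J = ((range n).filter (fun a => J.testBit a = true)).card := by
  induction n with
  | zero => rfl
  | succ n ih =>
    rw [pc, ih, Finset.range_add_one, Finset.filter_insert]
    split_ifs with h
    · rw [Finset.card_insert_of_notMem (by simp)]
    · rfl

/-- up-sets from covers -/
lemma up_of_cov {I : Finset P} (h : ∀ x ∈ I, ∀ y, x ⋖ y → y ∈ I) : Up I := by
  have key : ∀ k : ℕ, ∀ x ∈ I, GaussPoset.lev x = k → ∀ y, x ≤ y → y ∈ I := by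
    intro k
    induction k using Nat.strong_induction_on with
    | _ k ih =>
      intro x hx hk y hxy
      rcases eq_or_lt_of_le hxy with h1 | h1
      · rw [← h1]; exact hx
      · obtain ⟨v, hv, hvy⟩ := Hul.exists_cov h1
        exact ih _ (by rw [← hk]; exact lev_strictAnti hv.1) v (h x hx v hv) rfl y hvy
  exact fun x hx y hxy => key _ x hx rfl y hxy

/-- the check of the list of codes -/
structure UsOK (N : ℕ) (cv : ℕ → ℕ) (Us : List ℕ) : Prop where
  zero : 0 ∈ Us
  sorted : Us.Pairwise (fun a b => b < a)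
  valid : ∀ J ∈ Us, ∀ a < N, J.testBit a = true → Nat.land (cv a) J = cv a
  clos : ∀ J ∈ Us, ∀ a < N, J < 2 ^ a → Nat.land (cv a) J = cv a → J + 2 ^ a ∈ Us
  cv : ∀ a < N, cv a < 2 ^ a

lemma UsOK.nodup {N : ℕ} {cv : ℕ → ℕ} {Us : List ℕ} (h : UsOK N cv Us) : Us.Nodup :=
  h.sorted.imp fun h1 h2 => by omega

section Code

variable {n N : ℕ} {cv lv : ℕ → ℕ} {c : ℕ → P} {Us : List ℕ}

lemma land_iff {I J n : ℕ} (hI : I < 2 ^ n) :
    Nat.land I J = I ↔ ∀ a < n, I.testBit a = true → J.testBit a = true := by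
  constructor
  · intro h a _ ha
    have h1 : (I &&& J).testBit a = true := by
      rw [show I &&& J = I from h]; exact ha
    rw [Nat.testBit_land, Bool.and_eq_true] at h1
    exact h1.2
  · intro h
    show I &&& J = I
    refine Nat.eq_of_testBit_eq fun a => ?_
    rw [Nat.testBit_land]
    by_cases ha : a < n
    · cases h1 : I.testBit a
      · rfl
      · rw [h a ha h1]; rfl
    · rw [Nat.testBit_lt_two_pow (lt_of_lt_of_le hI (Nat.pow_le_pow_right (by norm_num)
        (by omega)))]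
      rfl

lemma Cod.mem_iff (C : Cod n cv lv c) {J a : ℕ} (ha : a < n) :
    c a ∈ toS n c J ↔ J.testBit a = true := by
  rw [mem_toS]
  constructor
  · rintro ⟨b, hb, h1, h2⟩
    rw [← C.inj b hb a ha h2]; exact h1
  · intro h
    exact ⟨a, ha, h, rfl⟩

lemma Cod.card (C : Cod n cv lv c) (J : ℕ) : (toS n c J).card = pc n J := by
  rw [pc_eq]
  unfold toS
  rw [Finset.card_image_of_injOn]
  intro a ha b hb h
  rw [Finset.mem_coe, mem_filter, mem_range] at ha hb
  exact C.inj a ha.1 b hb.1 h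

lemma Cod.sub_iff (C : Cod n cv lv c) {I J : ℕ} (hI : I < 2 ^ n) :
    Nat.land I J = I ↔ toS n c I ⊆ toS n c J := by
  rw [land_iff hI]
  constructor
  · intro h x hx
    obtain ⟨a, ha, h1, rfl⟩ := mem_toS.mp hx
    exact (C.mem_iff ha).mpr (h a ha h1)
  · intro h a ha h1
    exact (C.mem_iff ha).mp (h ((C.mem_iff ha).mpr h1))

lemma Cod.inj' (C : Cod n cv lv c) {I J : ℕ} (hI : I < 2 ^ n) (hJ : J < 2 ^ n)
    (h : toS n c I = toS n c J) : I = J := by
  have h1 := (C.sub_iff hI).mpr h.subset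
  have h2 := (C.sub_iff hJ).mpr h.symm.subset
  have h3 : Nat.land I J = Nat.land J I := Nat.land_comm I J
  rw [h1, h2] at h3
  exact h3

lemma Cod.up (C : Cod n cv lv c) (hU : UsOK N cv Us) (hn : n ≤ N) {J : ℕ} (hJ : J ∈ Us) :
    Up (toS n c J) := by
  refine up_of_cov fun x hx y hxy => ?_
  obtain ⟨a, ha, h1, rfl⟩ := mem_toS.mp hx
  obtain ⟨b, hb, h2, rfl⟩ := (C.cov a ha y).mp hxy
  rw [C.mem_iff hb]
  have h3 := hU.valid J hJ a (by omega) h1
  have h4 := (land_iff (n := a) (hU.cv a (by omega))).mp h3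
  refine h4 b ?_ h2
  by_contra hba
  rw [Nat.testBit_lt_two_pow (lt_of_lt_of_le (hU.cv a (by omega))
    (Nat.pow_le_pow_right (by norm_num) (by omega)))] at h2
  exact absurd h2 (by simp)

/-- every valid code is in the list -/
lemma UsOK.mem (hU : UsOK N cv Us) {k : ℕ} (hk : k ≤ N) {J : ℕ} (hJ : J < 2 ^ k)
    (hv : ∀ a < k, J.testBit a = true → Nat.land (cv a) J = cv a) : J ∈ Us := by
  induction k generalizing J with
  | zero =>
    have : J = 0 := by
      rw [pow_zero] at hJ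
      omega
    rw [this]
    exact hU.zero
  | succ k ih =>
    by_cases h : J.testBit k = true
    · have h1 : 2 ^ k ≤ J := Nat.ge_two_pow_of_testBit h
      obtain ⟨I, rfl⟩ : ∃ I, J = I + 2 ^ k := ⟨J - 2 ^ k, by omega⟩
      have hI : I < 2 ^ k := by
        rw [pow_succ] at hJ
        omega
      have hbit : ∀ a < k, (I + 2 ^ k).testBit a = I.testBit a := by
        intro a ha
        rw [Nat.add_comm]
        exact Nat.testBit_two_pow_add_gt ha I
      have hsub : ∀ a ≤ k, Nat.land (cv a) (I + 2 ^ k) = cv a → Nat.land (cv a) I = cv a := by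
        intro a ha h2
        rw [land_iff (n := k) (lt_of_lt_of_le (hU.cv a (by omega))
          (Nat.pow_le_pow_right (by norm_num) ha))] at h2 ⊢
        intro b hb h3
        rw [← hbit b hb]
        exact h2 b hb h3
      refine hU.clos I (ih (by omega) hI fun a ha h2 => ?_) k (by omega) hI
        (hsub k le_rfl (hv k (by omega) h))
      exact hsub a (by omega) (hv a (by omega) (by rw [hbit a ha]; exact h2))
    · have h1 : J < 2 ^ k := by
        by_contra hcon
        have h2 : J / 2 ^ k = 1 := by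
          rw [pow_succ] at hJ
          exact Nat.div_eq_of_lt_le (by omega) (by omega)
        refine h ?_
        rw [Nat.testBit_eq_decide_div_mod_eq, h2]
        rfl
      exact ih (by omega) h1 fun a ha h2 => hv a (by omega) h2

/-- every up-set has a code -/
lemma Cod.exists_code (C : Cod n cv lv c) (hU : UsOK N cv Us) (hn : n ≤ N) {I : Finset P}
    (hI : ∀ x ∈ I, ∃ a < n, c a = x) (hup : Up I) : ∃ J ∈ Us, J < 2 ^ n ∧ toS n c J = I := by
  classical
  set J : ℕ := Nat.ofBits (fun a : Fin n => decide (c a ∈ I)) with hJ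
  have hJn : J < 2 ^ n := Nat.ofBits_lt_two_pow _
  have hbit : ∀ a < n, J.testBit a = true ↔ c a ∈ I := by
    intro a ha
    rw [hJ, Nat.testBit_ofBits_lt _ _ ha]
    simp
  refine ⟨J, ?_, hJn, ?_⟩
  · refine hU.mem hn hJn fun a ha h1 => ?_
    rw [land_iff (n := a) (hU.cv a (by omega))]
    intro b hb h2
    rw [hbit b (by omega)]
    exact hup _ ((hbit a ha).mp h1) _ ((C.cov a ha (c b)).mpr ⟨b, by omega, h2, rfl⟩).le
  · ext x
    rw [mem_toS]
    constructor
    · rintro ⟨a, ha, h1, rfl⟩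
      exact (hbit a ha).mp h1
    · intro hx
      obtain ⟨a, ha, rfl⟩ := hI x hx
      exact ⟨a, ha, (hbit a ha).mpr hx, rfl⟩

lemma pc_stable {n N J : ℕ} (hn : n ≤ N) (hJ : J < 2 ^ n) : pc N J = pc n J := by
  rw [pc_eq, pc_eq]
  congr 1
  ext a
  rw [mem_filter, mem_filter, mem_range, mem_range]
  refine ⟨fun h => ⟨?_, h.2⟩, fun h => ⟨by omega, h.2⟩⟩
  by_contra hcon
  rw [Nat.testBit_lt_two_pow (lt_of_lt_of_le hJ (Nat.pow_le_pow_right (by norm_num)
    (by omega)))] at h
  exact absurd h.2 (by simp)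

lemma row_list {R : Type*} [CommSemiring R] (J : ℕ) (f : ℕ → R) (l : List ℕ) (hl : l.Nodup) :
    row J (l.map (fun I => (I, f I))) =
      ∑ I ∈ l.toFinset.filter (fun I => Nat.land I J = I), f I := by
  induction l with
  | nil => simp [row]
  | cons I l ih =>
    rw [List.nodup_cons] at hl
    rw [List.map_cons, List.toFinset_cons, Finset.filter_insert, row]
    have ih' := ih hl.2
    cases h : Nat.beq (Nat.land I J) I
    · rw [if_neg, ← ih']
      intro h1
      rw [h1] at h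
      have : Nat.beq I I = true := Nat.beq_refl I
      rw [this] at h
      exact absurd h (by simp)
    · have h1 : Nat.land I J = I := Nat.eq_of_beq_eq_true h
      rw [if_pos h1, Finset.sum_insert (fun h2 => hl.1 (List.mem_toFinset.mp
        (mem_filter.mp h2).1)), ← ih']

/-- the values of the up-sets -/
theorem Cod.V_eq (C : Cod n cv lv c) (hU : UsOK N cv Us) (hn : n ≤ N) (m : ℕ) :
    ∀ J ∈ Us, J < 2 ^ n → V m (toS n c J) =
      (uR N (X : ℕ[X]) Us J m).map (Nat.castRingHom ℤ) := by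
  classical
  induction m with
  | zero =>
    intro J _ _
    have h1 : uR N (X : ℕ[X]) Us J 0 = ∑ I ∈ Us.toFinset.filter
        (fun I => Nat.land I J = I), (if I = 0 then 1 else 0) := by
      unfold uR
      simp only [stR]
      exact row_list J (fun I => if I = 0 then 1 else 0) Us hU.nodup
    have h2 : (0 : ℕ) ∈ Us.toFinset.filter (fun I => Nat.land I J = I) := by
      rw [mem_filter, List.mem_toFinset]
      exact ⟨hU.zero, Nat.zero_and J⟩
    rw [h1, V_zero, Finset.sum_ite_eq' _ 0, if_pos h2, Polynomial.map_one]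
  | succ m ih =>
    intro J hJ hJn
    have h1 : uR N (X : ℕ[X]) Us J (m + 1) = ∑ I ∈ Us.toFinset.filter
        (fun I => Nat.land I J = I), X ^ pc N I * uR N X Us I m := by
      unfold uR
      simp only [stR]
      exact row_list J (fun I => X ^ pc N I * row I (stR N X Us m)) Us hU.nodup
    rw [h1, V_succ, Polynomial.map_sum]
    symm
    have hlt : ∀ I, Nat.land I J = I → I < 2 ^ n := by
      intro I h
      have h2 : I &&& J ≤ J := Nat.and_le_right
      rw [show I &&& J = I from h] at h2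
      omega
    refine Finset.sum_bij (fun I _ => toS n c I) ?_ ?_ ?_ ?_
    · intro I hI
      rw [mem_filter, List.mem_toFinset] at hI
      rw [mem_filter, mem_powerset]
      exact ⟨(C.sub_iff (hlt I hI.2)).mp hI.2, C.up hU hn hI.1⟩
    · intro I hI I' hI' h
      rw [mem_filter] at hI hI'
      exact C.inj' (hlt I hI.2) (hlt I' hI'.2) h
    · intro I hI
      rw [mem_filter, mem_powerset] at hI
      obtain ⟨I', h2, h3, h4⟩ := C.exists_code hU hn (I := I) (fun x hx => by
        obtain ⟨a, ha, -, h⟩ := mem_toS.mp (hI.1 hx)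
        exact ⟨a, ha, h⟩) hI.2
      refine ⟨I', ?_, h4⟩
      rw [mem_filter, List.mem_toFinset]
      refine ⟨h2, (C.sub_iff h3).mpr ?_⟩
      rw [h4]
      exact hI.1
    · intro I hI
      rw [mem_filter, List.mem_toFinset] at hI
      have h2 := hlt I hI.2
      rw [Polynomial.map_mul, Polynomial.map_pow, Polynomial.map_X, C.card, ← pc_stable hn h2,
        ih I hI.1 h2]

/-- **Exact divisibility from the checks.** -/
theorem Cod.clean (C : Cod n cv lv c) (hU : UsOK N cv Us) (hn : n ≤ N) {B i0 K J ℓ M : ℕ}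
    (hJ : J ∈ Us) (hJn : J < 2 ^ n) (hM : M ≤ K)
    (h1 : chk1 B i0 1 ((List.range' 1 (K + 1)).map (stR N B Us)) (J, ℓ, M) = true)
    (h2 : chk2 B 1 ((List.range' 1 (K + 1)).map (stR N 1 Us)) (J, ℓ, M) = true)
    (hlev : ∃ a < n, J.testBit a = true ∧ ℓ ≤ lv a + 1) (hcard : pc N J ≤ ℓ + M)
    (hi0 : i0 < ℓ) :
    (1 + X : Polynomial (PowerSeries ℤ)) ^ 2 ∣ W {x : P // x ∈ toS n c J} i0 := by
  have hup := C.up hU hn hJ
  have h5 : ∀ m, U {x : P // x ∈ toS n c J} m =
      (uR N (X : ℕ[X]) Us J m).map (Nat.castRingHom ℤ) := fun m => by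
    rw [U_eq_V hup, C.V_eq hU hn m J hJ hJn]
  refine dvd_of_poly (ℓ := ℓ) (M := M) ?_ ?_ hi0 ?_
  · intro i hi
    obtain ⟨a, ha, hb, hla⟩ := hlev
    refine ⟨⟨c a, (C.mem_iff ha).mpr hb⟩, ?_⟩
    rw [lev_subtype (p := fun x => x ∈ toS n c J) (fun x y hxy hx => hup x hx y hxy)]
    rw [C.lev a ha]
    omega
  · rw [Fintype.card_coe, C.card, ← pc_stable hn hJn]
    exact hcard
  · simp only [h5]
    exact poly_zero hJ hM h1 h2

/-- **Third zero from the checks.** -/
theorem Cod.clean3 (C : Cod n cv lv c) (hU : UsOK N cv Us) (hn : n ≤ N) {B i0 K J ℓ M : ℕ}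
    (hJ : J ∈ Us) (hJn : J < 2 ^ n) (hM : M + 1 ≤ K)
    (h1 : chk1 B i0 1 ((List.range' 1 (K + 1)).map (stR N B Us)) (J, ℓ, M + 1) = true)
    (h2 : chk2 B 1 ((List.range' 1 (K + 1)).map (stR N 1 Us)) (J, ℓ, M + 1) = true)
    (h3 : chk1 B i0 2 ((List.range' 1 (K + 1)).map (stR N B Us)) (J, ℓ, M) = true)
    (h4 : chk2 B 2 ((List.range' 1 (K + 1)).map (stR N 1 Us)) (J, ℓ, M) = true)
    (hlev : ∃ a < n, J.testBit a = true ∧ ℓ ≤ lv a + 1) (hcard : pc N J ≤ ℓ + (M + 1))
    (hi0 : i0 < ℓ) :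
    (1 + X : Polynomial (PowerSeries ℤ)) ^ 3 ∣ W {x : P // x ∈ toS n c J} i0 := by
  have hup := C.up hU hn hJ
  have h5 : ∀ m, U {x : P // x ∈ toS n c J} m =
      (uR N (X : ℕ[X]) Us J m).map (Nat.castRingHom ℤ) := fun m => by
    rw [U_eq_V hup, C.V_eq hU hn m J hJ hJn]
  refine dvd3_of_poly (ℓ := ℓ) (M := M) ?_ ?_ hi0 ?_ ?_
  · intro i hi
    obtain ⟨a, ha, hb, hla⟩ := hlev
    refine ⟨⟨c a, (C.mem_iff ha).mpr hb⟩, ?_⟩
    rw [lev_subtype (p := fun x => x ∈ toS n c J) (fun x y hxy hx => hup x hx y hxy)]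
    rw [C.lev a ha]
    omega
  · rw [Fintype.card_coe, C.card, ← pc_stable hn hJn]
    exact hcard
  · simp only [h5]
    exact poly_zero hJ hM h1 h2
  · simp only [h5]
    exact poly_zero hJ (by omega) h3 h4

end Code

end Pool.Agent.GaussPoset.Cl
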