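import Pool.Agent.W_448cl_h67.ClE

/-!
Checks for one window of a coded poset.
-/

namespace Pool.Agent.GaussPoset.Cl

set_option linter.unusedSectionVars false

open Polynomial Finset

universe u

/-- decreasing lists -/
def desc : List ℕ → Bool
  | [] => true
  | [_] => true
  | a :: b :: l => Nat.blt b a && desc (b :: l)

lemma desc_cons (l : List ℕ) : ∀ a, desc (a :: l) = true →
    (∀ b ∈ l, b < a) ∧ l.Pairwise (fun a b => b < a) := by
  induction l with
  | nil => intro a _; exact ⟨by simp, List.Pairwise.nil⟩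
  | cons b l ih =>
    intro a h
    rw [desc, Bool.and_eq_true, Nat.blt_eq] at h
    obtain ⟨h1, h2⟩ := ih b h.2
    refine ⟨?_, List.pairwise_cons.mpr ⟨h1, h2⟩⟩
    intro c hc
    rcases List.mem_cons.mp hc with h3 | h3
    · rw [h3]; exact h.1
    · exact lt_trans (h1 c h3) h.1

lemma desc_pairwise {l : List ℕ} (h : desc l = true) : l.Pairwise (fun a b => b < a) := by
  cases l with
  | nil => exact List.Pairwise.nil
  | cons a l => exact List.pairwise_cons.mpr (desc_cons l a h)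

/-- the check of the list of the up-sets -/
def usChk (N : ℕ) (cv : ℕ → ℕ) (Us : List ℕ) : Bool :=
  Us.elem 0 && desc Us &&
  (Us.all fun J => (List.range N).all fun a => !J.testBit a || Nat.beq (Nat.land (cv a) J) (cv a)) &&
  (Us.all fun J => (List.range N).all fun a => Nat.ble (2 ^ a) J ||
    !(Nat.beq (Nat.land (cv a) J) (cv a)) || Us.elem (J + 2 ^ a)) &&
  ((List.range N).all fun a => Nat.blt (cv a) (2 ^ a))

lemma usOK_of_chk {N : ℕ} {cv : ℕ → ℕ} {Us : List ℕ} (h : usChk N cv Us = true) :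
    UsOK N cv Us := by
  unfold usChk at h
  simp only [Bool.and_eq_true] at h
  obtain ⟨⟨⟨⟨h1, h0⟩, h2⟩, h3⟩, h4⟩ := h
  rw [List.all_eq_true] at h2 h3 h4
  refine ⟨List.elem_iff.mp h1, desc_pairwise h0, ?_, ?_, ?_⟩
  · intro J hJ a ha hb
    have := h2 J hJ
    rw [List.all_eq_true] at this
    have h5 := this a (List.mem_range.mpr ha)
    rw [hb] at h5
    exact Nat.eq_of_beq_eq_true (by simpa using h5)
  · intro J hJ a ha hlt hl
    have := h3 J hJ
    rw [List.all_eq_true] at this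
    have h5 := this a (List.mem_range.mpr ha)
    rw [hl, Nat.beq_refl] at h5
    have h6 : Nat.ble (2 ^ a) J = false := by
      rw [Bool.eq_false_iff]
      intro h7
      exact absurd (Nat.le_of_ble_eq_true h7) (by omega)
    rw [h6] at h5
    exact List.elem_iff.mp (by simpa using h5)
  · intro a ha
    exact Nat.blt_eq.mp (h4 a (List.mem_range.mpr ha))

/-- the check of one window, order `b`: two or three -/
def winChk (N B K : ℕ) (lv : ℕ → ℕ) (Us : List ℕ) (i0 bm : ℕ) (L : List (ℕ × ℕ × ℕ)) : Bool :=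
  ((fun h => L.all (chk1 B i0 1 h)) (hist (ws N B Us) K (stp (ws N B Us) (ini Us)))) &&
  ((fun h => L.all (chk2 B 1 h)) (hist (ws N 1 Us) K (stp (ws N 1 Us) (ini Us)))) &&
  (L.all fun x => Nat.ble x.2.2 K && Nat.blt i0 x.2.1 && Nat.ble (pc N x.1) (x.2.1 + x.2.2) &&
    (List.range N).any fun a => x.1.testBit a && Nat.ble x.2.1 (lv a + 1)) &&
  (Us.all fun J => !(Nat.beq (Nat.land bm J) bm) || L.any fun x => Nat.beq x.1 J)

/-- the check of one window, order three -/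
def winChk3 (N B K : ℕ) (lv : ℕ → ℕ) (Us : List ℕ) (i0 bm : ℕ) (L : List (ℕ × ℕ × ℕ)) : Bool :=
  ((fun h => L.all fun x => chk1 B i0 1 h (x.1, x.2.1, x.2.2 + 1) && chk1 B i0 2 h x)
    (hist (ws N B Us) K (stp (ws N B Us) (ini Us)))) &&
  ((fun h => L.all fun x => chk2 B 1 h (x.1, x.2.1, x.2.2 + 1) && chk2 B 2 h x)
    (hist (ws N 1 Us) K (stp (ws N 1 Us) (ini Us)))) &&
  (L.all fun x => Nat.ble (x.2.2 + 1) K && Nat.blt i0 x.2.1 &&
    Nat.ble (pc N x.1) (x.2.1 + (x.2.2 + 1)) &&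
    (List.range N).any fun a => x.1.testBit a && Nat.ble x.2.1 (lv a + 1)) &&
  (Us.all fun J => !(Nat.beq (Nat.land bm J) bm) || L.any fun x => Nat.beq x.1 J)

variable {P : Type u} [Fintype P] [PartialOrder P] [DecidableEq P]
variable {n N : ℕ} {cv lv : ℕ → ℕ} {c : ℕ → P} {Us : List ℕ}

lemma hist_one (hU : UsOK N cv Us) (B K : ℕ) :
    hist (ws N B Us) K (stp (ws N B Us) (ini Us)) = (List.range' 1 (K + 1)).map (stR N B Us) := by
  have h1 : ini Us = stR N B Us 0 := rfl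
  rw [h1, stp_stR N B hU.sorted, hist_eq N B hU.sorted]

/-- **Order two for all up-sets above the base.** -/
theorem Cod.clean_of (C : Cod n cv lv c) (hU : UsOK N cv Us) (hn : n ≤ N) {B i0 K bm : ℕ}
    {L : List (ℕ × ℕ × ℕ)} (h : winChk N B K lv Us i0 bm L = true) {I : Finset P}
    (hI : ∀ x ∈ I, ∃ a < n, c a = x) (hup : Up I) (hbn : bm < 2 ^ n)
    (hb : ∀ a < n, bm.testBit a = true → c a ∈ I) :
    (1 + X : Polynomial (PowerSeries ℤ)) ^ 2 ∣ W {x : P // x ∈ I} i0 := by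
  unfold winChk at h
  simp only [Bool.and_eq_true] at h
  obtain ⟨⟨⟨h1, h2⟩, h3⟩, h4⟩ := h
  rw [hist_one hU] at h1 h2
  rw [List.all_eq_true] at h1 h2 h3 h4
  obtain ⟨J, hJ, hJn, rfl⟩ := C.exists_code hU hn hI hup
  have h5 := h4 J hJ
  have h6 : Nat.land bm J = bm := by
    rw [land_iff hbn]
    intro a ha h7
    exact (C.mem_iff ha).mp (hb a ha h7)
  rw [h6, Nat.beq_refl] at h5
  have h7 : (L.any fun x => Nat.beq x.1 J) = true := by simpa using h5
  rw [List.any_eq_true] at h7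
  obtain ⟨⟨J', ℓ, M⟩, hx, hxJ⟩ := h7
  have h8 : J' = J := Nat.eq_of_beq_eq_true hxJ
  subst h8
  have h9 := h3 _ hx
  simp only [Bool.and_eq_true] at h9
  obtain ⟨⟨⟨h10, h11⟩, h12⟩, h13⟩ := h9
  rw [List.any_eq_true] at h13
  obtain ⟨a, ha, hab⟩ := h13
  rw [Bool.and_eq_true] at hab
  have hM : M ≤ K := Nat.le_of_ble_eq_true h10
  refine C.clean hU hn hJ hJn hM (h1 _ hx) (h2 _ hx) ⟨a, ?_, hab.1,
    Nat.le_of_ble_eq_true hab.2⟩ (Nat.le_of_ble_eq_true h12) (Nat.blt_eq.mp h11)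
  by_contra hcon
  rw [Nat.testBit_lt_two_pow (lt_of_lt_of_le hJn (Nat.pow_le_pow_right (by norm_num)
    (by omega)))] at hab
  exact absurd hab.1 (by simp)

/-- **Order three for all up-sets above the base.** -/
theorem Cod.clean_of3 (C : Cod n cv lv c) (hU : UsOK N cv Us) (hn : n ≤ N) {B i0 K bm : ℕ}
    {L : List (ℕ × ℕ × ℕ)} (h : winChk3 N B K lv Us i0 bm L = true) {I : Finset P}
    (hI : ∀ x ∈ I, ∃ a < n, c a = x) (hup : Up I) (hbn : bm < 2 ^ n)
    (hb : ∀ a < n, bm.testBit a = true → c a ∈ I) :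
    (1 + X : Polynomial (PowerSeries ℤ)) ^ 3 ∣ W {x : P // x ∈ I} i0 := by
  unfold winChk3 at h
  simp only [Bool.and_eq_true] at h
  obtain ⟨⟨⟨h1, h2⟩, h3⟩, h4⟩ := h
  rw [hist_one hU] at h1 h2
  rw [List.all_eq_true] at h1 h2 h3 h4
  obtain ⟨J, hJ, hJn, rfl⟩ := C.exists_code hU hn hI hup
  have h5 := h4 J hJ
  have h6 : Nat.land bm J = bm := by
    rw [land_iff hbn]
    intro a ha h7
    exact (C.mem_iff ha).mp (hb a ha h7)
  rw [h6, Nat.beq_refl] at h5
  have h7 : (L.any fun x => Nat.beq x.1 J) = true := by simpa using h5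
  rw [List.any_eq_true] at h7
  obtain ⟨⟨J', ℓ, M⟩, hx, hxJ⟩ := h7
  have h8 : J' = J := Nat.eq_of_beq_eq_true hxJ
  subst h8
  have h9 := h3 _ hx
  have g1 := h1 _ hx
  have g2 := h2 _ hx
  simp only [Bool.and_eq_true] at h9 g1 g2
  obtain ⟨⟨⟨h10, h11⟩, h12⟩, h13⟩ := h9
  rw [List.any_eq_true] at h13
  obtain ⟨a, ha, hab⟩ := h13
  rw [Bool.and_eq_true] at hab
  have hM : M + 1 ≤ K := Nat.le_of_ble_eq_true h10
  refine C.clean3 hU hn hJ hJn hM g1.1 g2.1 g1.2 g2.2 ⟨a, ?_, hab.1,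
    Nat.le_of_ble_eq_true hab.2⟩ (Nat.le_of_ble_eq_true h12) (Nat.blt_eq.mp h11)
  by_contra hcon
  rw [Nat.testBit_lt_two_pow (lt_of_lt_of_le hJn (Nat.pow_le_pow_right (by norm_num)
    (by omega)))] at hab
  exact absurd hab.1 (by simp)

end Pool.Agent.GaussPoset.Cl
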