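import Pool.Agent.W_448cl_h67.ClF

/-!
The E6 strip: checks.
-/

namespace Pool.Agent.GaussPoset.Cl

/-- the up-sets of the E6 strip -/
def E6us : List ℕ := [65535, 32767, 16383, 8191, 6143, 4095, 3071, 2047, 1535, 1407, 1375, 1023, 511, 383, 351, 255, 127, 95, 63, 47, 31, 23, 15, 7, 3, 1, 0]

/-- the covers -/
def E6cv : List ℕ := [0, 1, 2, 4, 4, 8, 24, 96, 64, 384, 256, 512, 1536, 6144, 8192, 16384]

/-- the levels -/
def E6lv : List ℕ := [0, 1, 2, 3, 3, 4, 4, 5, 5, 6, 6, 7, 7, 8, 9, 10]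

theorem E6_us : UsOK 16 (fun a => E6cv.getD a 0) E6us :=
  usOK_of_chk (by decide +kernel)

/-- window 3 -/
def E6L3 : List (ℕ × ℕ × ℕ) := [(1375, 7, 1), (1407, 7, 2), (1535, 7, 3), (2047, 7, 4), (4095, 8, 4), (6143, 8, 4), (8191, 8, 5), (16383, 9, 5), (32767, 10, 5), (65535, 11, 5)]

theorem E6_win3 : winChk 16 (2 ^ 50) 5 (fun a => E6lv.getD a 0) E6us 3 1375 E6L3 = true := by
  decide +kernel

/-- window 4 -/
def E6L4 : List (ℕ × ℕ × ℕ) := [(6143, 8, 4), (8191, 8, 5), (16383, 9, 5), (32767, 10, 5), (65535, 11, 5)]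

theorem E6_win4 : winChk 16 (2 ^ 50) 5 (fun a => E6lv.getD a 0) E6us 4 6143 E6L4 = true := by
  decide +kernel

/-- window 5 -/
def E6L5 : List (ℕ × ℕ × ℕ) := [(16383, 9, 5), (32767, 10, 5), (65535, 11, 5)]

theorem E6_win5 : winChk 16 (2 ^ 50) 5 (fun a => E6lv.getD a 0) E6us 5 16383 E6L5 = true := by
  decide +kernel

/-- window 6 -/
def E6L6 : List (ℕ × ℕ × ℕ) := [(32767, 10, 5), (65535, 11, 5)]

theorem E6_win6 : winChk 16 (2 ^ 50) 5 (fun a => E6lv.getD a 0) E6us 6 32767 E6L6 = true := by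
  decide +kernel

/-- window 7 -/
def E6L7 : List (ℕ × ℕ × ℕ) := [(65535, 11, 5)]

theorem E6_win7 : winChk 16 (2 ^ 50) 5 (fun a => E6lv.getD a 0) E6us 7 65535 E6L7 = true := by
  decide +kernel

end Pool.Agent.GaussPoset.Cl
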