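import Pool.Agent.W_448cl_h67.ClF

/-!
The E7 strip: checks.
-/

namespace Pool.Agent.GaussPoset.Cl

/-- the up-sets of the E7 strip -/
def E7us : List ℕ := [134217727, 67108863, 33554431, 16777215, 8388607, 6291455, 5767167, 4194303, 2097151, 1572863, 1048575, 786431, 720895, 704511, 524287, 393215, 262143, 196607, 180223, 131071, 98303, 94207, 65535, 49151, 32767, 28671, 24575, 20479, 19455, 19199, 19135, 16383, 12287, 8191, 6143, 4095, 3071, 2815, 2751, 2047, 1023, 767, 703, 511, 255, 191, 127, 95, 63, 47, 31, 15, 7, 3, 1, 0]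

/-- the covers -/
def E7cv : List ℕ := [0, 1, 2, 4, 8, 8, 16, 48, 192, 128, 768, 512, 1024, 3072, 2048, 12288, 24576, 32768, 98304, 131072, 393216, 1572864, 1048576, 6291456, 8388608, 16777216, 33554432]

/-- the levels -/
def E7lv : List ℕ := [0, 1, 2, 3, 4, 4, 5, 5, 6, 6, 7, 7, 8, 8, 8, 9, 9, 10, 10, 11, 11, 12, 12, 13, 14, 15, 16]

theorem E7_us : UsOK 27 (fun a => E7cv.getD a 0) E7us :=
  usOK_of_chk (by decide +kernel)

/-- window 4 -/
def E7L4 : List (ℕ × ℕ × ℕ) := [(19135, 9, 1), (19199, 9, 2), (19455, 9, 3), (20479, 9, 4), (24575, 9, 5), (28671, 9, 5), (32767, 9, 6), (65535, 10, 6), (94207, 10, 5), (98303, 10, 6), (131071, 10, 7), (196607, 11, 6), (262143, 11, 7), (393215, 11, 7), (524287, 11, 8), (720895, 12, 6), (786431, 12, 7), (1048575, 12, 8), (1572863, 12, 8), (2097151, 12, 9), (4194303, 13, 9), (5767167, 13, 8), (6291455, 13, 9), (8388607, 13, 10), (16777215, 14, 10), (33554431, 15, 10), (67108863, 16, 10), (134217727, 17, 10)]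

theorem E7_win4 : winChk 27 (2 ^ 100) 10 (fun a => E7lv.getD a 0) E7us 4 19135 E7L4 = true := by
  decide +kernel

/-- window 5 -/
def E7L5 : List (ℕ × ℕ × ℕ) := [(94207, 10, 5), (98303, 10, 6), (131071, 10, 7), (262143, 11, 7), (393215, 11, 7), (524287, 11, 8), (786431, 12, 7), (1048575, 12, 8), (1572863, 12, 8), (2097151, 12, 9), (4194303, 13, 9), (5767167, 13, 8), (6291455, 13, 9), (8388607, 13, 10), (16777215, 14, 10), (33554431, 15, 10), (67108863, 16, 10), (134217727, 17, 10)]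

theorem E7_win5 : winChk 27 (2 ^ 100) 10 (fun a => E7lv.getD a 0) E7us 5 94207 E7L5 = true := by
  decide +kernel

/-- window 6 -/
def E7L6 : List (ℕ × ℕ × ℕ) := [(393215, 11, 7), (524287, 11, 8), (1048575, 12, 8), (1572863, 12, 8), (2097151, 12, 9), (4194303, 13, 9), (5767167, 13, 8), (6291455, 13, 9), (8388607, 13, 10), (16777215, 14, 10), (33554431, 15, 10), (67108863, 16, 10), (134217727, 17, 10)]

theorem E7_win6 : winChk 27 (2 ^ 100) 10 (fun a => E7lv.getD a 0) E7us 6 393215 E7L6 = true := by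
  decide +kernel

/-- window 7 -/
def E7L7 : List (ℕ × ℕ × ℕ) := [(1572863, 12, 8), (2097151, 12, 9), (4194303, 13, 9), (5767167, 13, 8), (6291455, 13, 9), (8388607, 13, 10), (16777215, 14, 10), (33554431, 15, 10), (67108863, 16, 10), (134217727, 17, 10)]

theorem E7_win7 : winChk 27 (2 ^ 100) 10 (fun a => E7lv.getD a 0) E7us 7 1572863 E7L7 = true := by
  decide +kernel

/-- window 9 -/
def E7L9 : List (ℕ × ℕ × ℕ) := [(16777215, 14, 10), (33554431, 15, 10), (67108863, 16, 10), (134217727, 17, 10)]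

theorem E7_win9 : winChk 27 (2 ^ 100) 10 (fun a => E7lv.getD a 0) E7us 9 16777215 E7L9 = true := by
  decide +kernel

/-- window 10 -/
def E7L10 : List (ℕ × ℕ × ℕ) := [(33554431, 15, 10), (67108863, 16, 10), (134217727, 17, 10)]

theorem E7_win10 : winChk 27 (2 ^ 100) 10 (fun a => E7lv.getD a 0) E7us 10 33554431 E7L10 = true := by
  decide +kernel

/-- window 11 -/
def E7L11 : List (ℕ × ℕ × ℕ) := [(67108863, 16, 10), (134217727, 17, 10)]

theorem E7_win11 : winChk 27 (2 ^ 100) 10 (fun a => E7lv.getD a 0) E7us 11 67108863 E7L11 = true := by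
  decide +kernel

/-- window 12 -/
def E7L12 : List (ℕ × ℕ × ℕ) := [(134217727, 17, 10)]

theorem E7_win12 : winChk 27 (2 ^ 100) 10 (fun a => E7lv.getD a 0) E7us 12 134217727 E7L12 = true := by
  decide +kernel

theorem E7_win8 : winChk3 27 (2 ^ 100) 10 (fun a => E7lv.getD a 0) E7us 8 134217727
    [(134217727, 17, 9)] = true := by
  decide +kernel

end Pool.Agent.GaussPoset.Cl
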