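import Pool.Agent.W_448cl_h67.ClF
import Pool.Agent.W_448fw_h5.FwP

/-!
Strips as coded posets.
-/

namespace Pool.Agent.GaussPoset.Cl

set_option linter.unusedSectionVars false

open Polynomial Finset

universe u

/-- a coded strip: the cell `a` is on the level `ll a` with the coordinate `sl a`; the rows are
`[los k, his k]`; `nn j` = number of cells on the levels `≤ j` -/
structure StripOK (N J : ℕ) (los his ll sl cv nn : ℕ → ℕ) : Prop where
  cov : ∀ a < N, ∀ b < N, (cv a).testBit b = true ↔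
    (ll b + 1 = ll a ∧ (sl b = sl a ∨ sl b + 1 = sl a))
  inj : ∀ a < N, ∀ b < N, ll a = ll b → sl a = sl b → a = b
  row : ∀ a < N, los (ll a) ≤ sl a ∧ sl a ≤ his (ll a)
  surj : ∀ k < J + 1, ∀ s < his k + 1, los k ≤ s → ∃ a < N, ll a = k ∧ sl a = s
  num : ∀ j < J + 1, ∀ a < N, a < nn j ↔ ll a ≤ j
  nle : ∀ j < J + 1, nn j ≤ N

/-- the check of a strip -/
def stripChk (N J : ℕ) (los his ll sl cv nn : ℕ → ℕ) : Bool :=
  ((List.range N).all fun a => (List.range N).all fun b => (cv a).testBit b ==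
    (Nat.beq (ll b + 1) (ll a) && (Nat.beq (sl b) (sl a) || Nat.beq (sl b + 1) (sl a)))) &&
  ((List.range N).all fun a => (List.range N).all fun b =>
    !(Nat.beq (ll a) (ll b) && Nat.beq (sl a) (sl b)) || Nat.beq a b) &&
  ((List.range N).all fun a => Nat.ble (los (ll a)) (sl a) && Nat.ble (sl a) (his (ll a))) &&
  ((List.range (J + 1)).all fun k => (List.range (his k + 1)).all fun s => Nat.blt s (los k) ||
    (List.range N).any fun a => Nat.beq (ll a) k && Nat.beq (sl a) s) &&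
  ((List.range (J + 1)).all fun j => (List.range N).all fun a => Nat.blt a (nn j) ==
    Nat.ble (ll a) j) &&
  ((List.range (J + 1)).all fun j => Nat.ble (nn j) N)

lemma beq_iff {a b : ℕ} : Nat.beq a b = true ↔ a = b :=
  ⟨Nat.eq_of_beq_eq_true, fun h => by rw [h]; exact Nat.beq_refl b⟩

lemma ble_iff {a b : ℕ} : Nat.ble a b = true ↔ a ≤ b :=
  ⟨Nat.le_of_ble_eq_true, Nat.ble_eq_true_of_le⟩

lemma stripOK_of_chk {N J : ℕ} {los his ll sl cv nn : ℕ → ℕ}
    (h : stripChk N J los his ll sl cv nn = true) : StripOK N J los his ll sl cv nn := by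
  unfold stripChk at h
  simp only [Bool.and_eq_true, List.all_eq_true, List.mem_range] at h
  obtain ⟨⟨⟨⟨⟨h1, h2⟩, h3⟩, h4⟩, h5⟩, h6⟩ := h
  refine ⟨?_, ?_, ?_, ?_, ?_, ?_⟩
  · intro a ha b hb
    have := h1 a ha b hb
    rw [beq_iff_eq] at this
    rw [this, Bool.and_eq_true, Bool.or_eq_true, beq_iff, beq_iff, beq_iff]
  · intro a ha b hb e1 e2
    have := h2 a ha b hb
    rw [beq_iff.mpr e1, beq_iff.mpr e2] at this
    exact beq_iff.mp (by simpa using this)
  · intro a ha
    have := h3 a ha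
    rw [ble_iff, ble_iff] at this
    exact this
  · intro k hk s hs hls
    have := h4 k hk s hs
    rw [Bool.or_eq_true, List.any_eq_true] at this
    rcases this with h7 | ⟨a, ha, h7⟩
    · rw [Nat.blt_eq] at h7
      omega
    · rw [Bool.and_eq_true, beq_iff, beq_iff] at h7
      exact ⟨a, List.mem_range.mp ha, h7.1, h7.2⟩
  · intro j hj a ha
    have := h5 j hj a ha
    rw [beq_iff_eq] at this
    rw [← Nat.blt_eq, this, ble_iff]
  · intro j hj
    exact ble_iff.mp (h6 j hj)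

variable {P : Type u} [Fintype P] [PartialOrder P] [DecidableEq P]
variable {r j N J : ℕ} {t : P} {lo hi : ℕ → ℕ} {e : ℕ → ℕ → P}
variable {los his ll sl cv nn : ℕ → ℕ}

/-- the strip of a component is coded -/
theorem StripOK.cod (S : StripOK N J los his ll sl cv nn) (C : Cp.Comp j t lo hi e) (H : Gr P r)
    (hg : ∀ l, l < j → Win.Good P l) (ht : lev t = 0) (hj : j ≤ J)
    (hlo : ∀ k, k ≤ j → lo k = los k) (hhi : ∀ k, k ≤ j → hi k = his k) :
    Cod (nn j) cv ll (fun a => e (ll a) (sl a)) := by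
  have hN := S.nle j (by omega)
  have hlev : ∀ a < nn j, ll a ≤ j := fun a ha => (S.num j (by omega) a (by omega)).mp ha
  have hrow : ∀ a < nn j, lo (ll a) ≤ sl a ∧ sl a ≤ hi (ll a) := fun a ha => by
    rw [hlo _ (hlev a ha), hhi _ (hlev a ha)]
    exact S.row a (by omega)
  have hl : ∀ a < nn j, GaussPoset.lev (e (ll a) (sl a)) = ll a := fun a ha =>
    C.lev_e _ _ (hlev a ha) (hrow a ha).1 (hrow a ha).2
  refine ⟨?_, ?_, hl⟩
  · intro a ha b hb h
    have h1 : ll a = ll b := by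
      rw [← hl a ha, ← hl b hb]
      exact congrArg GaussPoset.lev h
    refine S.inj a (by omega) b (by omega) h1 ?_
    have h2 := hrow a ha
    have h3 := hrow b hb
    have h4 := hlev b hb
    rw [h1] at h h2
    exact C.inj (ll b) _ _ h4 h2.1 h2.2 h3.1 h3.2 h
  · intro a ha y
    have h2 := hrow a ha
    have h3 := hlev a ha
    constructor
    · intro h
      have h0 : 1 ≤ ll a := by
        rw [← hl a ha]
        have := lev_strictAnti h.1
        omega
      obtain ⟨k, hk⟩ : ∃ k, ll a = k + 1 := ⟨ll a - 1, by omega⟩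
      rw [hk] at h h2
      obtain ⟨s', h4, h5, h6, h7⟩ := C.cov_up H hg ht (by omega) h2.1 h2.2 h
      obtain ⟨b, hb, h8, h9⟩ := S.surj k (by omega) s' (by
        have := hhi k (by omega); omega) (by have := hlo k (by omega); omega)
      refine ⟨b, ?_, ?_, ?_⟩
      · rw [S.num j (by omega) b hb]
        omega
      · rw [S.cov a (by omega) b hb]
        omega
      · rw [h8, h9, h6]
    · rintro ⟨b, hb, h4, rfl⟩
      rw [S.cov a (by omega) b (by omega)] at h4
      have h5 := hrow b hb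
      have h6 := C.cov (ll b) (sl a) (sl b) (by omega) (by rw [h4.1]; exact h2.1)
        (by rw [h4.1]; exact h2.2) h5.1 h5.2
      rw [h4.1] at h6
      exact h6.mpr h4.2

lemma StripOK.surj' (S : StripOK N J los his ll sl cv nn) (C : Cp.Comp j t lo hi e) (hj : j ≤ J)
    (hlo : ∀ k, k ≤ j → lo k = los k) (hhi : ∀ k, k ≤ j → hi k = his k) {x : P}
    (hx : x ∈ lowPart j t) : ∃ a < nn j, e (ll a) (sl a) = x := by
  rw [mem_lowPart] at hx
  obtain ⟨s, h1, h2, h3⟩ := C.surj x hx.1 hx.2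
  have h4 := hlo _ hx.2
  have h5 := hhi _ hx.2
  obtain ⟨a, ha, h6, h7⟩ := S.surj (GaussPoset.lev x) (by omega) s (by omega) (by omega)
  refine ⟨a, ?_, ?_⟩
  · rw [S.num j (by omega) a ha]
    omega
  · rw [h6, h7, h3]

/-- the base check: `bm` is generated by the cell `a0` and the levels `≤ i` -/
def baseChk (N J i a0 bm : ℕ) (ll cv nn : ℕ → ℕ) : Bool :=
  ((List.range N).all fun a => !(bm.testBit a) || Nat.ble (ll a) i || Nat.beq a a0 ||
    (List.range N).any fun b => Nat.blt a b && bm.testBit b && (cv b).testBit a) &&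
  ((List.range (J + 1)).all fun j => Nat.blt j (ll a0) || Nat.blt bm (2 ^ nn j)) &&
  (Nat.ble i (ll a0) && Nat.blt a0 N && Nat.ble (ll a0) J)

/-- the base generates the code `bm` -/
lemma StripOK.base_mem (S : StripOK N J los his ll sl cv nn) (C : Cp.Comp j t lo hi e)
    (H : Gr P r) (hg : ∀ l, l < j → Win.Good P l) (ht : lev t = 0) (hj : j ≤ J)
    (hlo : ∀ k, k ≤ j → lo k = los k) (hhi : ∀ k, k ≤ j → hi k = his k) {i bm a0 : ℕ}
    (hb : baseChk N J i a0 bm ll cv nn = true)
    (haj : ll a0 ≤ j) {U : Finset P}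
    (hup : ∀ x ∈ U, ∀ y, x ≤ y → y ∈ U) (hlow : ∀ x ∈ lowPart j t, lev x ≤ i → x ∈ U)
    (hbase : e (ll a0) (sl a0) ∈ U) :
    bm < 2 ^ nn j ∧ ∀ a < nn j, bm.testBit a = true → e (ll a) (sl a) ∈ U := by
  have hC := S.cod C H hg ht hj hlo hhi
  have hN := S.nle j (by omega)
  unfold baseChk at hb
  simp only [Bool.and_eq_true, List.all_eq_true, List.mem_range, Bool.or_eq_true, ble_iff,
    beq_iff, Nat.blt_eq, List.any_eq_true] at hb
  obtain ⟨⟨h1, h2⟩, ⟨h3, h4⟩, h5⟩ := hb
  have h6 : bm < 2 ^ nn j := by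
    rcases h2 j (by omega) with h | h
    · omega
    · exact h
  have hlt : ∀ a, bm.testBit a = true → a < nn j := by
    intro a ha
    by_contra hcon
    rw [Nat.testBit_lt_two_pow (lt_of_lt_of_le h6 (Nat.pow_le_pow_right (by norm_num)
      (by omega)))] at ha
    exact absurd ha (by simp)
  refine ⟨h6, ?_⟩
  have key : ∀ d a, a < nn j → nn j - a = d → bm.testBit a = true → e (ll a) (sl a) ∈ U := by
    intro d
    induction d using Nat.strong_induction_on with
    | _ d ih =>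
      intro a ha hd hba
      have hla : ll a ≤ j := (S.num j (by omega) a (by omega)).mp ha
      rcases h1 a (by omega) with ((h | h) | h) | ⟨b, hbN, ⟨h7, h8⟩, h9⟩
      · rw [hba] at h; exact absurd h (by simp)
      · refine hlow _ ?_ ?_
        · have hr := S.row a (by omega)
          rw [← hlo _ hla, ← hhi _ hla] at hr
          rw [mem_lowPart, C.lev_e _ _ hla hr.1 hr.2]
          exact ⟨C.le_t _ _ hla hr.1 hr.2, hla⟩
        · rw [hC.lev a ha]; exact h
      · rw [h]; exact hbase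
      · have hbn := hlt b h8
        have h10 := ih (nn j - b) (by omega) b hbn rfl h8
        exact hup _ h10 _ ((hC.cov b hbn _).mpr ⟨a, ha, h9, rfl⟩).le
  exact fun a ha hba => key _ a ha rfl hba

/-- **Order two for the up-sets of a strip above the base.** -/
theorem StripOK.clean (S : StripOK N J los his ll sl cv nn) (C : Cp.Comp j t lo hi e)
    (H : Gr P r) (hg : ∀ l, l < j → Win.Good P l) (ht : lev t = 0) (hj : j ≤ J)
    (hlo : ∀ k, k ≤ j → lo k = los k) (hhi : ∀ k, k ≤ j → hi k = his k) {Us : List ℕ}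
    (hU : UsOK N cv Us) {B i K bm a0 : ℕ} {L : List (ℕ × ℕ × ℕ)}
    (hw : winChk N B K ll Us i bm L = true) (hb : baseChk N J i a0 bm ll cv nn = true)
    (haj : ll a0 ≤ j) {U : Finset P} (hUN : U ⊆ lowPart j t)
    (hup : ∀ x ∈ U, ∀ y, x ≤ y → y ∈ U) (hlow : ∀ x ∈ lowPart j t, lev x ≤ i → x ∈ U)
    (hbase : e (ll a0) (sl a0) ∈ U) :
    (1 + X : Polynomial (PowerSeries ℤ)) ^ 2 ∣ W {x : P // x ∈ U} i := by
  obtain ⟨h1, h2⟩ := S.base_mem C H hg ht hj hlo hhi hb haj hup hlow hbase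
  exact (S.cod C H hg ht hj hlo hhi).clean_of hU (S.nle j (by omega)) hw
    (fun x hx => S.surj' C hj hlo hhi (hUN hx)) hup h1 h2

/-- **Order three for the up-sets of a strip above the base.** -/
theorem StripOK.clean3 (S : StripOK N J los his ll sl cv nn) (C : Cp.Comp j t lo hi e)
    (H : Gr P r) (hg : ∀ l, l < j → Win.Good P l) (ht : lev t = 0) (hj : j ≤ J)
    (hlo : ∀ k, k ≤ j → lo k = los k) (hhi : ∀ k, k ≤ j → hi k = his k) {Us : List ℕ}
    (hU : UsOK N cv Us) {B i K bm a0 : ℕ} {L : List (ℕ × ℕ × ℕ)}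
    (hw : winChk3 N B K ll Us i bm L = true) (hb : baseChk N J i a0 bm ll cv nn = true)
    (haj : ll a0 ≤ j) {U : Finset P} (hUN : U ⊆ lowPart j t)
    (hup : ∀ x ∈ U, ∀ y, x ≤ y → y ∈ U) (hlow : ∀ x ∈ lowPart j t, lev x ≤ i → x ∈ U)
    (hbase : e (ll a0) (sl a0) ∈ U) :
    (1 + X : Polynomial (PowerSeries ℤ)) ^ 3 ∣ W {x : P // x ∈ U} i := by
  obtain ⟨h1, h2⟩ := S.base_mem C H hg ht hj hlo hhi hb haj hup hlow hbase
  exact (S.cod C H hg ht hj hlo hhi).clean_of3 hU (S.nle j (by omega)) hw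
    (fun x hx => S.surj' C hj hlo hhi (hUN hx)) hup h1 h2

end Pool.Agent.GaussPoset.Cl
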