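import Pool.Agent.W_448cl_h67.ClG
import Pool.Agent.W_448cl_h67.ClH
import Pool.Agent.W_448cl_h67.ClI
import Pool.Agent.W_448wd_h84.WdI

/-!
The strips of the words `E6` and `E7`.
-/

namespace Pool.Agent.GaussPoset.Cl

set_option linter.unusedSectionVars false

open Polynomial Finset Wd

universe u

/-- the left ends of a word after the trunk -/
def losW (a : ℕ) (w : List Ltr) (k : ℕ) : ℕ :=
  if k < a then 0 else (w.take (k - a)).countP (fun l => l.1)

/-- the right ends of a word after the trunk -/
def hisW (a : ℕ) (w : List Ltr) (k : ℕ) : ℕ :=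
  if k < a then 0 else 1 + (w.take (k - a)).countP (fun l => l.2)

section Rows

variable {lo hi : ℕ → ℕ} {j a : ℕ} {w : List Ltr}

lemma take_word (h : word lo hi a (j - a) = w.take (j - a)) {m : ℕ} (hm : a + m ≤ j) :
    w.take m = word lo hi a m := by
  have h1 : w.take m = (w.take (j - a)).take m := by
    rw [List.take_take, Nat.min_eq_left (by omega)]
  rw [h1, ← h, word_take (by omega)]

lemma lo_of_word (hlo : ∀ k, k < j → lo (k + 1) = lo k ∨ lo (k + 1) = lo k + 1)
    (h : word lo hi a (j - a) = w.take (j - a)) : ∀ m, a + m ≤ j →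
    lo (a + m) = lo a + (w.take m).countP (fun l => l.1) := by
  intro m hm
  rw [take_word h hm]
  induction m with
  | zero => simp [word]
  | succ m ih =>
    rw [word_succ, List.countP_append, ← Nat.add_assoc, ← Nat.add_assoc, ← ih (by omega)]
    rcases hlo (a + m) (by omega) with h3 | h3
    · simp [h3]
    · simp [h3]

lemma hi_of_word (hhi : ∀ k, k < j → hi (k + 1) = hi k ∨ hi (k + 1) = hi k + 1)
    (h : word lo hi a (j - a) = w.take (j - a)) : ∀ m, a + m ≤ j →
    hi (a + m) = hi a + (w.take m).countP (fun l => l.2) := by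
  intro m hm
  rw [take_word h hm]
  induction m with
  | zero => simp [word]
  | succ m ih =>
    rw [word_succ, List.countP_append, ← Nat.add_assoc, ← Nat.add_assoc, ← ih (by omega)]
    rcases hhi (a + m) (by omega) with h3 | h3
    · simp [h3]
    · simp [h3]

lemma rows_of_word (hlo : ∀ k, k < j → lo (k + 1) = lo k ∨ lo (k + 1) = lo k + 1)
    (hhi : ∀ k, k < j → hi (k + 1) = hi k ∨ hi (k + 1) = hi k + 1)
    (h2 : ∀ k, k < a → lo k = 0 ∧ hi k = 0) (h3 : lo a = 0 ∧ hi a = 1)
    (h : word lo hi a (j - a) = w.take (j - a)) :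
    (∀ k, k ≤ j → lo k = losW a w k) ∧ (∀ k, k ≤ j → hi k = hisW a w k) := by
  constructor
  · intro k hk
    unfold losW
    split_ifs with hka
    · exact (h2 k hka).1
    · have := lo_of_word hlo h (k - a) (by omega)
      rw [show a + (k - a) = k by omega, h3.1, Nat.zero_add] at this
      exact this
  · intro k hk
    unfold hisW
    split_ifs with hka
    · exact (h2 k hka).2
    · have := hi_of_word hhi h (k - a) (by omega)
      rw [show a + (k - a) = k by omega, h3.2] at this
      exact this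

end Rows

/-- the word of `E6` -/
def w6 : List Ltr := [OC, CO, CO, OC, CC, OC, OC]

/-- the word of `E7` -/
def w7 : List Ltr := [OC, CO, CO, OO, CC, OC, OC, CO, CC, OC, OC, OC]

/-- the coordinates of the cells -/
def E6sl : List ℕ := [0, 0, 0, 0, 1, 0, 1, 1, 2, 2, 3, 2, 3, 3, 3, 3]

/-- the coordinates of the cells -/
def E7sl : List ℕ := [0, 0, 0, 0, 0, 1, 0, 1, 1, 2, 2, 3, 2, 3, 4, 3, 4, 3, 4, 3, 4, 4, 5, 5, 5, 5, 5]

/-- the numbers of cells -/
def E6nn : List ℕ := [1, 2, 3, 5, 7, 9, 11, 13, 14, 15, 16]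

/-- the numbers of cells -/
def E7nn : List ℕ := [1, 2, 3, 4, 6, 8, 10, 12, 15, 17, 19, 21, 23, 24, 25, 26, 27]

theorem E6_strip : StripOK 16 10 (losW 3 w6) (hisW 3 w6) (fun a => E6lv.getD a 0)
    (fun a => E6sl.getD a 0) (fun a => E6cv.getD a 0) (fun a => E6nn.getD a 0) :=
  stripOK_of_chk (by decide +kernel)

theorem E7_strip : StripOK 27 16 (losW 4 w7) (hisW 4 w7) (fun a => E7lv.getD a 0)
    (fun a => E7sl.getD a 0) (fun a => E7cv.getD a 0) (fun a => E7nn.getD a 0) :=
  stripOK_of_chk (by decide +kernel)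

theorem E6_b3 : baseChk 16 10 3 10 1375 (fun a => E6lv.getD a 0) (fun a => E6cv.getD a 0)
    (fun a => E6nn.getD a 0) = true := by decide +kernel
theorem E6_b4 : baseChk 16 10 4 12 6143 (fun a => E6lv.getD a 0) (fun a => E6cv.getD a 0)
    (fun a => E6nn.getD a 0) = true := by decide +kernel
theorem E6_b5 : baseChk 16 10 5 13 16383 (fun a => E6lv.getD a 0) (fun a => E6cv.getD a 0)
    (fun a => E6nn.getD a 0) = true := by decide +kernel
theorem E6_b6 : baseChk 16 10 6 14 32767 (fun a => E6lv.getD a 0) (fun a => E6cv.getD a 0)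
    (fun a => E6nn.getD a 0) = true := by decide +kernel
theorem E6_b7 : baseChk 16 10 7 15 65535 (fun a => E6lv.getD a 0) (fun a => E6cv.getD a 0)
    (fun a => E6nn.getD a 0) = true := by decide +kernel

theorem E7_b4 : baseChk 27 16 4 14 19135 (fun a => E7lv.getD a 0) (fun a => E7cv.getD a 0)
    (fun a => E7nn.getD a 0) = true := by decide +kernel
theorem E7_b5 : baseChk 27 16 5 16 94207 (fun a => E7lv.getD a 0) (fun a => E7cv.getD a 0)
    (fun a => E7nn.getD a 0) = true := by decide +kernel
theorem E7_b6 : baseChk 27 16 6 18 393215 (fun a => E7lv.getD a 0) (fun a => E7cv.getD a 0)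
    (fun a => E7nn.getD a 0) = true := by decide +kernel
theorem E7_b7 : baseChk 27 16 7 20 1572863 (fun a => E7lv.getD a 0) (fun a => E7cv.getD a 0)
    (fun a => E7nn.getD a 0) = true := by decide +kernel
theorem E7_b8 : baseChk 27 16 8 26 134217727 (fun a => E7lv.getD a 0) (fun a => E7cv.getD a 0)
    (fun a => E7nn.getD a 0) = true := by decide +kernel
theorem E7_b9 : baseChk 27 16 9 23 16777215 (fun a => E7lv.getD a 0) (fun a => E7cv.getD a 0)
    (fun a => E7nn.getD a 0) = true := by decide +kernel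
theorem E7_b10 : baseChk 27 16 10 24 33554431 (fun a => E7lv.getD a 0) (fun a => E7cv.getD a 0)
    (fun a => E7nn.getD a 0) = true := by decide +kernel
theorem E7_b11 : baseChk 27 16 11 25 67108863 (fun a => E7lv.getD a 0) (fun a => E7cv.getD a 0)
    (fun a => E7nn.getD a 0) = true := by decide +kernel
theorem E7_b12 : baseChk 27 16 12 26 134217727 (fun a => E7lv.getD a 0) (fun a => E7cv.getD a 0)
    (fun a => E7nn.getD a 0) = true := by decide +kernel

end Pool.Agent.GaussPoset.Cl
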