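import Pool.Agent.W_448cl_h67.ClK

/-!
Natural sets of the late components `E6` and `E7`.
-/

namespace Pool.Agent.GaussPoset.Cl

set_option linter.unusedSectionVars false

open Polynomial Finset Wd

universe u

lemma late3_words : ∀ w ∈ lateW 3, 5 ≤ w.length → w = w6.take w.length ∧ w.length ≤ 7 := by
  decide +kernel

lemma late4_words : ∀ w ∈ lateW 4, 5 ≤ w.length → w.length ≠ 6 →
    w = w7.take w.length ∧ w.length ≤ 12 := by decide +kernel

variable {P : Type u} [Fintype P] [PartialOrder P] [DecidableEq P]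
variable {r j : ℕ} {lo hi : ℕ → ℕ} {e : ℕ → ℕ → P}

/-- a late component with `a = 3`, `8 ≤ j`, is `E6` -/
theorem wordD_three (D : LateD j 3 lo hi) (hj : 8 ≤ j) : WordD j 3 w6 lo hi ∧ j ≤ 10 := by
  rcases D.h4 with h | h
  · omega
  · obtain ⟨h1, h2⟩ := late3_words _ h (by rw [word_length]; omega)
    rw [word_length] at h1 h2
    exact ⟨⟨D.h2, D.h3, h1⟩, by omega⟩

/-- a late component with `a = 4`, `j = 9` or `11 ≤ j`, is `E7` -/
theorem wordD_four (D : LateD j 4 lo hi) (hj : 9 ≤ j) (hj' : j ≠ 10) :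
    WordD j 4 w7 lo hi ∧ j ≤ 16 := by
  rcases D.h4 with h | h
  · omega
  · obtain ⟨h1, h2⟩ := late4_words _ h (by rw [word_length]; omega)
      (by rw [word_length]; omega)
    rw [word_length] at h1 h2
    exact ⟨⟨D.h2, D.h3, h1⟩, by omega⟩

lemma row6 : ∀ i, i < 8 → 3 ≤ i → losW 3 w6 (i + 3) ≤ 3 ∧ 3 ≤ hisW 3 w6 (i + 3) := by
  decide +kernel

lemma row7 : ∀ i, i < 8 → 4 ≤ i → losW 4 w7 (i + 4) ≤ 4 ∧ 4 ≤ hisW 4 w7 (i + 4) := by
  decide +kernel

lemma row7' : ∀ i, i < 13 → 9 ≤ i → losW 4 w7 (i + 4) ≤ 5 ∧ 5 ≤ hisW 4 w7 (i + 4) := by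
  decide +kernel

section

variable {t : Tops P}

/-- natural set from the order at a cell -/
theorem CleanAt.natTop_cell (C : Cp.Comp j (t : P) lo hi e) (H : Gr P r)
    (hg : ∀ l, l < j → Win.Good P l) (hgr : GradedBelow P) {i b k s : ℕ}
    (h : CleanAt i b (lowPart j (t : P)) (e k s)) (hik : i ≤ k) (hkj : k ≤ j) (h1 : lo k ≤ s)
    (h2 : s ≤ hi k) :
    NatTop i t b (lowPart j (t : P)) (fun x => lev x - k) (fun x => x = e k s) := by
  have hl := C.lev_e k s hkj h1 h2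
  have h3 := h.natTop H hg hgr (mem_lowPart.mpr ⟨C.le_t k s hkj h1 h2, by omega⟩) (by omega)
  rw [hl] at h3
  exact h3

/-- **`E6` at the windows `3 ≤ i ≤ 7`.** -/
theorem natTop_E6 (D : WordD j 3 w6 lo hi) (C : Cp.Comp j (t : P) lo hi e) (H : Gr P r)
    (hg : ∀ l, l < j → Win.Good P l) (hgr : GradedBelow P) {i : ℕ} (h3 : 3 ≤ i)
    (hij : i + 3 ≤ j) (hj : j ≤ 10) :
    NatTop i t 2 (lowPart j (t : P)) (fun x => lev x - (i + 3)) (fun x => x = e (i + 3) 3) := by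
  have h1 := row6 i (by omega) h3
  obtain ⟨h4, h5⟩ := D.rows C
  rw [← h4 (i + 3) hij, ← h5 (i + 3) hij] at h1
  exact (E6_clean D C H hg t.2 h3 hij hj).natTop_cell C H hg hgr (by omega) hij h1.1 h1.2

/-- **`E7` at the windows `4 ≤ i ≤ 7`.** -/
theorem natTop_E7 (D : WordD j 4 w7 lo hi) (C : Cp.Comp j (t : P) lo hi e) (H : Gr P r)
    (hg : ∀ l, l < j → Win.Good P l) (hgr : GradedBelow P) {i : ℕ} (h3 : 4 ≤ i) (h7 : i ≤ 7)
    (hij : i + 4 ≤ j) (hj : j ≤ 16) :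
    NatTop i t 2 (lowPart j (t : P)) (fun x => lev x - (i + 4)) (fun x => x = e (i + 4) 4) := by
  have h1 := row7 i (by omega) h3
  obtain ⟨h4, h5⟩ := D.rows C
  rw [← h4 (i + 4) hij, ← h5 (i + 4) hij] at h1
  exact (E7_clean D C H hg t.2 h3 h7 hij hj).natTop_cell C H hg hgr (by omega) hij h1.1 h1.2

/-- **`E7` at the windows `9 ≤ i ≤ 12`.** -/
theorem natTop_E7' (D : WordD j 4 w7 lo hi) (C : Cp.Comp j (t : P) lo hi e) (H : Gr P r)
    (hg : ∀ l, l < j → Win.Good P l) (hgr : GradedBelow P) {i : ℕ} (h9 : 9 ≤ i)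
    (hij : i + 4 ≤ j) (hj : j ≤ 16) :
    NatTop i t 2 (lowPart j (t : P)) (fun x => lev x - (i + 4)) (fun x => x = e (i + 4) 5) := by
  have h1 := row7' i (by omega) h9
  obtain ⟨h4, h5⟩ := D.rows C
  rw [← h4 (i + 4) hij, ← h5 (i + 4) hij] at h1
  exact (E7_clean' D C H hg t.2 h9 hij hj).natTop_cell C H hg hgr (by omega) hij h1.1 h1.2

/-- **The complete `E7` at the window `8`.** -/
theorem natTop_E7_8 (D : WordD 16 4 w7 lo hi) (C : Cp.Comp 16 (t : P) lo hi e) (H : Gr P r)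
    (hg : ∀ l, l < 16 → Win.Good P l) (hgr : GradedBelow P) :
    NatTop 8 t 3 (lowPart 16 (t : P)) (fun x => lev x - 16) (fun x => x = e 16 5) := by
  obtain ⟨h4, h5⟩ := D.rows C
  have h1 : losW 4 w7 16 ≤ 5 ∧ 5 ≤ hisW 4 w7 16 := by decide +kernel
  rw [← h4 16 le_rfl, ← h5 16 le_rfl] at h1
  exact (E7_clean8 D C H hg t.2).natTop_cell C H hg hgr (by omega) le_rfl h1.1 h1.2

/-- the late component `a = 3` at `j = 10`, window `3` -/
theorem natTop_late3 (D : LateD 10 3 lo hi) (C : Cp.Comp 10 (t : P) lo hi e) (H : Gr P r)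
    (hg : ∀ l, l < 10 → Win.Good P l) (hgr : GradedBelow P) :
    NatTop 3 t 2 (lowPart 10 (t : P)) (fun x => lev x - 6) (fun x => x = e 6 3) :=
  natTop_E6 (wordD_three D (by omega)).1 C H hg hgr (i := 3) le_rfl (by omega) (by omega)

/-- the late components `a = 4`, `j = 9` or `11 ≤ j`, at window `4` -/
theorem natTop_late4 (D : LateD j 4 lo hi) (hj : 9 ≤ j) (hj' : j ≠ 10)
    (C : Cp.Comp j (t : P) lo hi e) (H : Gr P r) (hg : ∀ l, l < j → Win.Good P l)
    (hgr : GradedBelow P) :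
    NatTop 4 t 2 (lowPart j (t : P)) (fun x => lev x - 8) (fun x => x = e 8 4) :=
  natTop_E7 (wordD_four D hj hj').1 C H hg hgr (i := 4) le_rfl (by omega) (by omega)
    (wordD_four D hj hj').2

end

end Pool.Agent.GaussPoset.Cl
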