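import Pool.Agent.W_448cl_h67.ClL

/-!
Natural sets from a checked strip.
-/

namespace Pool.Agent.GaussPoset.Cl

set_option linter.unusedSectionVars false

open Polynomial Finset Wd

universe u

variable {P : Type u} [Fintype P] [PartialOrder P] [DecidableEq P]
variable {r j : ℕ} {t : Tops P} {lo hi : ℕ → ℕ} {e : ℕ → ℕ → P}

/-- exact divisibility from a checked strip -/
theorem StripOK.cleanAt {N J a : ℕ} {w : List Ltr} {ll sl cv nn : ℕ → ℕ}
    (S : StripOK N J (losW a w) (hisW a w) ll sl cv nn) {Us : List ℕ} (hU : UsOK N cv Us)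
    {B i K bm a0 : ℕ} {L : List (ℕ × ℕ × ℕ)} (hw : winChk N B K ll Us i bm L = true)
    (hb : baseChk N J i a0 bm ll cv nn = true) (D : WordD j a w lo hi)
    (C : Cp.Comp j (t : P) lo hi e) (H : Gr P r) (hg : ∀ l, l < j → Win.Good P l) (hj : j ≤ J)
    (hk : ll a0 ≤ j) : CleanAt i 2 (lowPart j (t : P)) (e (ll a0) (sl a0)) := by
  obtain ⟨h1, h2⟩ := D.rows C
  intro U hUN hup hlow hbase
  exact S.clean C H hg t.2 hj h1 h2 hU hw hb hk hUN hup hlow hbase

/-- natural set from a checked strip -/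
theorem StripOK.natTop {N J a : ℕ} {w : List Ltr} {ll sl cv nn : ℕ → ℕ}
    (S : StripOK N J (losW a w) (hisW a w) ll sl cv nn) {Us : List ℕ} (hU : UsOK N cv Us)
    {B i K bm a0 : ℕ} {L : List (ℕ × ℕ × ℕ)} (hw : winChk N B K ll Us i bm L = true)
    (hb : baseChk N J i a0 bm ll cv nn = true) (D : WordD j a w lo hi)
    (C : Cp.Comp j (t : P) lo hi e) (H : Gr P r) (hg : ∀ l, l < j → Win.Good P l)
    (hgr : GradedBelow P) (hj : j ≤ J) (hk : ll a0 ≤ j) :
    NatTop i t 2 (lowPart j (t : P)) (fun x => lev x - ll a0)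
      (fun x => x = e (ll a0) (sl a0)) := by
  have h0 : i ≤ ll a0 ∧ a0 < N := by
    have hb' := hb
    unfold baseChk at hb'
    simp only [Bool.and_eq_true, ble_iff, Nat.blt_eq] at hb'
    exact ⟨hb'.2.1.1, hb'.2.1.2⟩
  obtain ⟨h1, h2⟩ := D.rows C
  have h3 := S.row a0 h0.2
  rw [← h1 _ hk, ← h2 _ hk] at h3
  exact (S.cleanAt hU hw hb D C H hg hj hk).natTop_cell C H hg hgr h0.1 hk h3.1 h3.2

end Pool.Agent.GaussPoset.Cl
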