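import Pool.Agent.W_448cl_h67.ClM

/-!
The word `OC CO CO OO CC CO` at level 10: the strip without the last cell.
-/

namespace Pool.Agent.GaussPoset.Cl

open Finset Wd

/-- the word -/
def w4d : List Ltr := [OC, CO, CO, OO, CC, CO]

/-- the up-sets -/
def L4dus : List ℕ := [262143, 131071, 98303, 94207, 65535, 49151, 32767, 28671, 24575, 20479, 19455, 19199, 19135, 16383, 12287, 8191, 6143, 4095, 3071, 2815, 2751, 2047, 1023, 767, 703, 511, 255, 191, 127, 95, 63, 47, 31, 15, 7, 3, 1, 0]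

/-- the covers -/
def L4dcv : List ℕ := [0, 1, 2, 4, 8, 8, 16, 48, 192, 128, 768, 512, 1024, 3072, 2048, 12288, 24576, 98304, 65536]

/-- the levels -/
def L4dlv : List ℕ := [0, 1, 2, 3, 4, 4, 5, 5, 6, 6, 7, 7, 8, 8, 8, 9, 9, 10, 10]

/-- the coordinates -/
def L4dsl : List ℕ := [0, 0, 0, 0, 0, 1, 0, 1, 1, 2, 2, 3, 2, 3, 4, 3, 4, 4, 5]

/-- the numbers of cells -/
def L4dnn : List ℕ := [1, 2, 3, 4, 6, 8, 10, 12, 15, 17, 19]

theorem L4d_us : UsOK 18 (fun a => L4dcv.getD a 0) L4dus :=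
  usOK_of_chk (by decide +kernel)

theorem L4d_strip : StripOK 19 10 (losW 4 w4d) (hisW 4 w4d) (fun a => L4dlv.getD a 0)
    (fun a => L4dsl.getD a 0) (fun a => L4dcv.getD a 0) (fun a => L4dnn.getD a 0) :=
  stripOK_of_chk (by decide +kernel)

/-- window 4 -/
def L4dL4 : List (ℕ × ℕ × ℕ) := [(19135, 9, 1), (19199, 9, 2), (19455, 9, 3), (20479, 9, 4), (24575, 9, 5), (28671, 9, 5), (32767, 9, 6), (65535, 10, 6), (94207, 10, 5), (98303, 10, 6), (131071, 10, 7), (262143, 11, 7)]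

theorem L4d_win4 : winChk 18 (2 ^ 100) 7 (fun a => L4dlv.getD a 0) L4dus 4 19135 L4dL4 = true := by
  decide +kernel

theorem L4d_b4 : baseChk 19 10 4 14 19135 (fun a => L4dlv.getD a 0) (fun a => L4dcv.getD a 0)
    (fun a => L4dnn.getD a 0) = true := by decide +kernel

/-- window 5 -/
def L4dL5 : List (ℕ × ℕ × ℕ) := [(94207, 10, 5), (98303, 10, 6), (131071, 10, 7), (262143, 11, 7)]

theorem L4d_win5 : winChk 18 (2 ^ 100) 7 (fun a => L4dlv.getD a 0) L4dus 5 94207 L4dL5 = true := by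
  decide +kernel

theorem L4d_b5 : baseChk 19 10 5 16 94207 (fun a => L4dlv.getD a 0) (fun a => L4dcv.getD a 0)
    (fun a => L4dnn.getD a 0) = true := by decide +kernel

/-- a smaller code -/
lemma Cod.restrict {P : Type*} [Fintype P] [PartialOrder P] [DecidableEq P] {n n' : ℕ}
    {cv lv : ℕ → ℕ} {c : ℕ → P} (C : Cod n cv lv c) (h : n' ≤ n)
    (hcv : ∀ a < n', cv a < 2 ^ n') : Cod n' cv lv c where
  inj := fun a ha b hb => C.inj a (by omega) b (by omega)
  cov := by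
    intro a ha y
    rw [C.cov a (by omega) y]
    constructor
    · rintro ⟨b, hb, h1, h2⟩
      refine ⟨b, ?_, h1, h2⟩
      by_contra hcon
      rw [Nat.testBit_lt_two_pow (lt_of_lt_of_le (hcv a ha) (Nat.pow_le_pow_right (by norm_num)
        (by omega)))] at h1
      exact absurd h1 (by simp)
    · rintro ⟨b, hb, h1, h2⟩
      exact ⟨b, by omega, h1, h2⟩
  lev := fun a ha => C.lev a (by omega)

section

universe u

variable {P : Type u} [Fintype P] [PartialOrder P] [DecidableEq P]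
variable {r : ℕ} {t : P} {lo hi : ℕ → ℕ} {e : ℕ → ℕ → P}

/-- order two above the base, without the last cell -/
theorem dead_clean (D : WordD 10 4 w4d lo hi) (C : Cp.Comp 10 t lo hi e) (H : Gr P r)
    (hg : ∀ l, l < 10 → Win.Good P l) (ht : lev t = 0) {i : ℕ} (h4 : 4 ≤ i) (h5 : i ≤ 5) :
    CleanAt i 2 ((lowPart 10 t).erase (e 10 5)) (e (i + 4) 4) := by
  obtain ⟨h1, h2⟩ := D.rows C
  have hC := L4d_strip.cod C H hg ht le_rfl h1 h2
  have hcv : ∀ a < 18, L4dcv.getD a 0 < 2 ^ 18 := by decide +kernel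
  have hR := hC.restrict (n' := 18) (by decide +kernel) hcv
  intro U hUN hup hlow hbase
  have hlow' : ∀ x ∈ lowPart 10 t, lev x ≤ i → x ∈ U := by
    intro x hx hl
    refine hlow x (mem_erase.mpr ⟨?_, hx⟩) hl
    rintro rfl
    have hl10 : lev (e 10 5) = 10 := by
      have h6 := hC.lev 18 (by decide +kernel)
      exact h6
    omega
  have hin : ∀ x ∈ U, ∃ a < 18, (fun a => e (L4dlv.getD a 0) (L4dsl.getD a 0)) a = x := by
    intro x hx
    have hx' := mem_erase.mp (hUN hx)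
    obtain ⟨a, ha, h6⟩ := L4d_strip.surj' C le_rfl h1 h2 hx'.2
    have ha' : a < 19 := ha
    refine ⟨a, ?_, h6⟩
    by_contra hcon
    have h7 : a = 18 := by omega
    subst h7
    exact hx'.1 h6.symm
  obtain rfl | rfl : i = 4 ∨ i = 5 := by omega
  · obtain ⟨h6, h7⟩ := L4d_strip.base_mem C H hg ht le_rfl h1 h2 L4d_b4 (by show 8 ≤ 10; omega)
      hup hlow' hbase
    exact hR.clean_of L4d_us le_rfl L4d_win4 hin hup (by norm_num)
      (fun a ha hb => h7 a (lt_of_lt_of_le ha (by decide +kernel)) hb)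
  · obtain ⟨h6, h7⟩ := L4d_strip.base_mem C H hg ht le_rfl h1 h2 L4d_b5 (by show 9 ≤ 10; omega)
      hup hlow' hbase
    exact hR.clean_of L4d_us le_rfl L4d_win5 hin hup (by norm_num)
      (fun a ha hb => h7 a (lt_of_lt_of_le ha (by decide +kernel)) hb)

end

section

universe u

variable {P : Type u} [Fintype P] [PartialOrder P] [DecidableEq P]
variable {r : ℕ} {t : Tops P} {lo hi : ℕ → ℕ} {e : ℕ → ℕ → P}

/-- the natural set without the last cell -/
theorem natTop_dead (D : WordD 10 4 w4d lo hi) (C : Cp.Comp 10 (t : P) lo hi e) (H : Gr P r)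
    (hg : ∀ l, l < 10 → Win.Good P l) (hgr : GradedBelow P) {i : ℕ} (h4 : 4 ≤ i) (h5 : i ≤ 5) :
    NatTop i t 2 ((lowPart 10 (t : P)).erase (e 10 5)) (fun x => lev x - (i + 4))
      (fun x => x = e (i + 4) 4) := by
  obtain ⟨h1, h2⟩ := D.rows C
  have hrow : ∀ i, i < 6 → 4 ≤ i → losW 4 w4d (i + 4) ≤ 4 ∧ 4 ≤ hisW 4 w4d (i + 4) := by
    decide +kernel
  have hr := hrow i (by omega) h4
  rw [← h1 (i + 4) (by omega), ← h2 (i + 4) (by omega)] at hr
  have hl := C.lev_e (i + 4) 4 (by omega) hr.1 hr.2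
  have hrl : losW 4 w4d 10 ≤ 5 ∧ 5 ≤ hisW 4 w4d 10 := by decide +kernel
  rw [← h1 10 le_rfl, ← h2 10 le_rfl] at hrl
  have hl10 := C.lev_e 10 5 le_rfl hrl.1 hrl.2
  have hx0 : e (i + 4) 4 ∈ (lowPart 10 (t : P)).erase (e 10 5) := by
    rw [mem_erase, mem_lowPart, hl]
    refine ⟨?_, C.le_t _ _ (by omega) hr.1 hr.2, by omega⟩
    intro h
    rw [h, hl10] at hl
    omega
  have h3 := (dead_clean D C H hg t.2 h4 h5).loc_lev hgr hx0 (by omega)
  rw [hl] at h3
  refine h3.natTop ?_ ?_ ?_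
  · intro x hx y hxy
    rw [mem_erase, mem_lowPart] at hx ⊢
    have hyl : lev y ≤ lev x := by
      rcases eq_or_lt_of_le hxy with h | h
      · rw [h]
      · exact (lev_strictAnti h).le
    refine ⟨?_, Cp.up_le H hg t.2 hx.2.1 hx.2.2 hxy, by omega⟩
    rintro rfl
    rcases eq_or_lt_of_le hxy with h | h
    · exact hx.1 h
    · have := lev_strictAnti h
      omega
  · exact fun x hx => (mem_lowPart.mp (mem_erase.mp hx).2).1
  · intro x hx hxi
    rw [mem_erase, mem_lowPart]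
    refine ⟨?_, hx, by omega⟩
    rintro rfl
    omega

end

end Pool.Agent.GaussPoset.Cl
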