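import Pool.Agent.W_448cl_h67.ClM

/-!
Thresholds of a strip by a table.
-/

namespace Pool.Agent.GaussPoset.Cl

set_option linter.unusedSectionVars false

open Polynomial Finset Wd

universe u

/-- the union of the masks of the cells in `m` -/
def orM (um : ℕ → ℕ) : ℕ → ℕ → ℕ
  | 0, _ => 0
  | n + 1, m => Nat.lor (orM um n m) (bif m.testBit n then um n else 0)

lemma orM_testBit (um : ℕ → ℕ) (n m k : ℕ) :
    (orM um n m).testBit k = true ↔ ∃ b < n, m.testBit b = true ∧ (um b).testBit k = true := by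
  induction n with
  | zero => simp [orM]
  | succ n ih =>
    have h1 : (orM um (n + 1) m).testBit k = ((orM um n m).testBit k ||
        (bif m.testBit n then um n else 0).testBit k) := Nat.testBit_or _ _ _
    rw [h1, Bool.or_eq_true, ih]
    constructor
    · rintro (⟨b, hb, h2, h3⟩ | h)
      · exact ⟨b, by omega, h2, h3⟩
      · cases h2 : m.testBit n
        · rw [h2, cond_false, Nat.zero_testBit] at h
          exact absurd h (by simp)
        · rw [h2, cond_true] at h
          exact ⟨n, by omega, h2, h⟩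
    · rintro ⟨b, hb, h2, h3⟩
      by_cases hbn : b = n
      · right
        rw [hbn] at h2 h3
        rw [h2, cond_true]
        exact h3
      · exact Or.inl ⟨b, by omega, h2, h3⟩

/-- the check of the thresholds `th`; `um a` = the cells above `a` -/
def thChk (N i a0 : ℕ) (ll cv um th : ℕ → ℕ) : Bool :=
  ((List.range N).all fun a => Nat.beq (um a) (Nat.lor (2 ^ a) (orM um N (cv a)))) &&
  ((List.range N).all fun a => Nat.beq (th a) 0 || (Nat.blt i (ll a) && !((um a0).testBit a) &&
    Nat.ble (th a) (ll a - i) && (List.range N).all fun y => !((um y).testBit a) ||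
      (List.range N).all fun x' => !((cv y).testBit x') || (um x').testBit a ||
        Nat.ble (th a) (th x' + 1))) && Nat.blt a0 N

variable {P : Type u} [Fintype P] [PartialOrder P] [DecidableEq P]

section Cod

variable {n N : ℕ} {cv lv um : ℕ → ℕ} {c : ℕ → P}

/-- the order of the cells from the masks -/
lemma Cod.le_iff (C : Cod n cv lv c) (hn : n ≤ N) (hcv : ∀ a < N, cv a < 2 ^ a)
    (hum : ∀ a < N, um a = Nat.lor (2 ^ a) (orM um N (cv a))) {a b : ℕ} (ha : a < n)
    (hb : b < n) : c a ≤ c b ↔ (um a).testBit b = true := by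
  have key : ∀ a, a < n → ∀ b < n, c a ≤ c b ↔ (um a).testBit b = true := by
    intro a
    induction a using Nat.strong_induction_on with
    | _ a ih =>
      intro ha b hb
      have h1 : (um a).testBit b = ((2 ^ a).testBit b || (orM um N (cv a)).testBit b) := by
        conv_lhs => rw [hum a (by omega)]
        exact Nat.testBit_or _ _ _
      rw [h1, Bool.or_eq_true, orM_testBit]
      have hlt : ∀ k, (cv a).testBit k = true → k < a := by
        intro k hk
        by_contra hcon
        rw [Nat.testBit_lt_two_pow (lt_of_lt_of_le (hcv a (by omega))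
          (Nat.pow_le_pow_right (by norm_num) (by omega)))] at hk
        exact absurd hk (by simp)
      constructor
      · intro h
        rcases eq_or_lt_of_le h with h2 | h2
        · left
          rw [← C.inj a ha b hb h2]
          exact Nat.testBit_two_pow_self
        · right
          obtain ⟨v, hv, hvb⟩ := Hul.exists_cov h2
          obtain ⟨k, hk, h3, rfl⟩ := (C.cov a ha v).mp hv
          exact ⟨k, by omega, h3, (ih k (hlt k h3) hk b hb).mp hvb⟩
      · rintro (h | ⟨k, hk, h3, h4⟩)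
        · have h5 : a = b := by
            by_contra hne
            rw [Nat.testBit_two_pow_of_ne hne] at h
            exact absurd h (by simp)
          rw [h5]
        · have hka := hlt k h3
          have hkn : k < n := by omega
          exact ((C.cov a ha (c k)).mpr ⟨k, hkn, h3, rfl⟩).le.trans
            ((ih k hka hkn b hb).mpr h4)
  exact key a ha b hb

end Cod

section Strip

variable {r j N J : ℕ} {t : P} {lo hi : ℕ → ℕ} {e : ℕ → ℕ → P}
variable {los his ll sl cv nn um : ℕ → ℕ}

/-- the threshold of an element, `thv` on the coordinates -/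
noncomputable def thC (lo hi : ℕ → ℕ) (e : ℕ → ℕ → P) (thv : ℕ → ℕ → ℕ) (x : P) : ℕ :=
  thv (lev x) (scoord lo hi e x)

/-- local data with thresholds by a table -/
theorem StripOK.loc (S : StripOK N J los his ll sl cv nn) (C : Cp.Comp j t lo hi e)
    (H : Gr P r) (hg : ∀ l, l < j → Win.Good P l) (ht : lev t = 0) (hj : j ≤ J)
    (hlo : ∀ k, k ≤ j → lo k = los k) (hhi : ∀ k, k ≤ j → hi k = his k)
    (hcv : ∀ a < N, cv a < 2 ^ a) {i b a0 : ℕ} {thv : ℕ → ℕ → ℕ}
    (hth : thChk N i a0 ll cv um (fun a => thv (ll a) (sl a)) = true) (haj : ll a0 ≤ j)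
    (hc : CleanAt i b (lowPart j t) (e (ll a0) (sl a0))) :
    LocData i b (lowPart j t) (thC lo hi e thv) (fun x => x = e (ll a0) (sl a0)) := by
  have hC := S.cod C H hg ht hj hlo hhi
  have hN := S.nle j (by omega)
  unfold thChk at hth
  simp only [Bool.and_eq_true, List.all_eq_true, List.mem_range, Bool.or_eq_true, ble_iff,
    beq_iff, Nat.blt_eq, Bool.not_eq_true'] at hth
  obtain ⟨⟨h1, h2⟩, h3⟩ := hth
  have ha0 : a0 < nn j := (S.num j (by omega) a0 h3).mpr haj
  have hle : ∀ {a b : ℕ}, a < nn j → b < nn j →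
      (e (ll a) (sl a) ≤ e (ll b) (sl b) ↔ (um a).testBit b = true) := fun ha hb =>
    hC.le_iff hN hcv h1 ha hb
  have hrow : ∀ a < nn j, ll a ≤ j ∧ lo (ll a) ≤ sl a ∧ sl a ≤ hi (ll a) := fun a ha => by
    have h4 : ll a ≤ j := (S.num j (by omega) a (by omega)).mp ha
    have h5 := S.row a (by omega)
    rw [← hlo _ h4, ← hhi _ h4] at h5
    exact ⟨h4, h5⟩
  have hthe : ∀ a < nn j, thC lo hi e thv (e (ll a) (sl a)) = thv (ll a) (sl a) := by
    intro a ha
    obtain ⟨h4, h5, h6⟩ := hrow a ha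
    unfold thC
    rw [C.lev_e _ _ h4 h5 h6, scoord_e C h4 h5 h6]
  have hmem : ∀ a < nn j, e (ll a) (sl a) ∈ lowPart j t := by
    intro a ha
    obtain ⟨h4, h5, h6⟩ := hrow a ha
    rw [mem_lowPart, C.lev_e _ _ h4 h5 h6]
    exact ⟨C.le_t _ _ h4 h5 h6, h4⟩
  have hpos : ∀ x ∈ lowPart j t, 1 ≤ thC lo hi e thv x → ∃ a < nn j, e (ll a) (sl a) = x ∧
      i < ll a ∧ (um a0).testBit a = false ∧ thv (ll a) (sl a) ≤ ll a - i ∧
      ∀ y < N, (um y).testBit a = false ∨ ∀ x' < N, ((cv y).testBit x' = false ∨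
        (um x').testBit a = true) ∨ thv (ll a) (sl a) ≤ thv (ll x') (sl x') + 1 := by
    intro x hx h4
    obtain ⟨a, ha, rfl⟩ := S.surj' C hj hlo hhi hx
    rw [hthe a ha] at h4
    rcases h2 a (by omega) with h5 | ⟨⟨⟨h5, h6⟩, h7⟩, h8⟩
    · omega
    · exact ⟨a, ha, rfl, h5, h6, h7, h8⟩
  refine hc.loc (hmem a0 ha0) ?_ ?_ ?_ ?_
  · intro x hx h4
    obtain ⟨a, ha, rfl, h5, -⟩ := hpos x hx h4
    rw [hC.lev a ha]
    exact h5
  · intro x hx h4 h5
    obtain ⟨a, ha, rfl, -, h6, -⟩ := hpos x hx h4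
    rw [hle ha0 ha, h6] at h5
    exact absurd h5 (by simp)
  · intro x hx h4 y hy hyx x' hx' hyx' hn
    obtain ⟨a, ha, rfl, -, -, -, h8⟩ := hpos x hx h4
    obtain ⟨y, hy', rfl⟩ := S.surj' C hj hlo hhi hy
    obtain ⟨x', hxn', hcx, rfl⟩ := (hC.cov y hy' x').mp hyx'
    rw [hthe a ha, hthe x' hxn']
    rcases h8 y (by omega) with h9 | h9
    · rw [hle hy' ha, h9] at hyx
      exact absurd hyx (by simp)
    · rcases h9 x' (by omega) with (h10 | h10) | h10
      · rw [hcx] at h10
        exact absurd h10 (by simp)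
      · exact absurd ((hle hxn' ha).mpr h10) hn
      · exact h10
  · intro x hx
    rcases Nat.eq_zero_or_pos (thC lo hi e thv x) with h4 | h4
    · rw [h4]; exact Nat.zero_le _
    · obtain ⟨a, ha, rfl, -, -, h7, -⟩ := hpos x hx h4
      rw [hthe a ha, hC.lev a ha]
      exact h7

end Strip

/-- natural set with thresholds by a table -/
theorem StripOK.natTopC {t : Tops P} {r j N J a : ℕ} {lo hi : ℕ → ℕ} {e : ℕ → ℕ → P}
    {w : List Ltr} {ll sl cv nn um : ℕ → ℕ}
    (S : StripOK N J (losW a w) (hisW a w) ll sl cv nn) {Us : List ℕ} (hU : UsOK N cv Us)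
    (D : WordD j a w lo hi) (C : Cp.Comp j (t : P) lo hi e) (H : Gr P r)
    (hg : ∀ l, l < j → Win.Good P l) (hj : j ≤ J) {i b a0 : ℕ} {thv : ℕ → ℕ → ℕ}
    (hth : thChk N i a0 ll cv um (fun a => thv (ll a) (sl a)) = true) (haj : ll a0 ≤ j)
    (hia : i ≤ ll a0) (hc : CleanAt i b (lowPart j (t : P)) (e (ll a0) (sl a0))) :
    NatTop i t b (lowPart j (t : P)) (thC lo hi e thv) (fun x => x = e (ll a0) (sl a0)) := by
  obtain ⟨h1, h2⟩ := D.rows C
  refine (S.loc C H hg t.2 hj h1 h2 hU.cv hth haj hc).natTop ?_ ?_ ?_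
  · intro x hx y hxy
    rw [mem_lowPart] at hx ⊢
    refine ⟨Cp.up_le H hg t.2 hx.1 hx.2 hxy, ?_⟩
    rcases eq_or_lt_of_le hxy with h1 | h1
    · rw [← h1]; exact hx.2
    · have := lev_strictAnti h1
      omega
  · exact fun x hx => (mem_lowPart.mp hx).1
  · intro x hx hxi
    exact mem_lowPart.mpr ⟨hx, by omega⟩

end Pool.Agent.GaussPoset.Cl
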